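import Pool.Agent.K3h93.EA.Swap

/-!
# Local approximation
-/

set_option autoImplicit false

open MeasureTheory Measure Filter Topology

namespace Pool.Agent.K3h93.EA

variable {ι : Type*} [Countable ι] (μ : Measure ℝ) [IsProbabilityMeasure μ]

/-- a bounded measurable function of the coordinates nearly depends on finitely many of them -/
lemma approx {f : (ι → ℝ) → ℝ} (hf : Measurable f) {C : ℝ} (hC : ∀ x, |f x| ≤ C)
    {I : ℕ → Set ι} (hI : ∀ e, ∀ᶠ n in atTop, e ∈ I n) :
    Tendsto (fun n => ∫ p, |f p.1 - f (patch (I n)ᶜ p.1 p.2)|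
      ∂((infinitePi fun _ : ι => μ).prod (infinitePi fun _ : ι => μ))) atTop (𝓝 0) := by
  set P := infinitePi fun _ : ι => μ with hP
  have hfi : Integrable f P := Integrable.of_bound hf.aestronglyMeasurable C
    (Eventually.of_forall fun x => by rw [Real.norm_eq_abs]; exact hC x)
  rw [Metric.tendsto_atTop]
  intro ε hε
  obtain ⟨g, hg, hgi⟩ := hfi.exists_boundedContinuous_integral_sub_le (ε := ε / 4) (by linarith)
  have hgm : Measurable g := g.continuous.measurable
  -- the continuous function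
  have h1 : Tendsto (fun n => ∫ p, |g p.1 - g (patch (I n)ᶜ p.1 p.2)| ∂(P.prod P)) atTop
      (𝓝 (∫ _p : (ι → ℝ) × (ι → ℝ), (0 : ℝ) ∂(P.prod P))) := by
    refine tendsto_integral_of_dominated_convergence (fun _ => 2 * ‖g‖) ?_ (integrable_const _) ?_ ?_
    · intro n
      exact (((hgm.comp measurable_fst).sub
        (hgm.comp (measurable_patch _))).abs).aestronglyMeasurable
    · intro n
      refine Eventually.of_forall fun p => ?_
      rw [Real.norm_eq_abs, abs_abs]
      refine (abs_sub _ _).trans ?_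
      have h2 := g.norm_coe_le_norm p.1
      have h3 := g.norm_coe_le_norm (patch (I n)ᶜ p.1 p.2)
      rw [Real.norm_eq_abs] at h2 h3
      linarith
    · refine Eventually.of_forall fun p => ?_
      have h2 : Tendsto (fun n => patch (I n)ᶜ p.1 p.2) atTop (𝓝 p.1) := by
        rw [tendsto_pi_nhds]
        intro e
        refine tendsto_const_nhds.congr' ?_
        filter_upwards [hI e] with n hn
        rw [patch_not (by simpa using hn)]
      have h3 := (g.continuous.tendsto p.1).comp h2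
      have h4 : Tendsto (fun n => |g p.1 - g (patch (I n)ᶜ p.1 p.2)|) atTop
          (𝓝 |g p.1 - g p.1|) := (tendsto_const_nhds.sub h3).abs
      rwa [sub_self, abs_zero] at h4
  rw [integral_zero, Metric.tendsto_atTop] at h1
  obtain ⟨N, hN⟩ := h1 (ε / 4) (by linarith)
  refine ⟨N, fun n hn => ?_⟩
  have h5 := hN n hn
  rw [Real.dist_eq, sub_zero, abs_of_nonneg (integral_nonneg fun _ => abs_nonneg _)] at h5 ⊢
  have hgb : ∀ x, |g x| ≤ ‖g‖ := fun x => by
    rw [← Real.norm_eq_abs]; exact g.norm_coe_le_norm x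
  have hC0 : 0 ≤ C := (abs_nonneg _).trans (hC (fun _ => 0))
  have hbd : ∀ {h : (ι → ℝ) × (ι → ℝ) → ℝ} {K : ℝ}, Measurable h → (∀ x, |h x| ≤ K) →
      Integrable h (P.prod P) := fun hm hK =>
    Integrable.of_bound hm.aestronglyMeasurable _
      (Eventually.of_forall fun x => by rw [Real.norm_eq_abs]; exact hK x)
  have hswap : ∫ p, |f (patch (I n)ᶜ p.1 p.2) - g (patch (I n)ᶜ p.1 p.2)| ∂(P.prod P) =
      ∫ p, |f p.1 - g p.1| ∂(P.prod P) :=
    sw_int μ (I n)ᶜ (fun p => |f p.1 - g p.1|)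
  have hfst : ∫ p, |f p.1 - g p.1| ∂(P.prod P) = ∫ x, |f x - g x| ∂P := by
    have h6 := integral_prod_mul (μ := P) (ν := P) (fun x => |f x - g x|) (fun _ => (1 : ℝ))
    simpa using h6
  have hA : Integrable (fun p : (ι → ℝ) × (ι → ℝ) => |f p.1 - g p.1|) (P.prod P) :=
    hbd (K := C + ‖g‖) (((hf.comp measurable_fst).sub (hgm.comp measurable_fst)).abs)
      fun x => by
        rw [abs_abs]
        exact (abs_sub _ _).trans (add_le_add (hC _) (hgb _))
  have hB : Integrable (fun p : (ι → ℝ) × (ι → ℝ) =>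
      |f (patch (I n)ᶜ p.1 p.2) - g (patch (I n)ᶜ p.1 p.2)|) (P.prod P) :=
    hbd (K := C + ‖g‖) (((hf.comp (measurable_patch _)).sub
      (hgm.comp (measurable_patch _))).abs)
      fun x => by
        rw [abs_abs]
        exact (abs_sub _ _).trans (add_le_add (hC _) (hgb _))
  have hD : Integrable (fun p : (ι → ℝ) × (ι → ℝ) =>
      |g p.1 - g (patch (I n)ᶜ p.1 p.2)|) (P.prod P) :=
    hbd (K := ‖g‖ + ‖g‖) (((hgm.comp measurable_fst).sub (hgm.comp (measurable_patch _))).abs)
      fun x => by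
        rw [abs_abs]
        exact (abs_sub _ _).trans (add_le_add (hgb _) (hgb _))
  have hE : Integrable (fun p : (ι → ℝ) × (ι → ℝ) =>
      |f p.1 - f (patch (I n)ᶜ p.1 p.2)|) (P.prod P) :=
    hbd (K := C + C) (((hf.comp measurable_fst).sub (hf.comp (measurable_patch _))).abs)
      fun x => by
        rw [abs_abs]
        exact (abs_sub _ _).trans (add_le_add (hC _) (hC _))
  have h7 : ∫ p, |f p.1 - f (patch (I n)ᶜ p.1 p.2)| ∂(P.prod P) ≤
      ∫ p, (|f p.1 - g p.1| + |g p.1 - g (patch (I n)ᶜ p.1 p.2)| +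
        |f (patch (I n)ᶜ p.1 p.2) - g (patch (I n)ᶜ p.1 p.2)|) ∂(P.prod P) := by
    refine integral_mono hE ((hA.add hD).add hB) fun p => ?_
    have e1 : f p.1 - f (patch (I n)ᶜ p.1 p.2) = (f p.1 - g p.1) +
        (g p.1 - g (patch (I n)ᶜ p.1 p.2)) -
        (f (patch (I n)ᶜ p.1 p.2) - g (patch (I n)ᶜ p.1 p.2)) := by ring
    simp only [e1]
    refine (abs_sub _ _).trans ?_
    have := abs_add_le (f p.1 - g p.1) (g p.1 - g (patch (I n)ᶜ p.1 p.2))
    linarith
  have hAD : Integrable (fun p : (ι → ℝ) × (ι → ℝ) =>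
      |f p.1 - g p.1| + |g p.1 - g (patch (I n)ᶜ p.1 p.2)|) (P.prod P) := hA.add hD
  rw [integral_add hAD hB, integral_add hA hD, hswap, hfst] at h7
  have h8 : ∫ x, |f x - g x| ∂P ≤ ε / 4 := by
    simpa [Real.norm_eq_abs] using hg
  linarith

end Pool.Agent.K3h93.EA
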