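import Pool.Agent.K3h93.EA.Sel

/-!
# Two covariant families of ground states agree
-/

set_option autoImplicit false
set_option linter.unusedSectionVars false

open MeasureTheory Measure Filter Topology

namespace Pool.Agent.K3h93.EA

variable {Ω : Type*} [MeasurableSpace Ω] {μ : Measure ℝ} [IsProbabilityMeasure μ]
  {Q : Measure Ω} [IsProbabilityMeasure Q]

lemma ne_ae (hat : ∀ x, μ {x} = 0) (e : E) :
    ∀ᵐ r ∂(Q.prod ((infinitePi fun _ : E => μ).prod (infinitePi fun _ : E => μ))),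
      r.2.1 e ≠ r.2.2 e := by
  have h1 : ∀ᵐ p ∂((infinitePi fun _ : E => μ).prod (infinitePi fun _ : E => μ)),
      p.1 e ≠ p.2 e := by
    rw [ae_iff]
    have hs : MeasurableSet {p : (E → ℝ) × (E → ℝ) | ¬ p.1 e ≠ p.2 e} := by
      simp only [ne_eq, not_not]
      exact measurableSet_eq_fun (by fun_prop) (by fun_prop)
    rw [measure_prod_null hs]
    refine Eventually.of_forall fun J => ?_
    have h2 : (Prod.mk J ⁻¹' {p : (E → ℝ) × (E → ℝ) | ¬ p.1 e ≠ p.2 e}) =
        (fun y : E → ℝ => y e) ⁻¹' ({J e} : Set ℝ) := by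
      ext y
      simp only [Set.mem_preimage, Set.mem_ofPred_eq, not_not, Set.mem_singleton_iff, ne_eq]
      exact eq_comm
    show (infinitePi fun _ : E => μ) _ = 0
    rw [h2]
    have h3 := (measurePreserving_eval_infinitePi (fun _ : E => μ) e).measure_preimage
      (s := ({J e} : Set ℝ)) (measurableSet_singleton _).nullMeasurableSet
    exact h3.trans (hat _)
  have h2 : MeasurePreserving (Prod.snd : Ω × ((E → ℝ) × (E → ℝ)) → _)
      (Q.prod ((infinitePi fun _ : E => μ).prod (infinitePi fun _ : E => μ)))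
      ((infinitePi fun _ : E => μ).prod (infinitePi fun _ : E => μ)) := measurePreserving_snd
  exact h2.quasiMeasurePreserving.ae h1

/-- a set which almost surely contains at most one point of every line in the direction `e` -/
lemma null_line (F : Set E) {B : Set (Ω × (E → ℝ))} (hB : MeasurableSet B)
    (h : ∀ᵐ r ∂(Q.prod ((infinitePi fun _ : E => μ).prod (infinitePi fun _ : E => μ))),
      ¬ ((r.1, r.2.1) ∈ B ∧ (r.1, patch F r.2.1 r.2.2) ∈ B)) :
    ∀ᵐ q ∂(Q.prod (infinitePi fun _ : E => μ)), q ∉ B := by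
  classical
  set P := infinitePi fun _ : E => μ with hP
  set f : Ω → (E → ℝ) → ℝ := fun ω J => B.indicator (fun _ => 1) (ω, J) with hf
  have hfm : Measurable fun q : Ω × (E → ℝ) => f q.1 q.2 :=
    (measurable_const.indicator hB)
  have hf0 : ∀ ω J, 0 ≤ f ω J := fun ω J => Set.indicator_nonneg (fun _ _ => zero_le_one) _
  have hf1 : ∀ ω J, |f ω J| ≤ 1 := fun ω J => by
    rw [abs_of_nonneg (hf0 ω J)]
    exact Set.indicator_le_self' (fun _ _ => zero_le_one) _
  have hpm : Measurable fun r : Ω × ((E → ℝ) × (E → ℝ)) => f r.1 (patch F r.2.1 r.2.2) :=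
    hfm.comp (measurable_fst.prodMk ((measurable_patch F).comp measurable_snd))
  have hpm1 : Measurable fun r : Ω × ((E → ℝ) × (E → ℝ)) => f r.1 r.2.1 :=
    hfm.comp (f := fun r : Ω × ((E → ℝ) × (E → ℝ)) => (r.1, r.2.1)) (by fun_prop)
  set g : Ω → (E → ℝ) → ℝ := fun ω J => ∫ y, f ω (patch F J y) ∂P with hg
  have hgm : Measurable fun q : Ω × (E → ℝ) => g q.1 q.2 := by
    have h1 : Measurable fun x : (Ω × (E → ℝ)) × (E → ℝ) => f x.1.1 (patch F x.1.2 x.2) :=
      hpm.comp (f := fun x : (Ω × (E → ℝ)) × (E → ℝ) => (x.1.1, (x.1.2, x.2))) (by fun_prop)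
    exact (h1.stronglyMeasurable.integral_prod_right).measurable
  have hg0 : ∀ ω J, 0 ≤ g ω J := fun ω J => integral_nonneg fun y => hf0 _ _
  have hg1 : ∀ ω J, |g ω J| ≤ 1 := fun ω J => by
    have := norm_integral_le_of_norm_le_const (μ := P) (f := fun y => f ω (patch F J y)) (C := 1)
      (Eventually.of_forall fun x => by rw [Real.norm_eq_abs]; exact hf1 _ _)
    rwa [probReal_univ, mul_one, Real.norm_eq_abs] at this
  have hgp : ∀ ω J y, g ω (patch F J y) = g ω J := by
    intro ω J y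
    simp only [hg]
    refine integral_congr_ae (Eventually.of_forall fun z => ?_)
    have : patch F (patch F J y) z = patch F J z := by
      funext e
      by_cases he : e ∈ F
      · rw [patch_mem he, patch_mem he]
      · rw [patch_not he, patch_not he, patch_not he]
    simp only [this]
  have hbd3 : ∀ {u : Ω × ((E → ℝ) × (E → ℝ)) → ℝ} {C : ℝ}, Measurable u → (∀ x, |u x| ≤ C) →
      Integrable u (Q.prod (P.prod P)) := fun hu hC =>
    Integrable.of_bound hu.aestronglyMeasurable _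
      (Eventually.of_forall fun x => by rw [Real.norm_eq_abs]; exact hC x)
  have hbd2 : ∀ {u : Ω × (E → ℝ) → ℝ} {C : ℝ}, Measurable u → (∀ x, |u x| ≤ C) →
      Integrable u (Q.prod P) := fun hu hC =>
    Integrable.of_bound hu.aestronglyMeasurable _
      (Eventually.of_forall fun x => by rw [Real.norm_eq_abs]; exact hC x)
  -- Fubini
  have fub : ∀ u : Ω → (E → ℝ) → (E → ℝ) → ℝ,
      (Measurable fun r : Ω × ((E → ℝ) × (E → ℝ)) => u r.1 r.2.1 r.2.2) →
      (∀ ω J y, |u ω J y| ≤ 1) → ∫ r, u r.1 r.2.1 r.2.2 ∂(Q.prod (P.prod P)) =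
        ∫ q, ∫ y, u q.1 q.2 y ∂P ∂(Q.prod P) := by
    intro u hu hu1
    have i1 := hbd3 hu fun x => hu1 _ _ _
    have a1 : MeasurePreserving (MeasurableEquiv.prodAssoc (α := Ω) (β := E → ℝ) (γ := E → ℝ))
      ((Q.prod P).prod P) (Q.prod (P.prod P)) := measurePreserving_prodAssoc Q P P
    rw [← mp_int a1 hu]
    have i2 : Integrable (fun x : (Ω × (E → ℝ)) × (E → ℝ) => u x.1.1 x.1.2 x.2)
        ((Q.prod P).prod P) := a1.integrable_comp_of_integrable i1
    exact integral_prod _ i2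
  -- the product has integral zero
  have e1 : ∫ q, f q.1 q.2 * g q.1 q.2 ∂(Q.prod P) = 0 := by
    have h1 := fub (fun ω J y => f ω J * f ω (patch F J y)) (hpm1.mul hpm) fun ω J y => by
      rw [abs_mul]
      have := hf1 ω J
      have := hf1 ω (patch F J y)
      nlinarith [abs_nonneg (f ω J), abs_nonneg (f ω (patch F J y))]
    have h2 : ∫ r : Ω × ((E → ℝ) × (E → ℝ)), f r.1 r.2.1 * f r.1 (patch F r.2.1 r.2.2)
        ∂(Q.prod (P.prod P)) = 0 := by
      rw [← integral_zero (Ω × ((E → ℝ) × (E → ℝ))) ℝ (μ := Q.prod (P.prod P))]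
      refine integral_congr_ae ?_
      filter_upwards [h] with r hr
      simp only [hf]
      by_cases h3 : (r.1, r.2.1) ∈ B
      · have h4 : (r.1, patch F r.2.1 r.2.2) ∉ B := fun h5 => hr ⟨h3, h5⟩
        rw [Set.indicator_of_notMem h4, mul_zero]
      · rw [Set.indicator_of_notMem h3, zero_mul]
    rw [h2] at h1
    rw [h1]
    refine integral_congr_ae (Eventually.of_forall fun q => ?_)
    simp only [hg]
    rw [integral_const_mul]
  -- the square of the conditional expectation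
  have e2 : ∫ q, g q.1 q.2 * g q.1 q.2 ∂(Q.prod P) = 0 := by
    have hgm3 : Measurable fun r : Ω × ((E → ℝ) × (E → ℝ)) => g r.1 r.2.1 :=
      hgm.comp (f := fun r : Ω × ((E → ℝ) × (E → ℝ)) => (r.1, r.2.1)) (by fun_prop)
    have hb : ∀ ω J J', |g ω J * f ω J'| ≤ 1 := fun ω J J' => by
      rw [abs_mul]
      have := hf1 ω J'
      have := hg1 ω J
      nlinarith [abs_nonneg (g ω J), abs_nonneg (f ω J')]
    have h1 := fub (fun ω J y => g ω J * f ω (patch F J y)) (hgm3.mul hpm) fun ω J y => hb _ _ _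
    have h2 := fub (fun ω J _ => g ω J * f ω J) (hgm3.mul hpm1) fun ω J y => hb _ _ _
    have h3 : ∫ r, (fun r : Ω × ((E → ℝ) × (E → ℝ)) => g r.1 r.2.1 * f r.1 r.2.1)
        (r.1, sw F r.2) ∂(Q.prod (P.prod P)) =
        ∫ r, (fun r : Ω × ((E → ℝ) × (E → ℝ)) => g r.1 r.2.1 * f r.1 r.2.1) r
          ∂(Q.prod (P.prod P)) := mp_int (psw_law F) (hgm3.mul hpm1)
    have h4 : ∫ q, g q.1 q.2 * g q.1 q.2 ∂(Q.prod P) =
        ∫ q, ∫ y, g q.1 q.2 * f q.1 (patch F q.2 y) ∂P ∂(Q.prod P) := by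
      refine integral_congr_ae (Eventually.of_forall fun q => ?_)
      simp only
      rw [integral_const_mul]
    rw [h4, ← h1]
    have h5 : ∫ r : Ω × ((E → ℝ) × (E → ℝ)), g r.1 r.2.1 * f r.1 (patch F r.2.1 r.2.2)
        ∂(Q.prod (P.prod P)) = ∫ r, (fun r : Ω × ((E → ℝ) × (E → ℝ)) =>
          g r.1 r.2.1 * f r.1 r.2.1) (r.1, sw F r.2) ∂(Q.prod (P.prod P)) := by
      refine integral_congr_ae (Eventually.of_forall fun r => ?_)
      show _ = g r.1 (patch F r.2.1 r.2.2) * f r.1 (patch F r.2.1 r.2.2)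
      rw [hgp]
    rw [h5, h3]
    simp only
    rw [h2]
    have h6 : ∀ q : Ω × (E → ℝ), ∫ _y : E → ℝ, g q.1 q.2 * f q.1 q.2 ∂P =
        f q.1 q.2 * g q.1 q.2 := fun q => by
      rw [integral_const, probReal_univ, one_smul, mul_comm]
    simp only [h6]
    exact e1
  have hgi : Integrable (fun q : Ω × (E → ℝ) => g q.1 q.2 * g q.1 q.2) (Q.prod P) :=
    hbd2 (C := 1) (hgm.mul hgm) fun q => by
      rw [abs_mul]
      have := hg1 q.1 q.2
      nlinarith [abs_nonneg (g q.1 q.2)]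
  rw [integral_eq_zero_iff_of_nonneg (fun q => mul_self_nonneg _) hgi] at e2
  have e3 : ∀ᵐ q ∂(Q.prod P), g q.1 q.2 = 0 := by
    filter_upwards [e2] with q hq
    exact mul_self_eq_zero.1 hq
  -- the integral of the indicator
  have e4 : ∫ q, f q.1 q.2 ∂(Q.prod P) = 0 := by
    have h1 := fub (fun ω J y => f ω (patch F J y)) hpm fun ω J y => hf1 _ _
    have h2 := fub (fun ω J _ => f ω J) hpm1 fun ω J y => hf1 _ _
    have h3 : ∫ r, (fun r : Ω × ((E → ℝ) × (E → ℝ)) => f r.1 r.2.1)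
        (r.1, sw F r.2) ∂(Q.prod (P.prod P)) =
        ∫ r, (fun r : Ω × ((E → ℝ) × (E → ℝ)) => f r.1 r.2.1) r
          ∂(Q.prod (P.prod P)) := mp_int (psw_law F) hpm1
    have h4 : ∫ q, f q.1 q.2 ∂(Q.prod P) = ∫ q, ∫ _y : E → ℝ, f q.1 q.2 ∂P ∂(Q.prod P) := by
      refine integral_congr_ae (Eventually.of_forall fun q => ?_)
      simp only
      rw [integral_const, probReal_univ, one_smul]
    rw [h4, ← h2]
    have h5 : ∫ r : Ω × ((E → ℝ) × (E → ℝ)), f r.1 (patch F r.2.1 r.2.2)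
        ∂(Q.prod (P.prod P)) = ∫ r, (fun r : Ω × ((E → ℝ) × (E → ℝ)) => f r.1 r.2.1)
          (r.1, sw F r.2) ∂(Q.prod (P.prod P)) := rfl
    have h6 : ∫ r : Ω × ((E → ℝ) × (E → ℝ)), f r.1 (patch F r.2.1 r.2.2)
        ∂(Q.prod (P.prod P)) = 0 := by
      rw [h1]
      rw [← integral_zero (Ω × (E → ℝ)) ℝ (μ := Q.prod P)]
      refine integral_congr_ae ?_
      filter_upwards [e3] with q hq
      exact hq
    rw [← h3, ← h5, h6]
  have hfi : Integrable (fun q : Ω × (E → ℝ) => f q.1 q.2) (Q.prod P) :=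
    hbd2 hfm fun q => hf1 _ _
  rw [integral_eq_zero_iff_of_nonneg (fun q => hf0 _ _) hfi] at e4
  filter_upwards [e4] with q hq hB'
  have : f q.1 q.2 = 1 := Set.indicator_of_mem hB' _
  rw [this] at hq
  exact one_ne_zero hq

variable {τ : V → Ω → Ω} {S S' : Ω → (E → ℝ) → V → ℝ}

/-- the energy differences agree -/
lemma D_eq (hμ : Integrable (fun x : ℝ => x) μ) (hS : Cov μ Q τ S) (hS' : Cov μ Q τ S')
    (F : Finset E) :
    ∀ᵐ r ∂(Q.prod ((infinitePi fun _ : E => μ).prod (infinitePi fun _ : E => μ))),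
      DD r.2.1 (patch (F : Set E) r.2.1 r.2.2) (S r.1 r.2.1)
        (S r.1 (patch (F : Set E) r.2.1 r.2.2)) =
      DD r.2.1 (patch (F : Set E) r.2.1 r.2.2) (S' r.1 r.2.1)
        (S' r.1 (patch (F : Set E) r.2.1 r.2.2)) := by
  choose D hD using fun F => hS.exists_D F
  choose D' hD' using fun F => hS'.exists_D F
  have h1 := zero hμ (coc_of hS hS' hD hD') F
  have hpz := (py_law (μ := μ) (Q := Q)).comp (rZ_law μ Q)
  have h2 : ∀ᵐ r ∂(Q.prod ((infinitePi fun _ : E => μ).prod (infinitePi fun _ : E => μ))),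
      D F r.1 r.2.1 r.2.2 - D' F r.1 r.2.1 r.2.2 = 0 := by
    rw [← hpz.map_eq, ae_map_iff hpz.measurable.aemeasurable]
    · exact h1
    · exact measurableSet_eq_fun ((hD F).1.sub (hD' F).1) measurable_const
  filter_upwards [h2, (hD F).2, (hD' F).2] with r hr h3 h4
  rw [← h3, ← h4]
  linarith

lemma bp_eq_half (hμ : Integrable (fun x : ℝ => x) μ) (hat : ∀ x, μ {x} = 0)
    (hS : Cov μ Q τ S) (hS' : Cov μ Q τ S') (e : E) :
    ∀ᵐ q ∂(Q.prod (infinitePi fun _ : E => μ)),
      ¬ (bp (S q.1 q.2) e = 1 ∧ bp (S' q.1 q.2) e = -1) := by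
  have hB : MeasurableSet {q : Ω × (E → ℝ) | bp (S q.1 q.2) e = 1 ∧ bp (S' q.1 q.2) e = -1} :=
    (measurableSet_eq_fun (bp_meas hS.meas e) measurable_const).inter
      (measurableSet_eq_fun (bp_meas hS'.meas e) measurable_const)
  refine null_line ({e} : Set E) hB ?_
  filter_upwards [D_eq hμ hS hS' {e}, ne_ae (Q := Q) hat e, hS.fin {e}, hS'.fin {e}, hS.ground1,
    hS'.ground1, hS.ground2 ({e} : Set E), hS'.ground2 ({e} : Set E)]
    with r h1 h2 h3 h4 h5 h6 h7 h8 hr
  simp only [Finset.coe_singleton] at h1 h3 h4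
  have hF : ∀ e', e' ∉ ({e} : Finset E) → patch ({e} : Set E) r.2.1 r.2.2 e' = r.2.1 e' :=
    fun e' he' => patch_not (fun h => he' (by simpa using h)) _ _
  obtain ⟨⟨a1, a2⟩, ⟨a3, a4⟩⟩ := hr
  have b1 := DD_upper hF h5.1 h3 h7
  have b2 := DD_lower hF h7.1 h3 h5
  have c1 := DD_upper hF h6.1 h4 h8
  have c2 := DD_lower hF h8.1 h4 h6
  rw [Finset.sum_singleton, patch_mem (Set.mem_singleton e)] at b1 b2 c1 c2
  simp only at a1 a2 a3 a4
  rw [a1] at b1
  rw [a3] at b2
  rw [a2] at c1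
  rw [a4] at c2
  apply h2
  rw [h1] at b1 b2
  linarith

/-- **Two covariant families of ground states agree on every bond.** -/
theorem bp_eq (hμ : Integrable (fun x : ℝ => x) μ) (hat : ∀ x, μ {x} = 0)
    (hS : Cov μ Q τ S) (hS' : Cov μ Q τ S') :
    ∀ᵐ q ∂(Q.prod (infinitePi fun _ : E => μ)), ∀ e, bp (S q.1 q.2) e = bp (S' q.1 q.2) e := by
  rw [ae_all_iff]
  intro e
  filter_upwards [bp_eq_half hμ hat hS hS' e, bp_eq_half hμ hat hS' hS e, hS.ground, hS'.ground]
    with q h1 h2 h3 h4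
  rcases h3.1.bp_cases e with h5 | h5 <;> rcases h4.1.bp_cases e with h6 | h6
  · rw [h5, h6]
  · exact absurd ⟨h5, h6⟩ h1
  · exact absurd ⟨h6, h5⟩ h2
  · rw [h5, h6]

/-- configurations which agree on every bond are equal up to a flip -/
lemma eq_or_neg {σ ρ : V → ℝ} (hσ : Spin σ) (hρ : Spin ρ) (h : ∀ e, bp σ e = bp ρ e) :
    σ = ρ ∨ σ = -ρ := by
  set r : V → ℝ := fun x => σ x * ρ x with hr
  have hr1 : ∀ x (i : Fin 2), r (x + (Pi.single i (1 : ℤ) : V)) = r x := by
    intro x i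
    have h1 := h (x, i)
    unfold bp at h1
    simp only at h1
    simp only [hr]
    rcases hσ x with a | a <;> rcases hρ x with b | b <;>
      rcases hσ (x + (Pi.single i (1 : ℤ) : V)) with c | c <;>
      rcases hρ (x + (Pi.single i (1 : ℤ) : V)) with d | d <;>
      rw [a, b, c, d] at h1 <;> rw [a, b, c, d] <;> revert h1 <;> norm_num
  have hr2 : ∀ (i : Fin 2) (n : ℤ) (x : V), r (x + (Pi.single i n : V)) = r x := by
    intro i n
    induction n using Int.induction_on with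
    | zero => intro x; simp
    | succ n ih =>
      intro x
      have e1 : x + (Pi.single i ((n : ℤ) + 1) : V) = (x + (Pi.single i (n : ℤ) : V)) +
          (Pi.single i (1 : ℤ) : V) := by
        rw [add_assoc, ← Pi.single_add]
      rw [e1, hr1, ih]
    | pred n ih =>
      intro x
      have e1 : (x + (Pi.single i (-(n : ℤ) - 1) : V)) + (Pi.single i (1 : ℤ) : V) =
          x + (Pi.single i (-(n : ℤ)) : V) := by
        rw [add_assoc, ← Pi.single_add, sub_add_cancel]
      rw [← hr1, e1, ih]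
  have hr3 : ∀ x : V, r x = r 0 := by
    intro x
    have e1 : x = (0 + (Pi.single 0 (x 0) : V)) + (Pi.single 1 (x 1) : V) := by
      funext j
      fin_cases j <;> simp
    rw [e1, hr2, hr2]
  have hr4 : r 0 = 1 ∨ r 0 = -1 := by
    simp only [hr]
    rcases hσ 0 with a | a <;> rcases hρ 0 with b | b <;> rw [a, b] <;> norm_num
  rcases hr4 with h0 | h0
  · left
    funext x
    have h1 := hr3 x
    rw [h0] at h1
    simp only [hr] at h1
    rcases hσ x with a | a <;> rcases hρ x with b | b <;> rw [a, b] at h1 ⊢ <;>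
      revert h1 <;> norm_num
  · right
    funext x
    have h1 := hr3 x
    rw [h0] at h1
    simp only [hr] at h1
    rw [Pi.neg_apply]
    rcases hσ x with a | a <;> rcases hρ x with b | b <;> rw [a, b] at h1 ⊢ <;>
      revert h1 <;> norm_num

end Pool.Agent.K3h93.EA
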