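import Pool.Agent.K3h93.EA.Est

/-!
# The conditional expectation of a cocycle, given the couplings in a block, vanishes
-/

set_option autoImplicit false
set_option linter.unusedSectionVars false

open MeasureTheory Measure Filter Topology

namespace Pool.Agent.K3h93.EA

section

variable {Ω : Type*} [MeasurableSpace Ω] {μ : Measure ℝ} [IsProbabilityMeasure μ]
  {Q : Measure Ω} [IsProbabilityMeasure Q]
  {τ : V → Ω → Ω} {δ : Finset E → Ω → (E → ℝ) → (E → ℝ) → ℝ}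

lemma WW_tendsto (hμ : Integrable (fun x : ℝ => x) μ) (N : ℕ) :
    Tendsto (fun R : ℕ => WW μ Q N R) atTop (𝓝 0) := by
  unfold WW
  have h1 : Tendsto (fun R : ℕ => ∫ p : (Ω × (E → ℝ)) × ((E → ℝ) × (E → ℝ)),
      max (LL (blk N 0) p.2.1 p.2.2 - (R : ℝ)) 0 ∂(MM μ Q E)) atTop
      (𝓝 (∫ _p : (Ω × (E → ℝ)) × ((E → ℝ) × (E → ℝ)), (0 : ℝ) ∂(MM μ Q E))) := by
    refine tendsto_integral_of_dominated_convergence
      (fun p => LL (blk N 0) p.2.1 p.2.2) ?_ (LL_int μ Q hμ _) ?_ ?_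
    · intro R
      exact ((((LL_meas (blk N 0)).comp measurable_snd).sub measurable_const).max
        measurable_const).aestronglyMeasurable
    · intro R
      refine Eventually.of_forall fun p => ?_
      rw [Real.norm_eq_abs, abs_of_nonneg (le_max_right _ _)]
      exact max_le (by have : (0 : ℝ) ≤ R := Nat.cast_nonneg R; linarith) (LL_nonneg _ _ _)
    · refine Eventually.of_forall fun p => ?_
      refine tendsto_const_nhds.congr' ?_
      obtain ⟨R0, hR0⟩ := exists_nat_ge (LL (blk N 0) p.2.1 p.2.2)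
      filter_upwards [eventually_ge_atTop R0] with R hR
      have : (R0 : ℝ) ≤ R := by exact_mod_cast hR
      rw [max_eq_right (by linarith)]
  simpa using h1

lemma HH_tendsto {N : ℕ} (hN : 1 ≤ N) {g : Ω → (E → ℝ) → ℝ} (hg : Til μ N g)
    (hδ : Coc μ Q τ δ) {R : ℝ} (hR : 0 ≤ R) :
    Tendsto (fun m : ℕ => HH μ Q N g δ R m) atTop (𝓝 0) := by
  unfold HH MM
  have hThm : Measurable fun p : (Ω × (E → ℝ)) × ((E → ℝ) × (E → ℝ)) =>
      Th N g δ R p.1.1 p.2.1 p.1.2 := (Th_meas hg hδ R).comp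
        (f := fun p : (Ω × (E → ℝ)) × ((E → ℝ) × (E → ℝ)) => (p.1.1, (p.2.1, p.1.2)))
        (by fun_prop)
  have hm : ∀ m : ℕ, Measurable fun p : (Ω × (E → ℝ)) × ((E → ℝ) × (E → ℝ)) =>
      |Th N g δ R p.1.1 p.2.1 p.1.2 -
        Th N g δ R p.1.1 (patch (reg N m 0)ᶜ p.2.1 p.2.2) p.1.2| := by
    intro m
    refine (hThm.sub ((Th_meas hg hδ R).comp
      (f := fun p : (Ω × (E → ℝ)) × ((E → ℝ) × (E → ℝ)) =>
        (p.1.1, (patch (reg N m 0)ᶜ p.2.1 p.2.2, p.1.2))) ?_)).abs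
    exact (measurable_fst.comp measurable_fst).prodMk
      (((measurable_patch _).comp measurable_snd).prodMk
        (measurable_snd.comp measurable_fst))
  have hb : ∀ (m : ℕ) (p : (Ω × (E → ℝ)) × ((E → ℝ) × (E → ℝ))),
      |(|Th N g δ R p.1.1 p.2.1 p.1.2 -
        Th N g δ R p.1.1 (patch (reg N m 0)ᶜ p.2.1 p.2.2) p.1.2|)| ≤ R + R := fun m p => by
    rw [abs_abs]
    exact (abs_sub _ _).trans (add_le_add (Th_le hR _ _ _) (Th_le hR _ _ _))
  have h1 : ∀ m : ℕ, ∫ p : (Ω × (E → ℝ)) × ((E → ℝ) × (E → ℝ)),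
      |Th N g δ R p.1.1 p.2.1 p.1.2 -
        Th N g δ R p.1.1 (patch (reg N m 0)ᶜ p.2.1 p.2.2) p.1.2|
        ∂((Q.prod (infinitePi fun _ : E => μ)).prod
          ((infinitePi fun _ : E => μ).prod (infinitePi fun _ : E => μ))) =
      ∫ q, ∫ r, |Th N g δ R q.1 r.1 q.2 - Th N g δ R q.1 (patch (reg N m 0)ᶜ r.1 r.2) q.2|
        ∂((infinitePi fun _ : E => μ).prod (infinitePi fun _ : E => μ))
        ∂(Q.prod (infinitePi fun _ : E => μ)) := fun m =>
    integral_prod _ (MM_bdd μ Q (hm m) (hb m))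
  simp only [h1]
  have h2 : Tendsto (fun m : ℕ => ∫ q, ∫ r, |Th N g δ R q.1 r.1 q.2 -
      Th N g δ R q.1 (patch (reg N m 0)ᶜ r.1 r.2) q.2|
        ∂((infinitePi fun _ : E => μ).prod (infinitePi fun _ : E => μ))
        ∂(Q.prod (infinitePi fun _ : E => μ))) atTop
      (𝓝 (∫ _q : Ω × (E → ℝ), (0 : ℝ) ∂(Q.prod (infinitePi fun _ : E => μ)))) := by
    refine tendsto_integral_of_dominated_convergence (fun _ => R + R) ?_
      (integrable_const _) ?_ ?_
    · intro m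
      exact ((hm m).stronglyMeasurable.integral_prod_right
        (ν := (infinitePi fun _ : E => μ).prod (infinitePi fun _ : E => μ))).aestronglyMeasurable
    · intro m
      refine Eventually.of_forall fun q => ?_
      refine (norm_integral_le_of_norm_le_const (C := R + R)
        (Eventually.of_forall fun r => ?_)).trans ?_
      · rw [Real.norm_eq_abs]; exact hb m (q, r)
      · rw [probReal_univ, mul_one]
    · refine Eventually.of_forall fun q => ?_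
      refine approx μ (f := fun J => Th N g δ R q.1 J q.2) ?_ (C := R)
        (fun J => Th_le hR _ _ _) (I := fun m => reg N m 0) (fun e => reg_exhaust hN e)
      exact (Th_meas hg hδ R).comp (f := fun J : E → ℝ => (q.1, (J, q.2))) (by fun_prop)
  simpa using h2

/-- summing over the blocks -/
lemma tele {N : ℕ} (hN : 1 ≤ N) (hμ : Integrable (fun x : ℝ => x) μ) {g : Ω → (E → ℝ) → ℝ}
    (hg : Til μ N g) (hδ : Coc μ Q τ δ) {R t h : ℝ} (hR : 0 ≤ R) (ht : 0 < t) (h0 : 0 ≤ h)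
    (h1 : h ≤ 1) (m n : ℕ) {K : Finset V} (hK : K ⊆ pos n) :
    h * K.card * (-∫ p, g p.1.1 p.2.1 * δ (blk N 0) p.1.1 p.2.1 p.1.2 ∂(MM μ Q E) -
      (2 * WW μ Q N R + t / 2 * (1 + h ^ 2) ^ (n ^ 2) + R / t * HH μ Q N g δ R m +
        ((1 + h) ^ ((2 * m + 1) ^ 2) - 1) * R)) ≤
    -∫ p, ZZ h (tG τ N g) K p.1.1 p.2.1 * δ (FB (n * N)) p.1.1 p.2.1 p.1.2 ∂(MM μ Q E) +
      ∫ p, δ (FB (n * N)) p.1.1 p.2.1 p.1.2 ∂(MM μ Q E) := by
  classical
  set c := -∫ p, g p.1.1 p.2.1 * δ (blk N 0) p.1.1 p.2.1 p.1.2 ∂(MM μ Q E) with hc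
  have hP := hg.pert hN hδ.tau
  induction K using Finset.induction_on with
  | empty =>
    simp only [Finset.card_empty, Nat.cast_zero, mul_zero, zero_mul, ZZ, Zf, Finset.prod_empty,
      one_mul]
    linarith
  | insert k K hk ih =>
    have hK' : K ⊆ pos n := (Finset.subset_insert k K).trans hK
    have hkn : k ∈ pos n := hK (Finset.mem_insert_self k K)
    have ih' := ih hK'
    have e1 := est hN hμ hg hδ hR ht h0 h1 m hk (blk_sub_FB (mem_pos.1 hkn))
    rw [← hc] at e1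
    have hcard : K.card ≤ n ^ 2 := (Finset.card_le_card hK').trans (card_pos n).le
    have e2 : (1 + h ^ 2) ^ K.card ≤ (1 + h ^ 2) ^ (n ^ 2) :=
      pow_le_pow_right₀ (by nlinarith) hcard
    have hZm : Measurable fun p : (Ω × (E → ℝ)) × ((E → ℝ) × (E → ℝ)) =>
        ZZ h (tG τ N g) K p.1.1 p.2.1 := (ZZ_meas hP h K).comp
          (f := fun p : (Ω × (E → ℝ)) × ((E → ℝ) × (E → ℝ)) => (p.1.1, p.2.1)) (by fun_prop)
    have hGm : Measurable fun p : (Ω × (E → ℝ)) × ((E → ℝ) × (E → ℝ)) =>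
        tG τ N g k p.1.1 p.2.1 := (hP.meas k).comp
          (f := fun p : (Ω × (E → ℝ)) × ((E → ℝ) × (E → ℝ)) => (p.1.1, p.2.1)) (by fun_prop)
    have hZb : ∀ ω J, |ZZ h (tG τ N g) K ω J| ≤ (1 + h) ^ K.card := fun ω J =>
      Zf_le h0 (fun k J => hP.le k _ J) _
    have hi1 : Integrable (fun p : (Ω × (E → ℝ)) × ((E → ℝ) × (E → ℝ)) =>
        ZZ h (tG τ N g) K p.1.1 p.2.1 * δ (FB (n * N)) p.1.1 p.2.1 p.1.2) (MM μ Q E) :=
      (hδ.intz hμ _).bdd_mul hZm.aestronglyMeasurable (c := (1 + h) ^ K.card)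
        (Eventually.of_forall fun p => by rw [Real.norm_eq_abs]; exact hZb _ _)
    have hi2 : Integrable (fun p : (Ω × (E → ℝ)) × ((E → ℝ) × (E → ℝ)) =>
        ZZ h (tG τ N g) K p.1.1 p.2.1 * tG τ N g k p.1.1 p.2.1 *
          δ (FB (n * N)) p.1.1 p.2.1 p.1.2) (MM μ Q E) :=
      (hδ.intz hμ _).bdd_mul (hZm.mul hGm).aestronglyMeasurable (c := (1 + h) ^ K.card)
        (Eventually.of_forall fun p => by
          rw [Real.norm_eq_abs, abs_mul]
          have := hZb p.1.1 p.2.1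
          have := hP.le k p.1.1 p.2.1
          nlinarith [abs_nonneg (ZZ h (tG τ N g) K p.1.1 p.2.1),
            abs_nonneg (tG τ N g k p.1.1 p.2.1)])
    have e3 : ∫ p, ZZ h (tG τ N g) (insert k K) p.1.1 p.2.1 *
        δ (FB (n * N)) p.1.1 p.2.1 p.1.2 ∂(MM μ Q E) =
        ∫ p, ZZ h (tG τ N g) K p.1.1 p.2.1 * δ (FB (n * N)) p.1.1 p.2.1 p.1.2 ∂(MM μ Q E) +
        h * ∫ p, ZZ h (tG τ N g) K p.1.1 p.2.1 * tG τ N g k p.1.1 p.2.1 *
          δ (FB (n * N)) p.1.1 p.2.1 p.1.2 ∂(MM μ Q E) := by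
      rw [← integral_const_mul, ← integral_add hi1 (hi2.const_mul h)]
      refine integral_congr_ae (Eventually.of_forall fun p => ?_)
      simp only
      have : ZZ h (tG τ N g) (insert k K) p.1.1 p.2.1 =
          (1 + h * tG τ N g k p.1.1 p.2.1) * ZZ h (tG τ N g) K p.1.1 p.2.1 := Zf_insert hk _
      rw [this]; ring
    rw [e3, Finset.card_insert_of_notMem hk]
    push_cast
    have e4 : t / 2 * (1 + h ^ 2) ^ K.card ≤ t / 2 * (1 + h ^ 2) ^ (n ^ 2) :=
      mul_le_mul_of_nonneg_left e2 (by linarith)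
    have e5 := mul_le_mul_of_nonneg_left e1 h0
    have e6 := mul_le_mul_of_nonneg_left e4 h0
    nlinarith

lemma upper {N : ℕ} (hN : 1 ≤ N) (hμ : Integrable (fun x : ℝ => x) μ) {g : Ω → (E → ℝ) → ℝ}
    (hg : Til μ N g) (hδ : Coc μ Q τ δ) {h : ℝ} (h0 : 0 ≤ h) (h1 : h ≤ 1) (n : ℕ)
    {K : Finset V} (hK : K ⊆ pos n) :
    |∫ p, ZZ h (tG τ N g) K p.1.1 p.2.1 * δ (FB (n * N)) p.1.1 p.2.1 p.1.2 ∂(MM μ Q E)| ≤
      16 * (n * N + 1) * ∫ x, |x| ∂μ := by
  classical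
  have hP := hg.pert hN hδ.tau
  have hZm : Measurable fun p : (Ω × (E → ℝ)) × ((E → ℝ) × (E → ℝ)) =>
      ZZ h (tG τ N g) K p.1.1 p.2.1 := (ZZ_meas hP h K).comp
        (f := fun p : (Ω × (E → ℝ)) × ((E → ℝ) × (E → ℝ)) => (p.1.1, p.2.1)) (by fun_prop)
  have hZb : ∀ ω J, |ZZ h (tG τ N g) K ω J| ≤ (1 + h) ^ K.card := fun ω J =>
    Zf_le h0 (fun k J => hP.le k _ J) _
  have hZ0 : ∀ ω J, 0 ≤ ZZ h (tG τ N g) K ω J := fun ω J =>
    Zf_nonneg h0 h1 (fun k J => hP.le k _ J) _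
  have hJi : ∀ e : E, Integrable (fun p : (Ω × (E → ℝ)) × ((E → ℝ) × (E → ℝ)) => |p.2.1 e|)
      (MM μ Q E) := by
    intro e
    have h2 : Integrable (fun r : (E → ℝ) × (E → ℝ) => r.1 e)
        ((infinitePi fun _ : E => μ).prod (infinitePi fun _ : E => μ)) :=
      (eval_int μ hμ e).comp_fst _
    exact (h2.abs).comp_snd _
  have hZi : ∀ e : E, Integrable (fun p : (Ω × (E → ℝ)) × ((E → ℝ) × (E → ℝ)) =>
      ZZ h (tG τ N g) K p.1.1 p.2.1 * |p.2.1 e|) (MM μ Q E) := fun e =>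
    (hJi e).bdd_mul hZm.aestronglyMeasurable (c := (1 + h) ^ K.card)
      (Eventually.of_forall fun p => by rw [Real.norm_eq_abs]; exact hZb _ _)
  have hval : ∀ e ∈ DB (n * N), ∫ p, ZZ h (tG τ N g) K p.1.1 p.2.1 * |p.2.1 e| ∂(MM μ Q E) =
      ∫ x, |x| ∂μ := by
    intro e he
    have e1 : ∫ p, ZZ h (tG τ N g) K p.1.1 p.2.1 * |p.2.1 e| ∂(MM μ Q E) =
        ∫ _p : (Ω × (E → ℝ)) × ((E → ℝ) × (E → ℝ)), (∫ x, |x| ∂μ) ∂(MM μ Q E) := by
      refine MM_congr μ Q (hZi e) (integrable_const _) fun q => ?_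
      simp only
      rw [int_fst μ (fun J => ZZ h (tG τ N g) K q.1 J * |J e|)]
      have hd : Dep ({e} : Set E)ᶜ (ZZ h (tG τ N g) K q.1) := Zf_dep (fun j => hP.dep j _)
        fun j hj e' he' => by
          intro hc
          rw [Set.mem_singleton_iff] at hc
          subst hc
          exact DB_not_blk (mem_pos.1 (hK hj)) he (Finset.mem_coe.1 he')
      have hd' : Dep ({e} : Set E) (fun J : E → ℝ => |J e|) := fun J J' hJ => by
        simp only [hJ e rfl]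
      have h3 := indep_int μ hd hd'
      have h5 : ∫ x, ZZ h (tG τ N g) K q.1 x ∂(infinitePi fun _ : E => μ) = 1 :=
        Zf_mean μ hP.disj (fun k => hP.dep k q.1) (fun k => hP.meas' _ k)
          (fun k J => hP.le k _ J) h0 (fun k => hP.mean k _) K
      have h6 : ∫ J : E → ℝ, |J e| ∂(infinitePi fun _ : E => μ) = ∫ x, |x| ∂μ := by
        have h7 := (measurePreserving_eval_infinitePi (fun _ : E => μ) e)
        have h8 := integral_map (μ := infinitePi fun _ : E => μ) (φ := Function.eval e)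
          h7.measurable.aemeasurable (f := fun x : ℝ => |x|)
          (continuous_abs.measurable.aestronglyMeasurable)
        rw [h7.map_eq] at h8
        exact h8.symm
      rw [h3, h5, one_mul, h6, integral_const, probReal_univ, one_smul]
    rw [e1, integral_const, probReal_univ, one_smul]
  have hb : ∀ᵐ p ∂(MM μ Q E), |δ (FB (n * N)) p.1.1 p.2.1 p.1.2| ≤
      4 * ∑ e ∈ DB (n * N), |p.2.1 e| :=
    (rZ_law μ Q).quasiMeasurePreserving.ae (hδ.bdry (n * N))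
  have hi1 : Integrable (fun p : (Ω × (E → ℝ)) × ((E → ℝ) × (E → ℝ)) =>
      ZZ h (tG τ N g) K p.1.1 p.2.1 * δ (FB (n * N)) p.1.1 p.2.1 p.1.2) (MM μ Q E) :=
    (hδ.intz hμ _).bdd_mul hZm.aestronglyMeasurable (c := (1 + h) ^ K.card)
      (Eventually.of_forall fun p => by rw [Real.norm_eq_abs]; exact hZb _ _)
  refine (abs_integral_le_integral_abs).trans ?_
  have h2 : ∫ p, |ZZ h (tG τ N g) K p.1.1 p.2.1 * δ (FB (n * N)) p.1.1 p.2.1 p.1.2|
      ∂(MM μ Q E) ≤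
      ∫ p, 4 * ∑ e ∈ DB (n * N), ZZ h (tG τ N g) K p.1.1 p.2.1 * |p.2.1 e| ∂(MM μ Q E) := by
    refine integral_mono_ae hi1.abs ((integrable_finsetSum _ fun e _ => hZi e).const_mul 4) ?_
    filter_upwards [hb] with p hp
    rw [abs_mul, abs_of_nonneg (hZ0 _ _), ← Finset.mul_sum]
    have := mul_le_mul_of_nonneg_left hp (hZ0 p.1.1 p.2.1)
    linarith
  refine h2.trans ?_
  rw [integral_const_mul, integral_finsetSum _ fun e _ => hZi e,
    Finset.sum_congr rfl hval, Finset.sum_const, nsmul_eq_mul]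
  have h3 : ((DB (n * N)).card : ℝ) ≤ 4 * (n * N + 1) := by
    have := card_DB (n * N)
    have h4 : ((DB (n * N)).card : ℝ) ≤ ((4 * (n * N + 1) : ℕ) : ℝ) := by exact_mod_cast this
    push_cast at h4
    exact h4
  have h4 : 0 ≤ ∫ x, |x| ∂μ := integral_nonneg fun _ => abs_nonneg _
  nlinarith

/-- The main estimate. -/
lemma core_le {N : ℕ} (hN : 1 ≤ N) (hμ : Integrable (fun x : ℝ => x) μ) {g : Ω → (E → ℝ) → ℝ}
    (hg : Til μ N g) (hδ : Coc μ Q τ δ) :
    -∫ p, g p.1.1 p.2.1 * δ (blk N 0) p.1.1 p.2.1 p.1.2 ∂(MM μ Q E) ≤ 0 := by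
  set c := -∫ p, g p.1.1 p.2.1 * δ (blk N 0) p.1.1 p.2.1 p.1.2 ∂(MM μ Q E) with hc
  set M := ∫ x, |x| ∂μ with hM
  have hM0 : 0 ≤ M := integral_nonneg fun _ => abs_nonneg _
  -- the bound for finite `n`
  have k1 : ∀ (H : ℕ) (R : ℕ) (t : ℝ), 1 ≤ H → 0 < t → ∀ m n : ℕ, H ≤ n →
      (H : ℝ) * (c - (2 * WW μ Q N R + t / 2 * Real.exp (H ^ 2) + R / t * HH μ Q N g δ R m +
        ((1 + (H : ℝ) / n) ^ ((2 * m + 1) ^ 2) - 1) * R)) ≤ 32 * (N + 1) * M := by
    intro H R t hH ht m n hn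
    have hn0 : 0 < n := by omega
    have hn0' : (0 : ℝ) < n := by exact_mod_cast hn0
    have hR : (0 : ℝ) ≤ R := Nat.cast_nonneg R
    have hh0 : (0 : ℝ) ≤ (H : ℝ) / n := by positivity
    have hh1 : (H : ℝ) / n ≤ 1 := by
      rw [div_le_one hn0']; exact_mod_cast hn
    have e1 := tele hN hμ hg hδ hR ht hh0 hh1 m n (K := pos n) le_rfl
    rw [← hc] at e1
    have e2 := upper hN hμ hg hδ hh0 hh1 n (K := pos n) le_rfl
    have e3 := upper hN hμ hg hδ hh0 hh1 n (K := ∅) (Finset.empty_subset _)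
    simp only [ZZ, Zf, Finset.prod_empty, one_mul] at e3
    have e2' := (abs_le.1 e2).1
    have e3' := (abs_le.1 e3).2
    have e4 : (1 + ((H : ℝ) / n) ^ 2) ^ (n ^ 2) ≤ Real.exp (H ^ 2) := by
      have h1 : 1 + ((H : ℝ) / n) ^ 2 ≤ Real.exp (((H : ℝ) / n) ^ 2) := by
        have := Real.add_one_le_exp (((H : ℝ) / n) ^ 2)
        linarith
      have h2 : (1 + ((H : ℝ) / n) ^ 2) ^ (n ^ 2) ≤ Real.exp (((H : ℝ) / n) ^ 2) ^ (n ^ 2) :=
        pow_le_pow_left₀ (by positivity) h1 _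
      refine h2.trans ?_
      rw [← Real.exp_nat_mul]
      refine Real.exp_le_exp.2 ?_
      push_cast
      rw [div_pow]
      field_simp
      exact le_rfl
    have e5 : t / 2 * (1 + ((H : ℝ) / n) ^ 2) ^ (n ^ 2) ≤ t / 2 * Real.exp (H ^ 2) :=
      mul_le_mul_of_nonneg_left e4 (by linarith)
    rw [card_pos] at e1
    push_cast at e1
    set X := c - (2 * WW μ Q N R + t / 2 * Real.exp (H ^ 2) + R / t * HH μ Q N g δ R m +
        ((1 + (H : ℝ) / n) ^ ((2 * m + 1) ^ 2) - 1) * R) with hX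
    have e6 : (H : ℝ) / n * (n : ℝ) ^ 2 * X ≤ 32 * (n * N + 1) * M := by
      have h1 : (H : ℝ) / n * (n : ℝ) ^ 2 * X ≤ (H : ℝ) / n * (n : ℝ) ^ 2 *
          (c - (2 * WW μ Q N R + t / 2 * (1 + ((H : ℝ) / n) ^ 2) ^ (n ^ 2) +
            R / t * HH μ Q N g δ R m +
            ((1 + (H : ℝ) / n) ^ ((2 * m + 1) ^ 2) - 1) * R)) :=
        mul_le_mul_of_nonneg_left (by rw [hX]; linarith) (by positivity)
      linarith
    have e7 : (H : ℝ) / n * (n : ℝ) ^ 2 * X = n * (H * X) := by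
      field_simp
    rw [e7] at e6
    have e8 : 32 * ((n : ℝ) * N + 1) * M ≤ n * (32 * (N + 1) * M) := by
      have h1 : (1 : ℝ) ≤ n := by exact_mod_cast hn0
      nlinarith
    exact le_of_mul_le_mul_left (e6.trans e8) hn0'
  -- n → ∞
  have k2 : ∀ (H : ℕ) (R : ℕ) (t : ℝ), 1 ≤ H → 0 < t → ∀ m : ℕ,
      (H : ℝ) * (c - (2 * WW μ Q N R + t / 2 * Real.exp (H ^ 2) + R / t * HH μ Q N g δ R m +
        ((1 + (0 : ℝ)) ^ ((2 * m + 1) ^ 2) - 1) * R)) ≤ 32 * (N + 1) * M := by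
    intro H R t hH ht m
    have h1 : Tendsto (fun n : ℕ => (H : ℝ) / n) atTop (𝓝 0) :=
      tendsto_const_div_atTop_nhds_zero_nat _
    have h2 : Tendsto (fun n : ℕ => (H : ℝ) * (c - (2 * WW μ Q N R +
        t / 2 * Real.exp (H ^ 2) + R / t * HH μ Q N g δ R m +
        ((1 + (H : ℝ) / n) ^ ((2 * m + 1) ^ 2) - 1) * R))) atTop
        (𝓝 ((H : ℝ) * (c - (2 * WW μ Q N R + t / 2 * Real.exp (H ^ 2) +
          R / t * HH μ Q N g δ R m + ((1 + (0 : ℝ)) ^ ((2 * m + 1) ^ 2) - 1) * R)))) := by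
      refine tendsto_const_nhds.mul (tendsto_const_nhds.sub (tendsto_const_nhds.add ?_))
      exact (((tendsto_const_nhds.add h1).pow _).sub tendsto_const_nhds).mul tendsto_const_nhds
    refine le_of_tendsto h2 ?_
    filter_upwards [eventually_ge_atTop H] with n hn
    exact k1 H R t hH ht m n hn
  -- m → ∞
  have k3 : ∀ (H : ℕ) (R : ℕ) (t : ℝ), 1 ≤ H → 0 < t →
      (H : ℝ) * (c - (2 * WW μ Q N R + t / 2 * Real.exp (H ^ 2) + R / t * 0)) ≤
        32 * (N + 1) * M := by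
    intro H R t hH ht
    have h1 := HH_tendsto hN hg hδ (R := (R : ℝ)) (Nat.cast_nonneg R)
    have h2 : Tendsto (fun m : ℕ => (H : ℝ) * (c - (2 * WW μ Q N R +
        t / 2 * Real.exp (H ^ 2) + R / t * HH μ Q N g δ R m))) atTop
        (𝓝 ((H : ℝ) * (c - (2 * WW μ Q N R + t / 2 * Real.exp (H ^ 2) + R / t * 0)))) := by
      refine tendsto_const_nhds.mul (tendsto_const_nhds.sub (tendsto_const_nhds.add ?_))
      exact tendsto_const_nhds.mul h1
    refine le_of_tendsto h2 (Eventually.of_forall fun m => ?_)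
    have := k2 H R t hH ht m
    rw [add_zero, one_pow, sub_self, zero_mul, add_zero] at this
    exact this
  -- t → 0
  have k4 : ∀ (H : ℕ) (R : ℕ), 1 ≤ H →
      (H : ℝ) * (c - (2 * WW μ Q N R + 0 / 2 * Real.exp (H ^ 2))) ≤ 32 * (N + 1) * M := by
    intro H R hH
    have h1 : Tendsto (fun t : ℝ => t) (𝓝[>] 0) (𝓝 0) := nhdsWithin_le_nhds
    have h2 : Tendsto (fun t : ℝ => (H : ℝ) * (c - (2 * WW μ Q N R +
        t / 2 * Real.exp (H ^ 2)))) (𝓝[>] 0)
        (𝓝 ((H : ℝ) * (c - (2 * WW μ Q N R + 0 / 2 * Real.exp (H ^ 2))))) := by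
      refine tendsto_const_nhds.mul (tendsto_const_nhds.sub (tendsto_const_nhds.add ?_))
      exact (h1.div_const 2).mul tendsto_const_nhds
    refine le_of_tendsto h2 ?_
    filter_upwards [self_mem_nhdsWithin] with t ht
    have := k3 H R t hH ht
    rw [mul_zero, add_zero] at this
    exact this
  -- R → ∞
  have k5 : ∀ H : ℕ, 1 ≤ H → (H : ℝ) * c ≤ 32 * (N + 1) * M := by
    intro H hH
    have h1 := WW_tendsto (Q := Q) hμ N
    have h2 : Tendsto (fun R : ℕ => (H : ℝ) * (c - 2 * WW μ Q N R)) atTop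
        (𝓝 ((H : ℝ) * (c - 2 * 0))) :=
      tendsto_const_nhds.mul (tendsto_const_nhds.sub (tendsto_const_nhds.mul h1))
    rw [mul_zero, sub_zero] at h2
    refine le_of_tendsto h2 (Eventually.of_forall fun R => ?_)
    have := k4 H R hH
    rw [zero_div, zero_mul, add_zero] at this
    exact this
  by_contra hcon
  push Not at hcon
  obtain ⟨H, hH⟩ := exists_nat_gt (32 * (N + 1) * M / c)
  rw [div_lt_iff₀ hcon] at hH
  have hH1 : 1 ≤ H := by
    by_contra h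
    have h0 : H = 0 := by omega
    rw [h0] at hH
    have : 0 ≤ 32 * ((N : ℝ) + 1) * M := by positivity
    simp at hH
    linarith
  exact absurd (k5 H hH1) (not_le.2 hH)

lemma Til.neg {N : ℕ} {g : Ω → (E → ℝ) → ℝ} (hg : Til μ N g) :
    Til μ N (fun ω J => -g ω J) := by
  refine ⟨fun ω J J' hJ => ?_, hg.meas.neg, fun ω J => ?_, fun ω => ?_⟩
  · rw [hg.dep ω J J' hJ]
  · rw [abs_neg]
    exact hg.le ω J
  · rw [integral_neg, hg.mean, neg_zero]

/-- **The conditional expectation given the couplings in a block is constant.** -/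
lemma core {N : ℕ} (hN : 1 ≤ N) (hμ : Integrable (fun x : ℝ => x) μ) {g : Ω → (E → ℝ) → ℝ}
    (hg : Til μ N g) (hδ : Coc μ Q τ δ) :
    ∫ p, g p.1.1 p.2.1 * δ (blk N 0) p.1.1 p.2.1 p.1.2 ∂(MM μ Q E) = 0 := by
  have h1 := core_le hN hμ hg hδ
  have h2 := core_le hN hμ hg.neg hδ
  simp only [neg_mul, integral_neg, neg_neg] at h2
  linarith

end

end Pool.Agent.K3h93.EA
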