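import Pool.Agent.K3h93.EA.Lat

/-!
# Energies of ground states when finitely many couplings are changed
-/

set_option autoImplicit false

namespace Pool.Agent.K3h93.EA

/-- the product of the spins at the ends of a bond -/
def bp (σ : V → ℝ) (e : E) : ℝ := σ e.1 * σ (e.1 + (Pi.single e.2 (1 : ℤ) : V))

/-- spin configurations -/
def Spin (σ : V → ℝ) : Prop := ∀ x, σ x = 1 ∨ σ x = -1

/-- `ρ` and `σ` differ at finitely many sites of `A` only -/
def Sim (A : Set V) (σ ρ : V → ℝ) : Prop := {x | ρ x ≠ σ x}.Finite ∧ ∀ x, ρ x ≠ σ x → x ∈ A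

/-- the energy of `ρ` minus the energy of `σ` -/
noncomputable def WD (J : E → ℝ) (σ ρ : V → ℝ) : ℝ := ∑ᶠ e, J e * (bp σ e - bp ρ e)

/-- ground states with respect to changes in `A` -/
def GS (A : Set V) (J : E → ℝ) (σ : V → ℝ) : Prop :=
  Spin σ ∧ ∀ ρ, Spin ρ → Sim A σ ρ → 0 ≤ WD J σ ρ

lemma bp_neg (σ : V → ℝ) (e : E) : bp (-σ) e = bp σ e := by
  unfold bp; simp

lemma Spin.neg {σ : V → ℝ} (h : Spin σ) : Spin (-σ) := by
  intro x
  rcases h x with h | h
  · right; simp [h]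
  · left; simp [h]

lemma Spin.bp_abs {σ : V → ℝ} (h : Spin σ) (e : E) : |bp σ e| = 1 := by
  unfold bp
  rcases h e.1 with h1 | h1 <;> rcases h (e.1 + (Pi.single e.2 (1 : ℤ) : V)) with h2 | h2 <;>
    rw [h1, h2] <;> norm_num

lemma Spin.bp_cases {σ : V → ℝ} (h : Spin σ) (e : E) : bp σ e = 1 ∨ bp σ e = -1 := by
  unfold bp
  rcases h e.1 with h1 | h1 <;> rcases h (e.1 + (Pi.single e.2 (1 : ℤ) : V)) with h2 | h2 <;>
    rw [h1, h2] <;> norm_num

lemma Sim.symm {A : Set V} {σ ρ : V → ℝ} (h : Sim A σ ρ) : Sim A ρ σ := by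
  refine ⟨h.1.subset fun x hx => ?_, fun x hx => h.2 x fun he => hx he.symm⟩
  exact fun he => hx he.symm

lemma Sim.trans {A : Set V} {σ ρ θ : V → ℝ} (h : Sim A σ ρ) (h' : Sim A ρ θ) : Sim A σ θ := by
  refine ⟨(h.1.union h'.1).subset fun x hx => ?_, fun x hx => ?_⟩
  · by_cases h1 : ρ x = σ x
    · right
      intro h2
      exact hx (h2.trans h1)
    · left; exact h1
  · by_cases h1 : ρ x = σ x
    · exact h'.2 x fun h2 => hx (h2.trans h1)
    · exact h.2 x h1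

lemma WD_neg_left (J : E → ℝ) (σ ρ : V → ℝ) : WD J (-σ) ρ = WD J σ ρ := by
  unfold WD; simp only [bp_neg]

lemma WD_neg_right (J : E → ℝ) (σ ρ : V → ℝ) : WD J σ (-ρ) = WD J σ ρ := by
  unfold WD; simp only [bp_neg]

lemma GS.neg {A : Set V} {J : E → ℝ} {σ : V → ℝ} (h : GS A J σ) : GS A J (-σ) := by
  refine ⟨h.1.neg, fun ρ hρ hs => ?_⟩
  rw [WD_neg_left, ← WD_neg_right]
  refine h.2 _ hρ.neg ⟨hs.1.subset fun x hx => ?_, fun x hx => hs.2 x ?_⟩
  · intro h1
    apply hx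
    simp only [Pi.neg_apply] at h1 ⊢
    rw [h1, neg_neg]
  · intro h1
    apply hx
    simp only [Pi.neg_apply] at h1 ⊢
    rw [h1, neg_neg]

lemma supp_bp {σ ρ : V → ℝ} (h : {x | ρ x ≠ σ x}.Finite) : {e : E | bp σ e ≠ bp ρ e}.Finite := by
  have h2 : {e : E | bp σ e ≠ bp ρ e} ⊆ ({x | ρ x ≠ σ x} ×ˢ Set.univ) ∪
      ((fun e : E => ((e.1 - (Pi.single e.2 (1 : ℤ) : V), e.2) : E)) ''
        ({x | ρ x ≠ σ x} ×ˢ Set.univ)) := by
    intro e he
    by_cases h3 : ρ e.1 = σ e.1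
    · right
      refine ⟨(e.1 + (Pi.single e.2 (1 : ℤ) : V), e.2), ⟨?_, trivial⟩, ?_⟩
      · intro h4
        apply he
        unfold bp
        simp only at h4
        rw [h3, h4]
      · simp
    · left
      exact ⟨h3, trivial⟩
  exact ((h.prod Set.finite_univ).union ((h.prod Set.finite_univ).image _)).subset h2

lemma supp_WD {J : E → ℝ} {σ ρ : V → ℝ} (h : {x | ρ x ≠ σ x}.Finite) :
    (Function.support fun e => J e * (bp σ e - bp ρ e)).Finite := by
  refine (supp_bp h).subset fun e he => ?_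
  intro h1
  apply he
  simp only [h1, sub_self, mul_zero]

lemma WD_trans {A : Set V} {J : E → ℝ} {σ ρ θ : V → ℝ} (h : Sim A σ ρ) (h' : Sim A ρ θ) :
    WD J σ θ = WD J σ ρ + WD J ρ θ := by
  unfold WD
  rw [← finsum_add_distrib (supp_WD h.1) (supp_WD h'.1)]
  refine finsum_congr fun e => ?_
  ring

lemma WD_symm (J : E → ℝ) (σ ρ : V → ℝ) : WD J σ ρ = -WD J ρ σ := by
  unfold WD
  rw [← finsum_neg_distrib]
  refine finsum_congr fun e => ?_
  ring

/-- the energy at `J'` minus the energy at `J` -/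
noncomputable def DD (J J' : E → ℝ) (σ σ' : V → ℝ) : ℝ :=
  ∑ᶠ e, (J e * bp σ e - J' e * bp σ' e)

lemma supp_DD {F : Finset E} {J J' : E → ℝ} {σ σ' : V → ℝ} (hF : ∀ e, e ∉ F → J' e = J e)
    (h : {x | σ' x ≠ σ x}.Finite) :
    (Function.support fun e => J e * bp σ e - J' e * bp σ' e).Finite := by
  refine ((supp_bp h).union F.finite_toSet).subset fun e he => ?_
  by_contra hcon
  rw [Set.mem_union, not_or] at hcon
  apply he
  have h1 : bp σ e = bp σ' e := by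
    by_contra h2; exact hcon.1 h2
  have h2 : e ∉ F := fun h3 => hcon.2 (Finset.mem_coe.2 h3)
  simp only
  rw [h1, hF e h2, sub_self]

lemma finsum_F {F : Finset E} {f : E → ℝ} (hf : ∀ e, e ∉ F → f e = 0) :
    ∑ᶠ e, f e = ∑ e ∈ F, f e :=
  finsum_eq_sum_of_support_subset _ fun e he => by
    by_contra h
    exact he (hf e fun h' => h (Finset.mem_coe.2 h'))

lemma DD_eq1 {F : Finset E} {J J' : E → ℝ} {σ σ' : V → ℝ} (hF : ∀ e, e ∉ F → J' e = J e)
    (h : {x | σ' x ≠ σ x}.Finite) :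
    DD J J' σ σ' = ∑ e ∈ F, (J e - J' e) * bp σ e - WD J' σ' σ := by
  have h' : {x | σ x ≠ σ' x}.Finite := h.subset fun x hx he => hx he.symm
  have h1 : ∑ᶠ e, ((J e - J' e) * bp σ e) = ∑ e ∈ F, (J e - J' e) * bp σ e :=
    finsum_F fun e he => by rw [hF e he, sub_self, zero_mul]
  rw [← h1]
  unfold DD WD
  rw [← finsum_sub_distrib]
  · refine finsum_congr fun e => ?_
    ring
  · refine F.finite_toSet.subset fun e he => ?_
    by_contra h2
    apply he
    simp only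
    rw [hF e fun h3 => h2 (Finset.mem_coe.2 h3), sub_self, zero_mul]
  · exact supp_WD h'

lemma DD_eq2 {F : Finset E} {J J' : E → ℝ} {σ σ' : V → ℝ} (hF : ∀ e, e ∉ F → J' e = J e)
    (h : {x | σ' x ≠ σ x}.Finite) :
    DD J J' σ σ' = ∑ e ∈ F, (J e - J' e) * bp σ' e + WD J σ σ' := by
  have h1 : ∑ᶠ e, ((J e - J' e) * bp σ' e) = ∑ e ∈ F, (J e - J' e) * bp σ' e :=
    finsum_F fun e he => by rw [hF e he, sub_self, zero_mul]
  rw [← h1]
  unfold DD WD
  rw [← finsum_add_distrib]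
  · refine finsum_congr fun e => ?_
    ring
  · refine F.finite_toSet.subset fun e he => ?_
    by_contra h2
    apply he
    simp only
    rw [hF e fun h3 => h2 (Finset.mem_coe.2 h3), sub_self, zero_mul]
  · exact supp_WD h

lemma DD_neg (J J' : E → ℝ) (σ σ' : V → ℝ) : DD J J' σ (-σ') = DD J J' σ σ' := by
  unfold DD; simp only [bp_neg]

/-- the relation up to a global flip -/
def SimF (A : Set V) (σ ρ : V → ℝ) : Prop := Sim A σ ρ ∨ Sim A σ (-ρ)

lemma SimF.symm {A : Set V} {σ ρ : V → ℝ} (h : SimF A σ ρ) : SimF A ρ σ := by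
  rcases h with h | h
  · exact Or.inl h.symm
  · right
    refine ⟨h.1.subset fun x hx he => hx ?_, fun x hx => h.2 x fun he => hx ?_⟩
    · simp only [Pi.neg_apply] at he ⊢
      rw [← he, neg_neg]
    · simp only [Pi.neg_apply] at he ⊢
      rw [← he, neg_neg]

/-- `D ≤ ∑_F (J σ - J' σ)` -/
lemma DD_upper {A : Set V} {F : Finset E} {J J' : E → ℝ} {σ σ' : V → ℝ}
    (hF : ∀ e, e ∉ F → J' e = J e) (hσ : Spin σ) (h : SimF A σ σ') (hg : GS A J' σ') :
    DD J J' σ σ' ≤ ∑ e ∈ F, (J e - J' e) * bp σ e := by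
  have key : ∀ θ : V → ℝ, Sim A σ θ → GS A J' θ → DD J J' σ θ ≤
      ∑ e ∈ F, (J e - J' e) * bp σ e := by
    intro θ hs hθ
    rw [DD_eq1 hF hs.1]
    have := hθ.2 σ hσ hs.symm
    linarith
  rcases h with h | h
  · exact key _ h hg
  · rw [← DD_neg]; exact key _ h hg.neg

lemma DD_lower {A : Set V} {F : Finset E} {J J' : E → ℝ} {σ σ' : V → ℝ}
    (hF : ∀ e, e ∉ F → J' e = J e) (hσ' : Spin σ') (h : SimF A σ σ') (hg : GS A J σ) :
    ∑ e ∈ F, (J e - J' e) * bp σ' e ≤ DD J J' σ σ' := by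
  have key : ∀ θ : V → ℝ, Spin θ → Sim A σ θ →
      ∑ e ∈ F, (J e - J' e) * bp θ e ≤ DD J J' σ θ := by
    intro θ hθ hs
    rw [DD_eq2 hF hs.1]
    have := hg.2 θ hθ hs
    linarith
  rcases h with h | h
  · exact key _ hσ' h
  · have := key _ hσ'.neg h
    simp only [bp_neg] at this
    rw [← DD_neg]; exact this

lemma DD_abs {A : Set V} {F : Finset E} {J J' : E → ℝ} {σ σ' : V → ℝ}
    (hF : ∀ e, e ∉ F → J' e = J e) (h : SimF A σ σ') (hg : GS A J σ) (hg' : GS A J' σ') :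
    |DD J J' σ σ'| ≤ ∑ e ∈ F, |J e - J' e| := by
  have h1 := DD_upper hF hg.1 h hg'
  have h2 := DD_lower hF hg'.1 h hg
  have h3 : ∀ θ : V → ℝ, Spin θ → |∑ e ∈ F, (J e - J' e) * bp θ e| ≤ ∑ e ∈ F, |J e - J' e| := by
    intro θ hθ
    refine (Finset.abs_sum_le_sum_abs _ _).trans (Finset.sum_le_sum fun e _ => ?_)
    rw [abs_mul, hθ.bp_abs, mul_one]
  have h4 := (abs_le.1 (h3 σ hg.1)).2
  have h5 := (abs_le.1 (h3 σ' hg'.1)).1
  rw [abs_le]
  constructor <;> linarith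

/-! ### Hybrids -/

/-- the box `[0, m] ^ 2` -/
def Bx (m : ℕ) : Set V := {x | ∀ i, 0 ≤ x i ∧ x i ≤ m}

open Classical in
/-- `s` in the box and `σ` outside -/
noncomputable def hyb (m : ℕ) (s σ : V → ℝ) : V → ℝ := fun x => if x ∈ Bx m then s x else σ x

lemma hyb_spin {m : ℕ} {s σ : V → ℝ} (hs : Spin s) (hσ : Spin σ) : Spin (hyb m s σ) := by
  intro x
  unfold hyb
  split_ifs
  · exact hs x
  · exact hσ x

lemma Bx_finite (m : ℕ) : (Bx m).Finite := by
  have h1 : Bx m ⊆ ((Fintype.piFinset fun _ : Fin 2 => Finset.Icc (0 : ℤ) m : Finset V) : Set V) := by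
    intro x hx
    rw [Finset.mem_coe, Fintype.mem_piFinset]
    exact fun i => Finset.mem_Icc.2 (hx i)
  exact (Finset.finite_toSet _).subset h1

lemma hyb_sim {A : Set V} {m : ℕ} (hA : Bx m ⊆ A) (s σ : V → ℝ) : Sim A σ (hyb m s σ) := by
  have h1 : ∀ x, hyb m s σ x ≠ σ x → x ∈ Bx m := by
    intro x hx
    by_contra h
    apply hx
    unfold hyb
    rw [if_neg h]
  exact ⟨(Bx_finite m).subset h1, fun x hx => hA (h1 x hx)⟩

lemma FB_iff {m : ℕ} {e : E} :
    e ∈ FB m ↔ e.1 ∈ Bx m ∧ (e.1 + (Pi.single e.2 (1 : ℤ) : V)) ∈ Bx m := by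
  rw [mem_FB]
  unfold Bx
  simp only [Set.mem_ofPred_eq, Pi.add_apply]
  constructor
  · rintro ⟨h1, h2⟩
    refine ⟨h1, fun i => ?_⟩
    by_cases h : i = e.2
    · subst h
      rw [Pi.single_eq_same]
      have := h1 e.2
      omega
    · rw [Pi.single_eq_of_ne h, add_zero]
      exact h1 i
  · rintro ⟨h1, h2⟩
    refine ⟨h1, ?_⟩
    have := (h2 e.2).2
    rwa [Pi.single_eq_same] at this

lemma DB_of {m : ℕ} {e : E} (h : ¬ (e.1 ∈ Bx m ↔ (e.1 + (Pi.single e.2 (1 : ℤ) : V)) ∈ Bx m)) :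
    e ∈ DB m := by
  have key : ∀ i, i ≠ e.2 → (e.1 + (Pi.single e.2 (1 : ℤ) : V)) i = e.1 i := by
    intro i hi
    rw [Pi.add_apply, Pi.single_eq_of_ne hi, add_zero]
  have key2 : (e.1 + (Pi.single e.2 (1 : ℤ) : V)) e.2 = e.1 e.2 + 1 := by
    rw [Pi.add_apply, Pi.single_eq_same]
  by_cases h1 : e.1 ∈ Bx m
  · have h2 : ¬ (e.1 + (Pi.single e.2 (1 : ℤ) : V)) ∈ Bx m := fun h3 => h ⟨fun _ => h3, fun _ => h1⟩
    refine mem_DB' (fun i _ => h1 i) (Or.inl ?_)
    by_contra h3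
    apply h2
    intro i
    by_cases hi : i = e.2
    · subst hi
      rw [key2]
      have := h1 e.2
      omega
    · rw [key i hi]; exact h1 i
  · have h2 : (e.1 + (Pi.single e.2 (1 : ℤ) : V)) ∈ Bx m := by
      by_contra h3
      exact h ⟨fun h4 => absurd h4 h1, fun h4 => absurd h4 h3⟩
    refine mem_DB' (fun i hi => ?_) (Or.inr ?_)
    · have := h2 i
      rwa [key i hi] at this
    · by_contra h3
      apply h1
      intro i
      by_cases hi : i = e.2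
      · subst hi
        have := h2 e.2
        rw [key2] at this
        omega
      · have := h2 i
        rwa [key i hi] at this

lemma FB_disj (m : ℕ) : Disjoint (FB m) (DB m) := by
  rw [Finset.disjoint_left]
  intro e h1 h2
  rw [mem_FB] at h1
  rcases mem_DB h2 with h | h
  · have := h1.2; omega
  · have := (h1.1 e.2).1; omega

lemma WD_hyb {m : ℕ} {J J' : E → ℝ} (hF : ∀ e, e ∉ FB m → J' e = J e) {s σ : V → ℝ}
    (hs : Spin s) (hσ : Spin σ) :
    ∑ e ∈ FB m, J' e * (bp s e - bp σ e) - 2 * ∑ e ∈ DB m, |J e| ≤ WD J' (hyb m s σ) σ := by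
  classical
  unfold WD
  rw [finsum_F (F := FB m ∪ DB m) fun e he => ?_, Finset.sum_union (FB_disj m)]
  · have h1 : ∑ e ∈ FB m, J' e * (bp (hyb m s σ) e - bp σ e) =
        ∑ e ∈ FB m, J' e * (bp s e - bp σ e) := by
      refine Finset.sum_congr rfl fun e he => ?_
      rw [FB_iff] at he
      have : bp (hyb m s σ) e = bp s e := by
        unfold bp hyb
        rw [if_pos he.1, if_pos he.2]
      rw [this]
    have h2 : -(2 * ∑ e ∈ DB m, |J e|) ≤ ∑ e ∈ DB m, J' e * (bp (hyb m s σ) e - bp σ e) := by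
      rw [Finset.mul_sum, ← Finset.sum_neg_distrib]
      refine Finset.sum_le_sum fun e he => ?_
      have h3 : J' e = J e := hF e fun h4 => Finset.disjoint_left.1 (FB_disj m) h4 he
      rw [h3]
      have h4 := (hyb_spin (m := m) hs hσ).bp_abs e
      have h5 := hσ.bp_abs e
      have h6 : |J e * (bp (hyb m s σ) e - bp σ e)| ≤ 2 * |J e| := by
        rw [abs_mul]
        have := abs_sub (bp (hyb m s σ) e) (bp σ e)
        nlinarith [abs_nonneg (J e)]
      have := (abs_le.1 h6).1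
      linarith
    linarith
  · rw [Finset.mem_union, not_or] at he
    have h1 : (e.1 ∈ Bx m ↔ (e.1 + (Pi.single e.2 (1 : ℤ) : V)) ∈ Bx m) := by
      by_contra h
      exact he.2 (DB_of h)
    have h2 : ¬ e.1 ∈ Bx m := fun h => he.1 (FB_iff.2 ⟨h, h1.1 h⟩)
    have h3 : ¬ (e.1 + (Pi.single e.2 (1 : ℤ) : V)) ∈ Bx m := fun h => h2 (h1.2 h)
    have : bp (hyb m s σ) e = bp σ e := by
      unfold bp hyb
      rw [if_neg h2, if_neg h3]
    rw [this, sub_self, mul_zero]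

lemma claimA {A : Set V} {m : ℕ} (hA : Bx m ⊆ A) {J J' : E → ℝ}
    (hF : ∀ e, e ∉ FB m → J' e = J e) {s σ σ' : V → ℝ} (hs : Spin s) (hσ : Spin σ)
    (h : SimF A σ σ') (hg : GS A J' σ') :
    DD J J' σ σ' ≤ ∑ e ∈ FB m, (J e * bp σ e - J' e * bp s e) + 2 * ∑ e ∈ DB m, |J e| := by
  have key : ∀ θ : V → ℝ, Sim A σ θ → GS A J' θ → DD J J' σ θ ≤
      ∑ e ∈ FB m, (J e * bp σ e - J' e * bp s e) + 2 * ∑ e ∈ DB m, |J e| := by
    intro θ hsim hθ
    have h0 := hyb_sim hA s σ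
    rw [DD_eq1 hF hsim.1, WD_trans (hsim.symm.trans h0) h0.symm]
    have h1 := hθ.2 _ (hyb_spin (m := m) hs hσ) (hsim.symm.trans h0)
    have h2 := WD_hyb hF hs hσ
    have h3 : ∑ e ∈ FB m, (J e * bp σ e - J' e * bp s e) =
        ∑ e ∈ FB m, (J e - J' e) * bp σ e - ∑ e ∈ FB m, J' e * (bp s e - bp σ e) := by
      rw [← Finset.sum_sub_distrib]
      refine Finset.sum_congr rfl fun e _ => ?_
      ring
    rw [h3]
    linarith
  rcases h with h | h
  · exact key _ h hg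
  · rw [← DD_neg]; exact key _ h hg.neg

lemma claimB {A : Set V} {m : ℕ} (hA : Bx m ⊆ A) {J J' : E → ℝ}
    (hF : ∀ e, e ∉ FB m → J' e = J e) {s σ σ' : V → ℝ} (hs : Spin s) (hσ' : Spin σ')
    (h : SimF A σ σ') (hg : GS A J σ) :
    ∑ e ∈ FB m, (J e * bp s e - J' e * bp σ' e) - 2 * ∑ e ∈ DB m, |J e| ≤ DD J J' σ σ' := by
  have key : ∀ θ : V → ℝ, Spin θ → Sim A σ θ →
      ∑ e ∈ FB m, (J e * bp s e - J' e * bp θ e) - 2 * ∑ e ∈ DB m, |J e| ≤ DD J J' σ θ := by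
    intro θ hθ hsim
    have h0 := hyb_sim hA s θ
    rw [DD_eq2 hF hsim.1, WD_trans (hsim.trans h0) h0.symm]
    have h1 := hg.2 _ (hyb_spin (m := m) hs hθ) (hsim.trans h0)
    have h2 := WD_hyb (J := J) (J' := J) (fun _ _ => rfl) (m := m) hs hθ
    have h3 : ∑ e ∈ FB m, (J e * bp s e - J' e * bp θ e) =
        ∑ e ∈ FB m, (J e - J' e) * bp θ e + ∑ e ∈ FB m, J e * (bp s e - bp θ e) := by
      rw [← Finset.sum_add_distrib]
      refine Finset.sum_congr rfl fun e _ => ?_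
      ring
    rw [h3]
    linarith
  rcases h with h | h
  · exact key _ hσ' h
  · have := key _ hσ'.neg h
    simp only [bp_neg] at this
    rw [← DD_neg]; exact this

/-- two families of ground states -/
lemma DD_diff {A A' : Set V} {m : ℕ} (hA : Bx m ⊆ A) (hA' : Bx m ⊆ A') {J J' : E → ℝ}
    (hF : ∀ e, e ∉ FB m → J' e = J e) {σ σ' θ θ' : V → ℝ}
    (h : SimF A σ σ') (hg : GS A J σ) (hg' : GS A J' σ')
    (k : SimF A' θ θ') (kg : GS A' J θ) (kg' : GS A' J' θ') :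
    |DD J J' σ σ' - DD J J' θ θ'| ≤ 4 * ∑ e ∈ DB m, |J e| := by
  have a1 := claimA hA hF kg'.1 hg.1 h hg'
  have a2 := claimB hA' hF hg.1 kg'.1 k kg
  have b1 := claimA hA' hF hg'.1 kg.1 k kg'
  have b2 := claimB hA hF kg.1 hg'.1 h hg
  rw [abs_le]
  constructor <;> linarith

end Pool.Agent.K3h93.EA
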