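import Pool.Agent.K3h93.EA.Lat

/-!
# The main estimate
-/

set_option autoImplicit false

open MeasureTheory Measure Filter Topology

namespace Pool.Agent.K3h93.EA

set_option linter.unusedSectionVars false

section

variable {Ω : Type*} [MeasurableSpace Ω] (μ : Measure ℝ) [IsProbabilityMeasure μ]
  (Q : Measure Ω) [IsProbabilityMeasure Q]

/-- a tilt of the couplings in the block `blk N 0` -/
structure Til (N : ℕ) (g : Ω → (E → ℝ) → ℝ) : Prop where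
  dep : ∀ ω, Dep (blk N 0 : Finset E) (g ω)
  meas : Measurable fun q : Ω × (E → ℝ) => g q.1 q.2
  le : ∀ ω J, |g ω J| ≤ 1
  mean : ∀ ω, ∫ x, g ω x ∂(infinitePi fun _ : E => μ) = 0

variable {τ : V → Ω → Ω} {δ : Finset E → Ω → (E → ℝ) → (E → ℝ) → ℝ}

/-- the translates of the tilt -/
def tG (τ : V → Ω → Ω) (N : ℕ) (g : Ω → (E → ℝ) → ℝ) (k : V) (ω : Ω) (J : E → ℝ) : ℝ :=
  g (τ (nk N k) ω) (sh (nk N k) J)

variable {μ Q}

lemma Til.pert {N : ℕ} (hN : 1 ≤ N) {g : Ω → (E → ℝ) → ℝ} (hg : Til μ N g)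
    (hτ : ∀ a, MeasurePreserving (τ a) Q Q) :
    Pert μ (fun k => ((blk N k : Finset E) : Set E)) (tG τ N g) := by
  refine ⟨blk_disj hN, ?_, ?_, fun k ω J => hg.le _ _, ?_⟩
  · intro k ω J J' hJ
    refine hg.dep _ _ _ fun e he => ?_
    rw [sh_apply, sh_apply]
    exact hJ _ ((blk_shift N k e).1 he)
  · intro k
    exact hg.meas.comp (((hτ _).measurable.comp measurable_fst).prodMk
      ((measurable_sh _).comp measurable_snd))
  · intro k ω
    have h1 := (sh_law μ (nk N k)).map_eq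
    have h2 : Measurable (g (τ (nk N k) ω)) :=
      hg.meas.comp (measurable_const.prodMk measurable_id)
    have h3 : ∫ x, g (τ (nk N k) ω) x ∂(infinitePi fun _ : E => μ) =
        ∫ x, g (τ (nk N k) ω) (sh (nk N k) x) ∂(infinitePi fun _ : E => μ) := by
      conv_lhs => rw [← h1]
      rw [integral_map (measurable_sh _).aemeasurable h2.aestronglyMeasurable]
    show ∫ x, g (τ (nk N k) ω) (sh (nk N k) x) ∂(infinitePi fun _ : E => μ) = 0
    rw [← h3]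
    exact hg.mean _

variable (μ Q)

/-- the Lipschitz bound -/
noncomputable def LL (F : Finset E) (J y : E → ℝ) : ℝ := 2 * ∑ e ∈ F, |J e - y e|

lemma LL_nonneg (F : Finset E) (J y : E → ℝ) : 0 ≤ LL F J y :=
  mul_nonneg (by norm_num) (Finset.sum_nonneg fun _ _ => abs_nonneg _)

lemma LL_meas (F : Finset E) : Measurable fun q : (E → ℝ) × (E → ℝ) => LL F q.1 q.2 := by
  unfold LL
  refine measurable_const.mul (Finset.measurable_sum _ fun e _ => ?_)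
  have h1 : Measurable fun q : (E → ℝ) × (E → ℝ) => q.1 e - q.2 e := by fun_prop
  exact h1.abs

lemma eval_int (hμ : Integrable (fun x : ℝ => x) μ) (e : E) :
    Integrable (fun J : E → ℝ => J e) (infinitePi fun _ : E => μ) :=
  (measurePreserving_eval_infinitePi (fun _ : E => μ) e).integrable_comp_of_integrable hμ

lemma LL_int (hμ : Integrable (fun x : ℝ => x) μ) (F : Finset E) :
    Integrable (fun p : (Ω × (E → ℝ)) × ((E → ℝ) × (E → ℝ)) => LL F p.2.1 p.2.2)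
      (MM μ Q E) := by
  unfold LL MM
  refine Integrable.const_mul (integrable_finsetSum _ fun e _ => ?_) 2
  have h1 : Integrable (fun r : (E → ℝ) × (E → ℝ) => r.1 e)
      ((infinitePi fun _ : E => μ).prod (infinitePi fun _ : E => μ)) :=
    (eval_int μ hμ e).comp_fst _
  have h2 : Integrable (fun r : (E → ℝ) × (E → ℝ) => r.2 e)
      ((infinitePi fun _ : E => μ).prod (infinitePi fun _ : E => μ)) :=
    (eval_int μ hμ e).comp_snd _
  exact ((h1.sub h2).abs).comp_snd _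

variable {μ Q}

lemma Coc.lipz (hδ : Coc μ Q τ δ) (F : Finset E) : ∀ᵐ p ∂(MM μ Q E),
    |δ F p.1.1 p.2.1 p.1.2| ≤ LL F p.2.1 p.1.2 :=
  (rZ_law μ Q).quasiMeasurePreserving.ae (hδ.lip F)

lemma Coc.measy (hδ : Coc μ Q τ δ) (F : Finset E) :
    Measurable fun p : (Ω × (E → ℝ)) × ((E → ℝ) × (E → ℝ)) => δ F p.1.1 p.2.1 p.2.2 :=
  (hδ.meas F).comp (f := fun p : (Ω × (E → ℝ)) × ((E → ℝ) × (E → ℝ)) => (p.1.1, p.2))
    (by fun_prop)

lemma Coc.measz (hδ : Coc μ Q τ δ) (F : Finset E) :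
    Measurable fun p : (Ω × (E → ℝ)) × ((E → ℝ) × (E → ℝ)) => δ F p.1.1 p.2.1 p.1.2 :=
  (hδ.meas F).comp (f := fun p : (Ω × (E → ℝ)) × ((E → ℝ) × (E → ℝ)) =>
    (p.1.1, (p.2.1, p.1.2))) (by fun_prop)

lemma Coc.inty (hμ : Integrable (fun x : ℝ => x) μ) (hδ : Coc μ Q τ δ) (F : Finset E) :
    Integrable (fun p : (Ω × (E → ℝ)) × ((E → ℝ) × (E → ℝ)) => δ F p.1.1 p.2.1 p.2.2)
      (MM μ Q E) := by
  refine (LL_int μ Q hμ F).mono' (hδ.measy F).aestronglyMeasurable ?_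
  filter_upwards [hδ.lip F] with p hp
  rw [Real.norm_eq_abs]
  exact hp

lemma Coc.intz (hμ : Integrable (fun x : ℝ => x) μ) (hδ : Coc μ Q τ δ) (F : Finset E) :
    Integrable (fun p : (Ω × (E → ℝ)) × ((E → ℝ) × (E → ℝ)) => δ F p.1.1 p.2.1 p.1.2)
      (MM μ Q E) :=
  (rZ_law μ Q).integrable_comp_of_integrable (hδ.inty hμ F)

/-- truncation -/
noncomputable def clp (R x : ℝ) : ℝ := max (-R) (min R x)

lemma clp_le {R x : ℝ} (hR : 0 ≤ R) : |clp R x| ≤ R := by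
  unfold clp
  rw [abs_le]
  constructor
  · exact le_max_left _ _
  · exact max_le (by linarith) (min_le_left _ _)

lemma clp_sub {R x L : ℝ} (hR : 0 ≤ R) (hx : |x| ≤ L) : |x - clp R x| ≤ max (L - R) 0 := by
  unfold clp
  rw [abs_le] at hx
  rcases le_total x (-R) with h | h
  · rw [min_eq_right (by linarith), max_eq_left h]
    rw [abs_of_nonpos (by linarith)]
    exact le_max_of_le_left (by linarith [hx.1])
  · rcases le_total x R with h' | h'
    · rw [min_eq_right h', max_eq_right h, sub_self, abs_zero]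
      exact le_max_right _ _
    · rw [min_eq_left h', max_eq_right (by linarith), abs_of_nonneg (by linarith)]
      exact le_max_of_le_left (by linarith [hx.2])

lemma clp_meas (R : ℝ) : Measurable (clp R) := by
  unfold clp
  exact measurable_const.max (measurable_const.min measurable_id)

variable (μ Q)

/-- the error of the truncation -/
noncomputable def WW (N : ℕ) (R : ℝ) : ℝ :=
  ∫ p : (Ω × (E → ℝ)) × ((E → ℝ) × (E → ℝ)), max (LL (blk N 0) p.2.1 p.2.2 - R) 0 ∂(MM μ Q E)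

/-- the local function -/
noncomputable def Th (N : ℕ) (g : Ω → (E → ℝ) → ℝ) (δ : Finset E → Ω → (E → ℝ) → (E → ℝ) → ℝ)
    (R : ℝ) (ω : Ω) (J z : E → ℝ) : ℝ := clp R (-(g ω J * δ (blk N 0) ω J z))

/-- the error of the local approximation -/
noncomputable def HH (N : ℕ) (g : Ω → (E → ℝ) → ℝ) (δ : Finset E → Ω → (E → ℝ) → (E → ℝ) → ℝ)
    (R : ℝ) (m : ℕ) : ℝ :=
  ∫ p : (Ω × (E → ℝ)) × ((E → ℝ) × (E → ℝ)), |Th N g δ R p.1.1 p.2.1 p.1.2 -
    Th N g δ R p.1.1 (patch (reg N m 0)ᶜ p.2.1 p.2.2) p.1.2| ∂(MM μ Q E)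

variable {μ Q}

lemma Th_meas {N : ℕ} {g : Ω → (E → ℝ) → ℝ} (hg : Til μ N g) (hδ : Coc μ Q τ δ) (R : ℝ) :
    Measurable fun q : Ω × ((E → ℝ) × (E → ℝ)) => Th N g δ R q.1 q.2.1 q.2.2 := by
  unfold Th
  have h1 : Measurable fun q : Ω × ((E → ℝ) × (E → ℝ)) => g q.1 q.2.1 :=
    hg.meas.comp (f := fun q : Ω × ((E → ℝ) × (E → ℝ)) => (q.1, q.2.1)) (by fun_prop)
  exact (clp_meas R).comp (h1.mul (hδ.meas _)).neg

lemma Th_le {N : ℕ} {g : Ω → (E → ℝ) → ℝ} {R : ℝ} (hR : 0 ≤ R) (ω : Ω) (J z : E → ℝ) :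
    |Th N g δ R ω J z| ≤ R := clp_le hR

/-- the translate of the local function -/
noncomputable def Tk (τ : V → Ω → Ω) (N : ℕ) (g : Ω → (E → ℝ) → ℝ)
    (δ : Finset E → Ω → (E → ℝ) → (E → ℝ) → ℝ)
    (R : ℝ) (k : V) (ω : Ω) (J z : E → ℝ) : ℝ :=
  Th N g δ R (τ (nk N k) ω) (sh (nk N k) J) (sh (nk N k) z)

lemma est {N : ℕ} (hN : 1 ≤ N) (hμ : Integrable (fun x : ℝ => x) μ) {g : Ω → (E → ℝ) → ℝ}
    (hg : Til μ N g) (hδ : Coc μ Q τ δ) {R t h : ℝ} (hR : 0 ≤ R) (ht : 0 < t) (h0 : 0 ≤ h)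
    (h1 : h ≤ 1) (m : ℕ) {K : Finset V} {k : V} (hk : k ∉ K) {F : Finset E}
    (hF : blk N k ⊆ F) :
    -∫ p, g p.1.1 p.2.1 * δ (blk N 0) p.1.1 p.2.1 p.1.2 ∂(MM μ Q E) -
      (2 * WW μ Q N R + t / 2 * (1 + h ^ 2) ^ K.card + R / t * HH μ Q N g δ R m +
        ((1 + h) ^ ((2 * m + 1) ^ 2) - 1) * R) ≤
    -∫ p, ZZ h (tG τ N g) K p.1.1 p.2.1 * tG τ N g k p.1.1 p.2.1 * δ F p.1.1 p.2.1 p.1.2
      ∂(MM μ Q E) := by
  classical
  have hP := hg.pert hN hδ.tau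
  have hZm : Measurable fun p : (Ω × (E → ℝ)) × ((E → ℝ) × (E → ℝ)) =>
      ZZ h (tG τ N g) K p.1.1 p.2.1 := (ZZ_meas hP h K).comp
        (f := fun p : (Ω × (E → ℝ)) × ((E → ℝ) × (E → ℝ)) => (p.1.1, p.2.1)) (by fun_prop)
  have hGm : Measurable fun p : (Ω × (E → ℝ)) × ((E → ℝ) × (E → ℝ)) =>
      tG τ N g k p.1.1 p.2.1 := (hP.meas k).comp
        (f := fun p : (Ω × (E → ℝ)) × ((E → ℝ) × (E → ℝ)) => (p.1.1, p.2.1)) (by fun_prop)
  have hGym : Measurable fun p : (Ω × (E → ℝ)) × ((E → ℝ) × (E → ℝ)) =>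
      tG τ N g k p.1.1 p.2.2 := (hP.meas k).comp
        (f := fun p : (Ω × (E → ℝ)) × ((E → ℝ) × (E → ℝ)) => (p.1.1, p.2.2)) (by fun_prop)
  have hgm : Measurable fun p : (Ω × (E → ℝ)) × ((E → ℝ) × (E → ℝ)) =>
      g p.1.1 p.2.1 := hg.meas.comp
        (f := fun p : (Ω × (E → ℝ)) × ((E → ℝ) × (E → ℝ)) => (p.1.1, p.2.1)) (by fun_prop)
  have hZb : ∀ ω J, |ZZ h (tG τ N g) K ω J| ≤ (1 + h) ^ K.card := fun ω J =>
    Zf_le h0 (fun k J => hP.le k _ J) _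
  have hZ0 : ∀ ω J, 0 ≤ ZZ h (tG τ N g) K ω J := fun ω J =>
    Zf_nonneg h0 h1 (fun k J => hP.le k _ J) _
  set C := (1 + h) ^ K.card with hC
  have hC0 : 0 ≤ C := by positivity
  -- products of bounded and integrable functions
  have hbi : ∀ {u f : (Ω × (E → ℝ)) × ((E → ℝ) × (E → ℝ)) → ℝ} {c : ℝ}, Measurable u →
      (∀ p, |u p| ≤ c) → Integrable f (MM μ Q E) →
      Integrable (fun p => u p * f p) (MM μ Q E) := fun {u f c} hu hc hf =>
    hf.bdd_mul hu.aestronglyMeasurable (c := c)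
      (Eventually.of_forall fun p => by rw [Real.norm_eq_abs]; exact hc p)
  have hu1 : Measurable fun p : (Ω × (E → ℝ)) × ((E → ℝ) × (E → ℝ)) =>
      ZZ h (tG τ N g) K p.1.1 p.2.1 * tG τ N g k p.1.1 p.2.1 := hZm.mul hGm
  have hu1b : ∀ p : (Ω × (E → ℝ)) × ((E → ℝ) × (E → ℝ)),
      |ZZ h (tG τ N g) K p.1.1 p.2.1 * tG τ N g k p.1.1 p.2.1| ≤ C := fun p => by
    rw [abs_mul]
    have := hZb p.1.1 p.2.1
    have := hP.le k p.1.1 p.2.1
    nlinarith [abs_nonneg (ZZ h (tG τ N g) K p.1.1 p.2.1), abs_nonneg (tG τ N g k p.1.1 p.2.1)]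
  -- step 1: the cocycle
  have s1 : ∫ p, ZZ h (tG τ N g) K p.1.1 p.2.1 * tG τ N g k p.1.1 p.2.1 *
      δ F p.1.1 p.2.1 p.1.2 ∂(MM μ Q E) =
      ∫ p, ZZ h (tG τ N g) K p.1.1 p.2.1 * tG τ N g k p.1.1 p.2.1 *
        δ (blk N k) p.1.1 p.2.1 p.2.2 ∂(MM μ Q E) +
      ∫ p, ZZ h (tG τ N g) K p.1.1 p.2.1 * tG τ N g k p.1.1 p.2.1 *
        δ F p.1.1 (patch (blk N k : Finset E) p.2.1 p.2.2) p.1.2 ∂(MM μ Q E) := by
    have i1 : Integrable (fun p : (Ω × (E → ℝ)) × ((E → ℝ) × (E → ℝ)) =>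
        δ F p.1.1 (patch (blk N k : Finset E) p.2.1 p.2.2) p.1.2) (MM μ Q E) :=
      (aS_law μ Q ((blk N k : Finset E) : Set E)).integrable_comp_of_integrable (hδ.intz hμ F)
    rw [← integral_add (hbi hu1 hu1b (hδ.inty hμ (blk N k))) (hbi hu1 hu1b i1)]
    refine integral_congr_ae ?_
    filter_upwards [hδ.coc (blk N k) F hF] with p hp
    rw [hp]; ring
  -- step 2: the second term vanishes
  have hZdep : ∀ ω, Dep ((blk N k : Finset E) : Set E)ᶜ (ZZ h (tG τ N g) K ω) := fun ω =>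
    Zf_dep (fun j => hP.dep j ω) fun j hj =>
      Set.subset_compl_iff_disjoint_right.2 (hP.disj (fun e => hk (e ▸ hj)))
  have s2 : ∫ p, ZZ h (tG τ N g) K p.1.1 p.2.1 * tG τ N g k p.1.1 p.2.1 *
        δ F p.1.1 (patch (blk N k : Finset E) p.2.1 p.2.2) p.1.2 ∂(MM μ Q E) = 0 := by
    have e1 : ∫ p, ZZ h (tG τ N g) K p.1.1 p.2.1 * tG τ N g k p.1.1 p.2.1 *
        δ F p.1.1 (patch (blk N k : Finset E) p.2.1 p.2.2) p.1.2 ∂(MM μ Q E) =
        ∫ p, ZZ h (tG τ N g) K p.1.1 p.2.1 * tG τ N g k p.1.1 p.2.2 *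
          δ F p.1.1 p.2.1 p.1.2 ∂(MM μ Q E) := by
      rw [← aS_int μ Q ((blk N k : Finset E) : Set E) (fun p =>
        ZZ h (tG τ N g) K p.1.1 p.2.1 * tG τ N g k p.1.1 p.2.2 * δ F p.1.1 p.2.1 p.1.2)]
      refine integral_congr_ae (Eventually.of_forall fun p => ?_)
      show _ = ZZ h (tG τ N g) K p.1.1 (patch _ p.2.1 p.2.2) *
        tG τ N g k p.1.1 (patch _ p.2.2 p.2.1) * δ F p.1.1 (patch _ p.2.1 p.2.2) p.1.2
      rw [(hZdep _).patch_out disjoint_compl_left, (hP.dep k _).patch_in le_rfl]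
    rw [e1]
    have i1 : Integrable (fun p : (Ω × (E → ℝ)) × ((E → ℝ) × (E → ℝ)) =>
        ZZ h (tG τ N g) K p.1.1 p.2.1 * tG τ N g k p.1.1 p.2.2 *
          δ F p.1.1 p.2.1 p.1.2) (MM μ Q E) :=
      hbi (c := C) (hZm.mul hGym) (fun p => by
        rw [abs_mul]
        have := hZb p.1.1 p.2.1
        have := hP.le k p.1.1 p.2.2
        nlinarith [abs_nonneg (ZZ h (tG τ N g) K p.1.1 p.2.1),
          abs_nonneg (tG τ N g k p.1.1 p.2.2)]) (hδ.intz hμ F)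
    have e2 := MM_congr μ Q (g := fun _ => (0 : ℝ)) i1 (integrable_zero _ _ _) fun q => by
      simp only [integral_zero]
      have e3 : ∀ r : (E → ℝ) × (E → ℝ), ZZ h (tG τ N g) K q.1 r.1 * tG τ N g k q.1 r.2 *
          δ F q.1 r.1 q.2 = (ZZ h (tG τ N g) K q.1 r.1 * δ F q.1 r.1 q.2) *
            tG τ N g k q.1 r.2 := fun r => by ring
      simp only [e3]
      rw [integral_prod_mul (fun J => ZZ h (tG τ N g) K q.1 J * δ F q.1 J q.2)
        (tG τ N g k q.1), hP.mean, mul_zero]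
    rw [e2, integral_zero]
  -- step 3: rename
  have s3 : ∫ p, ZZ h (tG τ N g) K p.1.1 p.2.1 * tG τ N g k p.1.1 p.2.1 *
        δ (blk N k) p.1.1 p.2.1 p.2.2 ∂(MM μ Q E) =
      ∫ p, ZZ h (tG τ N g) K p.1.1 p.2.1 * tG τ N g k p.1.1 p.2.1 *
        δ (blk N k) p.1.1 p.2.1 p.1.2 ∂(MM μ Q E) :=
    (rZ_int μ Q (fun p => ZZ h (tG τ N g) K p.1.1 p.2.1 * tG τ N g k p.1.1 p.2.1 *
        δ (blk N k) p.1.1 p.2.1 p.2.2)).symm
  -- the truncation errors
  set w : (Ω × (E → ℝ)) × ((E → ℝ) × (E → ℝ)) → ℝ := fun p =>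
    max (LL (blk N 0) p.2.1 p.2.2 - R) 0 with hw
  have hwm : Measurable w := by
    have h2 : Measurable fun p : (Ω × (E → ℝ)) × ((E → ℝ) × (E → ℝ)) =>
      LL (blk N 0) p.2.1 p.2.2 := (LL_meas (blk N 0)).comp measurable_snd
    exact (h2.sub measurable_const).max measurable_const
  have hwi : Integrable w (MM μ Q E) :=
    ((LL_int μ Q hμ (blk N 0)).sub (integrable_const R)).pos_part
  have hLsh : ∀ J z : E → ℝ, LL (blk N 0) (sh (nk N k) J) (sh (nk N k) z) = LL (blk N k) J z := by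
    intro J z
    unfold LL
    congr 1
    refine Finset.sum_bij (fun e _ => st (nk N k) e) (fun e he => (blk_shift N k e).1 he)
      (fun e _ e' _ h => st_inj _ h) (fun e he => ⟨st (-nk N k) e, ?_, st_surj _ e⟩)
      fun e _ => rfl
    rw [blk_shift N k, st_surj]
    exact he
  -- step 4
  have hψ : ∀ᵐ p ∂(MM μ Q E), -(tG τ N g k p.1.1 p.2.1 * δ (blk N k) p.1.1 p.2.1 p.1.2) =
      -(g (τ (nk N k) p.1.1) (sh (nk N k) p.2.1) *
        δ (blk N 0) (τ (nk N k) p.1.1) (sh (nk N k) p.2.1) (sh (nk N k) p.1.2)) := by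
    have h2 := (rZ_law μ Q).quasiMeasurePreserving.ae
      (hδ.shift (nk N k) (blk N 0) (blk N k) (blk_shift N k))
    filter_upwards [h2] with p hp
    have hp' : δ (blk N k) p.1.1 p.2.1 p.1.2 =
      δ (blk N 0) (τ (nk N k) p.1.1) (sh (nk N k) p.2.1) (sh (nk N k) p.1.2) := hp
    rw [hp']
    rfl
  have hψ0 : ∀ᵐ p ∂(MM μ Q E), |-(g p.1.1 p.2.1 * δ (blk N 0) p.1.1 p.2.1 p.1.2)| ≤
      LL (blk N 0) p.2.1 p.1.2 := by
    filter_upwards [hδ.lipz (blk N 0)] with p hp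
    rw [abs_neg, abs_mul]
    have := hg.le p.1.1 p.2.1
    nlinarith [abs_nonneg (g p.1.1 p.2.1), abs_nonneg (δ (blk N 0) p.1.1 p.2.1 p.1.2)]
  have hcl0 : ∀ᵐ p ∂(MM μ Q E), |-(g p.1.1 p.2.1 * δ (blk N 0) p.1.1 p.2.1 p.1.2) -
      Th N g δ R p.1.1 p.2.1 p.1.2| ≤ max (LL (blk N 0) p.2.1 p.1.2 - R) 0 := by
    filter_upwards [hψ0] with p hp
    exact clp_sub hR hp
  have hclk := (Tr_law μ Q hδ.tau (nk N k)).quasiMeasurePreserving.ae hcl0
  have hThm : Measurable fun p : (Ω × (E → ℝ)) × ((E → ℝ) × (E → ℝ)) =>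
      Th N g δ R p.1.1 p.2.1 p.1.2 := (Th_meas hg hδ R).comp
        (f := fun p : (Ω × (E → ℝ)) × ((E → ℝ) × (E → ℝ)) => (p.1.1, (p.2.1, p.1.2)))
        (by fun_prop)
  have hTrm := (Tr_law μ Q hδ.tau (nk N k)).measurable
  have hTkm : Measurable fun p : (Ω × (E → ℝ)) × ((E → ℝ) × (E → ℝ)) =>
      Tk τ N g δ R k p.1.1 p.2.1 p.1.2 := hThm.comp hTrm
  have hTki : Integrable (fun p : (Ω × (E → ℝ)) × ((E → ℝ) × (E → ℝ)) =>
      Tk τ N g δ R k p.1.1 p.2.1 p.1.2) (MM μ Q E) :=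
    MM_bdd μ Q hTkm fun p => Th_le hR _ _ _
  have hThi : Integrable (fun p : (Ω × (E → ℝ)) × ((E → ℝ) × (E → ℝ)) =>
      Th N g δ R p.1.1 p.2.1 p.1.2) (MM μ Q E) :=
    MM_bdd μ Q hThm fun p => Th_le hR _ _ _
  have hwzm : Measurable fun p : (Ω × (E → ℝ)) × ((E → ℝ) × (E → ℝ)) =>
      max (LL (blk N k) p.2.1 p.1.2 - R) 0 := by
    have h2 : Measurable fun p : (Ω × (E → ℝ)) × ((E → ℝ) × (E → ℝ)) =>
      LL (blk N k) p.2.1 p.1.2 := (LL_meas (blk N k)).comp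
        (f := fun p : (Ω × (E → ℝ)) × ((E → ℝ) × (E → ℝ)) => (p.2.1, p.1.2)) (by fun_prop)
    exact (h2.sub measurable_const).max measurable_const
  have hwki : Integrable (fun p : (Ω × (E → ℝ)) × ((E → ℝ) × (E → ℝ)) =>
      max (LL (blk N k) p.2.1 p.2.2 - R) 0) (MM μ Q E) :=
    ((LL_int μ Q hμ (blk N k)).sub (integrable_const R)).pos_part
  have hwkz : Integrable (fun p : (Ω × (E → ℝ)) × ((E → ℝ) × (E → ℝ)) =>
      max (LL (blk N k) p.2.1 p.1.2 - R) 0) (MM μ Q E) :=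
    (rZ_law μ Q).integrable_comp_of_integrable hwki
  have hwkyz : Integrable (fun p : (Ω × (E → ℝ)) × ((E → ℝ) × (E → ℝ)) =>
      max (LL (blk N k) p.2.2 p.1.2 - R) 0) (MM μ Q E) := by
    have h2 := (aS_law μ Q (Set.univ : Set E)).integrable_comp_of_integrable hwkz
    refine h2.congr (Eventually.of_forall fun p => ?_)
    show max (LL (blk N k) (patch Set.univ p.2.1 p.2.2) p.1.2 - R) 0 = _
    have h3 : patch Set.univ p.2.1 p.2.2 = p.2.2 := by
      funext e; exact patch_mem (Set.mem_univ e) _ _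
    rw [h3]
  -- the integral of the error
  have s4 : ∫ p, ZZ h (tG τ N g) K p.1.1 p.2.1 * max (LL (blk N k) p.2.1 p.1.2 - R) 0
      ∂(MM μ Q E) = WW μ Q N R := by
    have e1 : ∫ p, ZZ h (tG τ N g) K p.1.1 p.2.1 * max (LL (blk N k) p.2.1 p.1.2 - R) 0
        ∂(MM μ Q E) = ∫ p, ZZ h (tG τ N g) K p.1.1 p.2.1 *
          max (LL (blk N k) p.2.2 p.1.2 - R) 0 ∂(MM μ Q E) := by
      rw [← aS_int μ Q ((blk N k : Finset E) : Set E) (fun p =>
        ZZ h (tG τ N g) K p.1.1 p.2.1 * max (LL (blk N k) p.2.2 p.1.2 - R) 0)]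
      refine integral_congr_ae (Eventually.of_forall fun p => ?_)
      show _ = ZZ h (tG τ N g) K p.1.1 (patch _ p.2.1 p.2.2) *
        max (LL (blk N k) (patch _ p.2.2 p.2.1) p.1.2 - R) 0
      rw [(hZdep _).patch_out disjoint_compl_left]
      have h3 : LL (blk N k) (patch (blk N k : Finset E) p.2.2 p.2.1) p.1.2 =
          LL (blk N k) p.2.1 p.1.2 := by
        unfold LL
        congr 1
        refine Finset.sum_congr rfl fun e he => ?_
        rw [patch_mem (Finset.mem_coe.2 he)]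
      rw [h3]
    have e2 : ∫ p, ZZ h (tG τ N g) K p.1.1 p.2.1 * max (LL (blk N k) p.2.2 p.1.2 - R) 0
        ∂(MM μ Q E) = ∫ p, max (LL (blk N k) p.2.2 p.1.2 - R) 0 ∂(MM μ Q E) := by
      refine MM_congr μ Q (hbi hZm (fun p => hZb _ _) hwkyz) hwkyz fun q => ?_
      simp only
      have h3 := integral_prod_mul (μ := infinitePi fun _ : E => μ)
        (ν := infinitePi fun _ : E => μ) (ZZ h (tG τ N g) K q.1)
        (fun y => max (LL (blk N k) y q.2 - R) 0)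
      have h4 := integral_prod_mul (μ := infinitePi fun _ : E => μ)
        (ν := infinitePi fun _ : E => μ) (fun _ => (1 : ℝ))
        (fun y => max (LL (blk N k) y q.2 - R) 0)
      have h5 : ∫ x, ZZ h (tG τ N g) K q.1 x ∂(infinitePi fun _ : E => μ) = 1 :=
        Zf_mean μ hP.disj (fun k => hP.dep k q.1) (fun k => hP.meas' _ k)
          (fun k J => hP.le k _ J) h0 (fun k => hP.mean k _) K
      rw [h3, h5, one_mul]
      rw [integral_const, probReal_univ, one_smul, one_mul] at h4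
      rw [← h4]
      simp only [one_mul]
    have e3 : ∫ p, max (LL (blk N k) p.2.2 p.1.2 - R) 0 ∂(MM μ Q E) =
        ∫ p, max (LL (blk N k) p.2.1 p.1.2 - R) 0 ∂(MM μ Q E) := by
      rw [← aS_int μ Q (Set.univ : Set E) (fun p => max (LL (blk N k) p.2.1 p.1.2 - R) 0)]
      refine integral_congr_ae (Eventually.of_forall fun p => ?_)
      show _ = max (LL (blk N k) (patch Set.univ p.2.1 p.2.2) p.1.2 - R) 0
      have h3 : patch Set.univ p.2.1 p.2.2 = p.2.2 := by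
        funext e; exact patch_mem (Set.mem_univ e) _ _
      rw [h3]
    have e4 : ∫ p, max (LL (blk N k) p.2.1 p.1.2 - R) 0 ∂(MM μ Q E) =
        ∫ p, max (LL (blk N k) p.2.1 p.2.2 - R) 0 ∂(MM μ Q E) :=
      rZ_int μ Q (fun p => max (LL (blk N k) p.2.1 p.2.2 - R) 0)
    have e5 : ∫ p, max (LL (blk N k) p.2.1 p.2.2 - R) 0 ∂(MM μ Q E) = WW μ Q N R := by
      unfold WW
      rw [← Tr_int μ Q hδ.tau (nk N k) hwm]
      refine integral_congr_ae (Eventually.of_forall fun p => ?_)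
      show _ = max (LL (blk N 0) (sh (nk N k) p.2.1) (sh (nk N k) p.2.2) - R) 0
      rw [hLsh]
    rw [e1, e2, e3, e4, e5]
  have s4' : ∫ p : (Ω × (E → ℝ)) × ((E → ℝ) × (E → ℝ)),
      max (LL (blk N 0) p.2.1 p.1.2 - R) 0 ∂(MM μ Q E) = WW μ Q N R :=
    rZ_int μ Q (fun p => max (LL (blk N 0) p.2.1 p.2.2 - R) 0)
  -- step 5: decoupling
  set K1 := K.filter fun j => j ∈ nb m k with hK1
  set K2 := K.filter fun j => j ∉ nb m k with hK2
  have hKK : K = K1 ∪ K2 := (Finset.filter_union_filter_not_eq _ _).symm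
  have hKd : Disjoint K1 K2 := Finset.disjoint_filter_filter_not _ _ _
  have hc1 : K1.card ≤ (2 * m + 1) ^ 2 := by
    rw [← card_nb m k]
    exact Finset.card_le_card fun j hj => (Finset.mem_filter.1 hj).2
  have s5 := decouple μ Q hP h0 (Θ := Tk τ N g δ R k)
    ((Th_meas hg hδ R).comp (f := fun q : Ω × ((E → ℝ) × (E → ℝ)) =>
      (τ (nk N k) q.1, (sh (nk N k) q.2.1, sh (nk N k) q.2.2)))
      (((hδ.tau _).measurable.comp measurable_fst).prodMk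
        (((measurable_sh _).comp (measurable_fst.comp measurable_snd)).prodMk
          ((measurable_sh _).comp (measurable_snd.comp measurable_snd)))))
    (R := R) (fun ω J z => Th_le hR _ _ _) (I := reg N m k) hKK hKd
    (fun j hj => by
      have h2 := (Finset.mem_filter.1 hj).2
      unfold reg
      exact Set.subset_biUnion_of_mem (u := fun j => ((blk N j : Finset E) : Set E)) h2)
    (fun j hj => by
      have h2 := (Finset.mem_filter.1 hj).2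
      unfold reg
      rw [Set.disjoint_iUnion₂_right]
      intro i hi
      exact hP.disj (fun e => h2 (e ▸ hi))) ht
  have s6 : ∫ p, |Tk τ N g δ R k p.1.1 p.2.1 p.1.2 -
      Tk τ N g δ R k p.1.1 (patch (reg N m k)ᶜ p.2.1 p.2.2) p.1.2| ∂(MM μ Q E) =
      HH μ Q N g δ R m := by
    unfold HH
    have hm : Measurable fun p : (Ω × (E → ℝ)) × ((E → ℝ) × (E → ℝ)) =>
        |Th N g δ R p.1.1 p.2.1 p.1.2 -
          Th N g δ R p.1.1 (patch (reg N m 0)ᶜ p.2.1 p.2.2) p.1.2| := by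
      refine (hThm.sub ((Th_meas hg hδ R).comp
        (f := fun p : (Ω × (E → ℝ)) × ((E → ℝ) × (E → ℝ)) =>
          (p.1.1, (patch (reg N m 0)ᶜ p.2.1 p.2.2, p.1.2))) ?_)).abs
      exact (measurable_fst.comp measurable_fst).prodMk
        (((measurable_patch _).comp measurable_snd).prodMk
          (measurable_snd.comp measurable_fst))
    rw [← Tr_int μ Q hδ.tau (nk N k) hm]
    refine integral_congr_ae (Eventually.of_forall fun p => ?_)
    show _ = |Th N g δ R (τ (nk N k) p.1.1) (sh (nk N k) p.2.1) (sh (nk N k) p.1.2) -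
      Th N g δ R (τ (nk N k) p.1.1)
        (patch (reg N m 0)ᶜ (sh (nk N k) p.2.1) (sh (nk N k) p.2.2)) (sh (nk N k) p.1.2)|
    have h2 := sh_patch (a := nk N k) (F := (reg N m 0)ᶜ) (F' := (reg N m k)ᶜ)
      (fun e => by rw [Set.mem_compl_iff, Set.mem_compl_iff, reg_shift]) p.2.1 p.2.2
    rw [← h2]
    rfl
  have s7 : ∫ p, Tk τ N g δ R k p.1.1 p.2.1 p.1.2 ∂(MM μ Q E) =
      ∫ p, Th N g δ R p.1.1 p.2.1 p.1.2 ∂(MM μ Q E) := Tr_int μ Q hδ.tau (nk N k) hThm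
  rw [s6, s7] at s5
  -- step 6: put together
  have i0 : Integrable (fun p : (Ω × (E → ℝ)) × ((E → ℝ) × (E → ℝ)) =>
      -(g p.1.1 p.2.1 * δ (blk N 0) p.1.1 p.2.1 p.1.2)) (MM μ Q E) :=
    (hbi (c := 1) hgm (fun p => hg.le _ _) (hδ.intz hμ _)).neg
  have s8 : -∫ p, g p.1.1 p.2.1 * δ (blk N 0) p.1.1 p.2.1 p.1.2 ∂(MM μ Q E) - WW μ Q N R ≤
      ∫ p, Th N g δ R p.1.1 p.2.1 p.1.2 ∂(MM μ Q E) := by
    have hw0z : Integrable (fun p : (Ω × (E → ℝ)) × ((E → ℝ) × (E → ℝ)) =>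
        max (LL (blk N 0) p.2.1 p.1.2 - R) 0) (MM μ Q E) :=
      (rZ_law μ Q).integrable_comp_of_integrable hwi
    rw [← integral_neg, ← s4', ← integral_sub i0 hw0z]
    refine integral_mono_ae (i0.sub hw0z) hThi ?_
    filter_upwards [hcl0] with p hp
    have := (abs_le.1 hp).2
    show -(g p.1.1 p.2.1 * δ (blk N 0) p.1.1 p.2.1 p.1.2) -
      max (LL (blk N 0) p.2.1 p.1.2 - R) 0 ≤ _
    linarith
  have i9 : Integrable (fun p : (Ω × (E → ℝ)) × ((E → ℝ) × (E → ℝ)) =>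
      ZZ h (tG τ N g) K p.1.1 p.2.1 * tG τ N g k p.1.1 p.2.1 *
        δ (blk N k) p.1.1 p.2.1 p.1.2) (MM μ Q E) := hbi hu1 hu1b (hδ.intz hμ _)
  have s9 : ∫ p, ZZ h (tG τ N g) K p.1.1 p.2.1 * Tk τ N g δ R k p.1.1 p.2.1 p.1.2 ∂(MM μ Q E) -
      WW μ Q N R ≤ -∫ p, ZZ h (tG τ N g) K p.1.1 p.2.1 * tG τ N g k p.1.1 p.2.1 *
        δ (blk N k) p.1.1 p.2.1 p.1.2 ∂(MM μ Q E) := by
    rw [← integral_neg, ← s4, ← integral_sub (hbi hZm (fun p => hZb _ _) hTki)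
      (hbi hZm (fun p => hZb _ _) hwkz)]
    refine integral_mono_ae ((hbi hZm (fun p => hZb _ _) hTki).sub
      (hbi hZm (fun p => hZb _ _) hwkz)) i9.neg ?_
    filter_upwards [hclk, hψ] with p hp hp'
    have h2 : |-(g (τ (nk N k) p.1.1) (sh (nk N k) p.2.1) *
        δ (blk N 0) (τ (nk N k) p.1.1) (sh (nk N k) p.2.1) (sh (nk N k) p.1.2)) -
        Tk τ N g δ R k p.1.1 p.2.1 p.1.2| ≤
        max (LL (blk N 0) (sh (nk N k) p.2.1) (sh (nk N k) p.1.2) - R) 0 := hp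
    rw [hLsh, ← hp'] at h2
    have h3 := (abs_le.1 h2).1
    have h4 := hZ0 p.1.1 p.2.1
    show ZZ h (tG τ N g) K p.1.1 p.2.1 * Tk τ N g δ R k p.1.1 p.2.1 p.1.2 -
      ZZ h (tG τ N g) K p.1.1 p.2.1 * max (LL (blk N k) p.2.1 p.1.2 - R) 0 ≤
      -(ZZ h (tG τ N g) K p.1.1 p.2.1 * tG τ N g k p.1.1 p.2.1 *
        δ (blk N k) p.1.1 p.2.1 p.1.2)
    nlinarith
  have h10 : (1 + h) ^ K1.card ≤ (1 + h) ^ ((2 * m + 1) ^ 2) :=
    pow_le_pow_right₀ (by linarith) hc1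
  have h11 : ((1 + h) ^ K1.card - 1) * R ≤ ((1 + h) ^ ((2 * m + 1) ^ 2) - 1) * R :=
    mul_le_mul_of_nonneg_right (by linarith) hR
  have s5' := (abs_le.1 s5).1
  rw [s1, s2, s3, add_zero]
  linarith

end

end Pool.Agent.K3h93.EA
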