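import Pool.Agent.K3h93.EA.Core

/-!
# A cocycle which is small compared with the boundary vanishes
-/

set_option autoImplicit false
set_option linter.unusedSectionVars false

open MeasureTheory Measure Filter Topology

namespace Pool.Agent.K3h93.EA

/-- the bonds `(v, i)` with `- M ≤ v j < M` -/
noncomputable def bM (M : ℕ) : Finset E :=
  (Fintype.piFinset fun _ => Finset.Ico (-(M : ℤ)) M) ×ˢ Finset.univ

lemma mem_bM {M : ℕ} {e : E} : e ∈ bM M ↔ ∀ i, -(M : ℤ) ≤ e.1 i ∧ e.1 i < M := by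
  unfold bM
  rw [Finset.mem_product, Fintype.mem_piFinset]
  simp only [Finset.mem_Ico, Finset.mem_univ, and_true]

lemma bM_shift (M : ℕ) (e : E) : e ∈ bM M ↔ st (fun _ => (M : ℤ)) e ∈ blk (2 * M) 0 := by
  rw [mem_bM, mem_blk]
  refine forall_congr' fun i => ?_
  unfold st
  simp only [Pi.zero_apply, mul_zero, Pi.add_apply]
  push_cast
  constructor <;> rintro ⟨h1, h2⟩ <;> constructor <;> linarith

lemma bM_mono {M M' : ℕ} (h : M ≤ M') : bM M ⊆ bM M' := by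
  intro e he
  rw [mem_bM] at he ⊢
  intro i
  have := he i
  have h' : (M : ℤ) ≤ M' := by exact_mod_cast h
  constructor <;> linarith [this.1, this.2]

lemma bM_exhaust (e : E) : ∀ᶠ M in atTop, e ∈ ((bM M : Finset E) : Set E) := by
  filter_upwards [eventually_gt_atTop (Finset.univ.sup fun i => (e.1 i).natAbs)] with M hM
  rw [Finset.mem_coe, mem_bM]
  intro i
  have h1 : (e.1 i).natAbs < M :=
    (Finset.le_sup (f := fun i => (e.1 i).natAbs) (Finset.mem_univ i)).trans_lt hM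
  omega

lemma bM_finset (F : Finset E) : ∀ᶠ M in atTop, F ⊆ bM M := by
  have h1 : ∀ᶠ M in atTop, ∀ e ∈ F, e ∈ ((bM M : Finset E) : Set E) :=
    (Filter.eventually_all_finset F).2 fun e _ => bM_exhaust e
  filter_upwards [h1] with M hM e he
  exact Finset.mem_coe.1 (hM e he)

section

variable {Ω : Type*} [MeasurableSpace Ω] (μ : Measure ℝ) [IsProbabilityMeasure μ]
  (Q : Measure Ω) [IsProbabilityMeasure Q]
  {τ : V → Ω → Ω} {δ : Finset E → Ω → (E → ℝ) → (E → ℝ) → ℝ}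

/-- one more independent copy -/
def pr1 (p : ((Ω × (E → ℝ)) × (E → ℝ)) × ((E → ℝ) × (E → ℝ))) :
    (Ω × (E → ℝ)) × ((E → ℝ) × (E → ℝ)) := ((p.1.1.1, p.1.2), p.2)

lemma pr1_law : MeasurePreserving (pr1 (Ω := Ω)) (MM μ (Q.prod (infinitePi fun _ : E => μ)) E)
    (MM μ Q E) := by
  have h1 : MeasurePreserving (Prod.fst : Ω × (E → ℝ) → Ω)
      (Q.prod (infinitePi fun _ : E => μ)) Q := measurePreserving_fst
  exact (h1.prod (MeasurePreserving.id _)).prod (MeasurePreserving.id _)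

/-- `(((ω, w), z), (J, y)) ↦ ((ω, z), (J, w))` -/
def pr2 (p : ((Ω × (E → ℝ)) × (E → ℝ)) × ((E → ℝ) × (E → ℝ))) :
    (Ω × (E → ℝ)) × ((E → ℝ) × (E → ℝ)) := ((p.1.1.1, p.1.2), (p.2.1, p.1.1.2))

lemma pr2_law : MeasurePreserving (pr2 (Ω := Ω)) (MM μ (Q.prod (infinitePi fun _ : E => μ)) E)
    (MM μ Q E) := by
  set P := infinitePi fun _ : E => μ with hP
  have h1 : MeasurePreserving (Prod.map id Prod.fst :
      ((Ω × (E → ℝ)) × (E → ℝ)) × ((E → ℝ) × (E → ℝ)) → ((Ω × (E → ℝ)) × (E → ℝ)) × (E → ℝ))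
      (((Q.prod P).prod P).prod (P.prod P)) (((Q.prod P).prod P).prod P) :=
    (MeasurePreserving.id _).prod measurePreserving_fst
  -- ((ω, w), z) -> (ω, (w, z)) -> (ω, (z, w)) -> ((ω, z), w)
  have a1 : MeasurePreserving (MeasurableEquiv.prodAssoc (α := Ω) (β := E → ℝ) (γ := E → ℝ))
      ((Q.prod P).prod P) (Q.prod (P.prod P)) := measurePreserving_prodAssoc Q P P
  have a2 : MeasurePreserving (Prod.map id Prod.swap :
      Ω × ((E → ℝ) × (E → ℝ)) → Ω × ((E → ℝ) × (E → ℝ))) (Q.prod (P.prod P))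
      (Q.prod (P.prod P)) := (MeasurePreserving.id Q).prod measurePreserving_swap
  have a3 := a1.symm.comp (a2.comp a1)
  have h2 := a3.prod (MeasurePreserving.id P)
  have a4 : MeasurePreserving (MeasurableEquiv.prodAssoc (α := Ω × (E → ℝ)) (β := E → ℝ)
      (γ := E → ℝ)) (((Q.prod P).prod P).prod P) ((Q.prod P).prod (P.prod P)) :=
    measurePreserving_prodAssoc (Q.prod P) P P
  have a5 : MeasurePreserving (Prod.map id Prod.swap :
      (Ω × (E → ℝ)) × ((E → ℝ) × (E → ℝ)) → (Ω × (E → ℝ)) × ((E → ℝ) × (E → ℝ)))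
      ((Q.prod P).prod (P.prod P)) ((Q.prod P).prod (P.prod P)) :=
    (MeasurePreserving.id (Q.prod P)).prod measurePreserving_swap
  have h3 := a5.comp (a4.comp (h2.comp h1))
  exact h3

lemma mp_int {α β : Type*} [MeasurableSpace α] [MeasurableSpace β] {ν : Measure α}
    {ν' : Measure β} {f : α → β} (hf : MeasurePreserving f ν ν') {g : β → ℝ}
    (hg : Measurable g) : ∫ x, g (f x) ∂ν = ∫ y, g y ∂ν' := by
  rw [← hf.map_eq, integral_map hf.measurable.aemeasurable hg.aestronglyMeasurable]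

variable {μ Q}

/-- the cocycle does not depend on one more independent family of random variables -/
lemma Coc.ext (hδ : Coc μ Q τ δ) :
    Coc μ (Q.prod (infinitePi fun _ : E => μ)) (fun a q => (τ a q.1, sh a q.2))
      (fun F q => δ F q.1) := by
  have hq := (pr1_law μ Q).quasiMeasurePreserving
  refine ⟨fun a => (hδ.tau a).prod (sh_law μ a), ?_, ?_, ?_, ?_, ?_⟩
  · intro F
    exact (hδ.meas F).comp (f := fun q : (Ω × (E → ℝ)) × ((E → ℝ) × (E → ℝ)) => (q.1.1, q.2))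
      (by fun_prop)
  · exact fun b F hb => hq.ae (hδ.coc b F hb)
  · exact fun a F F' h => hq.ae (hδ.shift a F F' h)
  · exact fun F => hq.ae (hδ.lip F)
  · exact fun m => hq.ae (hδ.bdry m)

/-- the expectation given `ω` vanishes -/
lemma anti (hμ : Integrable (fun x : ℝ => x) μ) (hδ : Coc μ Q τ δ) (b : Finset E) {u : Ω → ℝ}
    (hu : Measurable u) {C : ℝ} (hC : ∀ ω, |u ω| ≤ C) :
    ∫ p, u p.1.1 * δ b p.1.1 p.2.1 p.1.2 ∂(MM μ Q E) = 0 := by
  have hum : Measurable fun p : (Ω × (E → ℝ)) × ((E → ℝ) × (E → ℝ)) => u p.1.1 :=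
    hu.comp (measurable_fst.comp measurable_fst)
  have i1 : Integrable (fun p : (Ω × (E → ℝ)) × ((E → ℝ) × (E → ℝ)) =>
      u p.1.1 * δ b p.1.1 p.2.1 p.1.2) (MM μ Q E) :=
    (hδ.intz hμ b).bdd_mul hum.aestronglyMeasurable (c := C)
      (Eventually.of_forall fun p => by rw [Real.norm_eq_abs]; exact hC _)
  have i2 : Integrable (fun p : (Ω × (E → ℝ)) × ((E → ℝ) × (E → ℝ)) =>
      u p.1.1 * δ b p.1.1 p.2.1 p.2.2) (MM μ Q E) :=
    (hδ.inty hμ b).bdd_mul hum.aestronglyMeasurable (c := C)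
      (Eventually.of_forall fun p => by rw [Real.norm_eq_abs]; exact hC _)
  have i3 : Integrable (fun p : (Ω × (E → ℝ)) × ((E → ℝ) × (E → ℝ)) =>
      u p.1.1 * δ b p.1.1 (patch (b : Set E) p.2.1 p.2.2) p.1.2) (MM μ Q E) :=
    (aS_law μ Q (b : Set E)).integrable_comp_of_integrable i1
  have e1 : ∫ p, u p.1.1 * δ b p.1.1 p.2.1 p.1.2 ∂(MM μ Q E) =
      ∫ p, u p.1.1 * δ b p.1.1 p.2.1 p.2.2 ∂(MM μ Q E) +
      ∫ p, u p.1.1 * δ b p.1.1 (patch (b : Set E) p.2.1 p.2.2) p.1.2 ∂(MM μ Q E) := by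
    rw [← integral_add i2 i3]
    refine integral_congr_ae ?_
    filter_upwards [hδ.coc b b le_rfl] with p hp
    rw [hp]; ring
  have e2 : ∫ p, u p.1.1 * δ b p.1.1 (patch (b : Set E) p.2.1 p.2.2) p.1.2 ∂(MM μ Q E) =
      ∫ p, u p.1.1 * δ b p.1.1 p.2.1 p.1.2 ∂(MM μ Q E) :=
    aS_int μ Q (b : Set E) (fun p => u p.1.1 * δ b p.1.1 p.2.1 p.1.2)
  have e3 : ∫ p, u p.1.1 * δ b p.1.1 p.2.1 p.1.2 ∂(MM μ Q E) =
      ∫ p, u p.1.1 * δ b p.1.1 p.2.1 p.2.2 ∂(MM μ Q E) :=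
    rZ_int μ Q (fun p => u p.1.1 * δ b p.1.1 p.2.1 p.2.2)
  linarith

/-- the core estimate for the boxes around the origin -/
lemma S1 (hμ : Integrable (fun x : ℝ => x) μ) (hδ : Coc μ Q τ δ) {M : ℕ} (hM : 1 ≤ M)
    {g : Ω → (E → ℝ) → ℝ} (hd : ∀ ω, Dep (bM M : Finset E) (g ω))
    (hg : Measurable fun q : Ω × (E → ℝ) => g q.1 q.2) {C : ℝ} (hC0 : 0 < C)
    (hC : ∀ ω J, |g ω J| ≤ C) :
    ∫ p, g p.1.1 p.2.1 * δ (bM M) p.1.1 p.2.1 p.1.2 ∂(MM μ Q E) = 0 := by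
  set P := infinitePi fun _ : E => μ with hP
  have hgω : ∀ ω, Measurable (g ω) := fun ω => hg.comp (measurable_const.prodMk measurable_id)
  set gb : Ω → ℝ := fun ω => ∫ x, g ω x ∂P with hgb
  have hgbm : Measurable gb := (hg.stronglyMeasurable.integral_prod_right).measurable
  have hgbC : ∀ ω, |gb ω| ≤ C := fun ω => by
    have := norm_integral_le_of_norm_le_const (μ := P) (f := g ω) (C := C)
      (Eventually.of_forall fun x => by rw [Real.norm_eq_abs]; exact hC ω x)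
    rwa [probReal_univ, mul_one, Real.norm_eq_abs] at this
  -- the centered and scaled function
  set g0 : Ω → (E → ℝ) → ℝ := fun ω J => (g ω J - gb ω) / (2 * C) with hg0
  have hg0m : Measurable fun q : Ω × (E → ℝ) => g0 q.1 q.2 :=
    (hg.sub (hgbm.comp measurable_fst)).div_const _
  have hg0C : ∀ ω J, |g0 ω J| ≤ 1 := fun ω J => by
    rw [hg0]
    simp only
    rw [abs_div, abs_of_pos (by linarith : (0 : ℝ) < 2 * C), div_le_one (by linarith)]
    refine (abs_sub _ _).trans ?_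
    linarith [hC ω J, hgbC ω]
  have hg0z : ∀ ω, ∫ x, g0 ω x ∂P = 0 := fun ω => by
    rw [hg0]
    simp only
    rw [integral_div, integral_sub (int_bdd μ (hgω ω) (hC ω)) (integrable_const _),
      integral_const, probReal_univ, one_smul, sub_self, zero_div]
  set a : V := fun _ => (M : ℤ) with ha
  -- the tilt of the block
  set g1 : Ω → (E → ℝ) → ℝ := fun ω J => g0 (τ a ω) (sh a J) with hg1
  have hTil : Til μ (2 * M) g1 := by
    refine ⟨?_, ?_, fun ω J => hg0C _ _, ?_⟩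
    · intro ω J J' hJ
      rw [hg1, hg0]
      simp only
      rw [hd (τ a ω) (sh a J) (sh a J') fun e he => ?_]
      rw [sh_apply, sh_apply]
      exact hJ _ (Finset.mem_coe.2 ((bM_shift M e).1 (Finset.mem_coe.1 he)))
    · exact hg0m.comp (((hδ.tau a).measurable.comp measurable_fst).prodMk
        ((measurable_sh a).comp measurable_snd))
    · intro ω
      have h2 : Measurable (g0 (τ a ω)) := hg0m.comp (measurable_const.prodMk measurable_id)
      have h3 := mp_int (sh_law μ a) h2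
      rw [hg1]
      simp only
      rw [h3]
      exact hg0z _
  have h1 := core (by omega : 1 ≤ 2 * M) hμ hTil hδ
  have hm0 : Measurable fun p : (Ω × (E → ℝ)) × ((E → ℝ) × (E → ℝ)) =>
      g0 p.1.1 p.2.1 * δ (bM M) p.1.1 p.2.1 p.1.2 :=
    (hg0m.comp (f := fun p : (Ω × (E → ℝ)) × ((E → ℝ) × (E → ℝ)) => (p.1.1, p.2.1))
      (by fun_prop)).mul (hδ.measz _)
  have h2 : ∫ p, g0 p.1.1 p.2.1 * δ (bM M) p.1.1 p.2.1 p.1.2 ∂(MM μ Q E) = 0 := by
    rw [← Tr_int μ Q hδ.tau a hm0, ← h1]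
    refine integral_congr_ae ?_
    have h3 := (rZ_law μ Q).quasiMeasurePreserving.ae
      (hδ.shift a (bM M) (blk (2 * M) 0) (bM_shift M))
    filter_upwards [h3] with p hp
    have hp' : δ (blk (2 * M) 0) p.1.1 p.2.1 p.1.2 =
      δ (bM M) (τ a p.1.1) (sh a p.2.1) (sh a p.1.2) := hp
    rw [hp']
    rfl
  have h3 := anti hμ hδ (bM M) hgbm hgbC
  have hi0 : Integrable (fun p : (Ω × (E → ℝ)) × ((E → ℝ) × (E → ℝ)) =>
      g0 p.1.1 p.2.1 * δ (bM M) p.1.1 p.2.1 p.1.2) (MM μ Q E) :=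
    (hδ.intz hμ _).bdd_mul (hg0m.comp
      (f := fun p : (Ω × (E → ℝ)) × ((E → ℝ) × (E → ℝ)) => (p.1.1, p.2.1))
      (by fun_prop)).aestronglyMeasurable (c := 1)
      (Eventually.of_forall fun p => by rw [Real.norm_eq_abs]; exact hg0C _ _)
  have hi1 : Integrable (fun p : (Ω × (E → ℝ)) × ((E → ℝ) × (E → ℝ)) =>
      gb p.1.1 * δ (bM M) p.1.1 p.2.1 p.1.2) (MM μ Q E) :=
    (hδ.intz hμ _).bdd_mul (hgbm.comp
      (measurable_fst.comp measurable_fst)).aestronglyMeasurable (c := C)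
      (Eventually.of_forall fun p => by rw [Real.norm_eq_abs]; exact hgbC _)
  have h4 : ∫ p, g p.1.1 p.2.1 * δ (bM M) p.1.1 p.2.1 p.1.2 ∂(MM μ Q E) =
      2 * C * ∫ p, g0 p.1.1 p.2.1 * δ (bM M) p.1.1 p.2.1 p.1.2 ∂(MM μ Q E) +
      ∫ p, gb p.1.1 * δ (bM M) p.1.1 p.2.1 p.1.2 ∂(MM μ Q E) := by
    rw [← integral_const_mul, ← integral_add (hi0.const_mul _) hi1]
    refine integral_congr_ae (Eventually.of_forall fun p => ?_)
    simp only [hg0]
    field_simp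
    ring
  rw [h4, h2, h3, mul_zero, add_zero]

/-- with one more independent family -/
lemma S2 (hμ : Integrable (fun x : ℝ => x) μ) (hδ : Coc μ Q τ δ) {M : ℕ} (hM : 1 ≤ M)
    {g : Ω → (E → ℝ) → (E → ℝ) → ℝ} (hd : ∀ ω y, Dep (bM M : Finset E) (g ω y))
    (hg : Measurable fun q : (Ω × (E → ℝ)) × (E → ℝ) => g q.1.1 q.1.2 q.2) {C : ℝ}
    (hC0 : 0 < C) (hC : ∀ ω y J, |g ω y J| ≤ C) :
    ∫ p, g p.1.1 p.2.2 p.2.1 * δ (bM M) p.1.1 p.2.1 p.1.2 ∂(MM μ Q E) = 0 := by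
  have h1 := S1 hμ hδ.ext hM (g := fun q J => g q.1 q.2 J) (fun q => hd q.1 q.2) hg hC0
    (fun q J => hC _ _ _)
  have hm : Measurable fun p : (Ω × (E → ℝ)) × ((E → ℝ) × (E → ℝ)) =>
      g p.1.1 p.2.2 p.2.1 * δ (bM M) p.1.1 p.2.1 p.1.2 :=
    (hg.comp (f := fun p : (Ω × (E → ℝ)) × ((E → ℝ) × (E → ℝ)) => ((p.1.1, p.2.2), p.2.1))
      (by fun_prop)).mul (hδ.measz _)
  rw [← mp_int (pr2_law μ Q) hm]
  exact h1

/-- all functions which are local as a function of `J` -/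
lemma S3 (hμ : Integrable (fun x : ℝ => x) μ) (hδ : Coc μ Q τ δ) {M : ℕ} (hM : 1 ≤ M)
    {F : Finset E} (hF : F ⊆ bM M)
    {g : Ω → (E → ℝ) → (E → ℝ) → ℝ} (hd : ∀ ω y, Dep (bM M : Finset E) (g ω y))
    (hg : Measurable fun q : (Ω × (E → ℝ)) × (E → ℝ) => g q.1.1 q.1.2 q.2) {C : ℝ}
    (hC0 : 0 < C) (hC : ∀ ω y J, |g ω y J| ≤ C) :
    ∫ p, g p.1.1 p.2.2 p.2.1 * δ F p.1.1 p.2.1 p.2.2 ∂(MM μ Q E) = 0 := by
  have hgm : Measurable fun p : (Ω × (E → ℝ)) × ((E → ℝ) × (E → ℝ)) =>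
      g p.1.1 p.2.2 p.2.1 := hg.comp
        (f := fun p : (Ω × (E → ℝ)) × ((E → ℝ) × (E → ℝ)) => ((p.1.1, p.2.2), p.2.1))
        (by fun_prop)
  set g' : Ω → (E → ℝ) → (E → ℝ) → ℝ := fun ω y J =>
    g ω (patch (F : Set E) y J) (patch (F : Set E) J y) with hg'
  have hg'm : Measurable fun q : (Ω × (E → ℝ)) × (E → ℝ) => g' q.1.1 q.1.2 q.2 := by
    refine hg.comp (f := fun q : (Ω × (E → ℝ)) × (E → ℝ) =>
      ((q.1.1, patch (F : Set E) q.1.2 q.2), patch (F : Set E) q.2 q.1.2)) ?_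
    have a1 : Measurable fun q : (Ω × (E → ℝ)) × (E → ℝ) => patch (F : Set E) q.1.2 q.2 :=
      (measurable_patch (F : Set E)).comp
        (f := fun q : (Ω × (E → ℝ)) × (E → ℝ) => (q.1.2, q.2)) (by fun_prop)
    have a2 : Measurable fun q : (Ω × (E → ℝ)) × (E → ℝ) => patch (F : Set E) q.2 q.1.2 :=
      (measurable_patch (F : Set E)).comp
        (f := fun q : (Ω × (E → ℝ)) × (E → ℝ) => (q.2, q.1.2)) (by fun_prop)
    exact ((measurable_fst.comp measurable_fst).prodMk a1).prodMk a2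
  have hg'd : ∀ ω y, Dep (bM M : Finset E) (g' ω y) := by
    intro ω y J J' hJ
    rw [hg']
    simp only
    have h1 : patch (F : Set E) y J = patch (F : Set E) y J' := by
      funext e
      by_cases he : e ∈ (F : Set E)
      · rw [patch_mem he, patch_mem he]
        exact hJ e (Finset.mem_coe.2 (hF (Finset.mem_coe.1 he)))
      · rw [patch_not he, patch_not he]
    rw [h1]
    refine hd _ _ _ _ fun e he => ?_
    by_cases he' : e ∈ (F : Set E)
    · rw [patch_mem he', patch_mem he']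
    · rw [patch_not he', patch_not he']
      exact hJ e he
  have h1 := S2 hμ hδ hM hd hg hC0 hC
  have h2 := S2 hμ hδ hM hg'd hg'm hC0 fun ω y J => hC _ _ _
  have h3 : ∫ p, g p.1.1 p.2.2 p.2.1 * δ (bM M) p.1.1 (patch (F : Set E) p.2.1 p.2.2) p.1.2
      ∂(MM μ Q E) = 0 := by
    rw [← h2, ← aS_int μ Q (F : Set E) (fun p =>
      g' p.1.1 p.2.2 p.2.1 * δ (bM M) p.1.1 p.2.1 p.1.2)]
    refine integral_congr_ae (Eventually.of_forall fun p => ?_)
    show _ = g p.1.1 (patch (F : Set E) (patch (F : Set E) p.2.2 p.2.1)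
      (patch (F : Set E) p.2.1 p.2.2)) (patch (F : Set E) (patch (F : Set E) p.2.1 p.2.2)
      (patch (F : Set E) p.2.2 p.2.1)) * δ (bM M) p.1.1 (patch (F : Set E) p.2.1 p.2.2) p.1.2
    have h4 := sw_sw (F : Set E) p.2
    have h5 : patch (F : Set E) (patch (F : Set E) p.2.1 p.2.2)
      (patch (F : Set E) p.2.2 p.2.1) = p.2.1 := congrArg Prod.fst h4
    have h6 : patch (F : Set E) (patch (F : Set E) p.2.2 p.2.1)
      (patch (F : Set E) p.2.1 p.2.2) = p.2.2 := congrArg Prod.snd h4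
    rw [h5, h6]
  have i1 : Integrable (fun p : (Ω × (E → ℝ)) × ((E → ℝ) × (E → ℝ)) =>
      g p.1.1 p.2.2 p.2.1 * δ (bM M) p.1.1 p.2.1 p.1.2) (MM μ Q E) :=
    (hδ.intz hμ _).bdd_mul hgm.aestronglyMeasurable (c := C)
      (Eventually.of_forall fun p => by rw [Real.norm_eq_abs]; exact hC _ _ _)
  have i2 : Integrable (fun p : (Ω × (E → ℝ)) × ((E → ℝ) × (E → ℝ)) =>
      g p.1.1 p.2.2 p.2.1 * δ (bM M) p.1.1 (patch (F : Set E) p.2.1 p.2.2) p.1.2)
      (MM μ Q E) :=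
    ((aS_law μ Q (F : Set E)).integrable_comp_of_integrable (hδ.intz hμ (bM M))).bdd_mul
      hgm.aestronglyMeasurable (c := C)
      (Eventually.of_forall fun p => by rw [Real.norm_eq_abs]; exact hC _ _ _)
  have h5 : ∫ p, g p.1.1 p.2.2 p.2.1 * δ F p.1.1 p.2.1 p.2.2 ∂(MM μ Q E) =
      ∫ p, g p.1.1 p.2.2 p.2.1 * δ (bM M) p.1.1 p.2.1 p.1.2 ∂(MM μ Q E) -
      ∫ p, g p.1.1 p.2.2 p.2.1 * δ (bM M) p.1.1 (patch (F : Set E) p.2.1 p.2.2) p.1.2
        ∂(MM μ Q E) := by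
    rw [← integral_sub i1 i2]
    refine integral_congr_ae ?_
    filter_upwards [hδ.coc F (bM M) hF] with p hp
    rw [hp]; ring
  rw [h5, h1, h3, sub_zero]

end

end Pool.Agent.K3h93.EA
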