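import Pool.Agent.K3h93.EA.Dec

/-!
# Blocks of bonds of the plane, and cocycles of energies
-/

set_option autoImplicit false

open MeasureTheory Measure Filter Topology

namespace Pool.Agent.K3h93.EA

/-- the sites -/
abbrev V : Type := Fin 2 → ℤ

/-- the bonds: `(v, i)` joins `v` and `v + e_i` -/
abbrev E : Type := (Fin 2 → ℤ) × Fin 2

/-- translation of a bond -/
def st (a : V) (e : E) : E := (e.1 + a, e.2)

/-- translation of couplings -/
def sh (a : V) (J : E → ℝ) : E → ℝ := fun e => J (e.1 + a, e.2)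

lemma sh_apply (a : V) (J : E → ℝ) (e : E) : sh a J e = J (st a e) := rfl

lemma st_inj (a : V) : Function.Injective (st a) := by
  intro e e' h
  simp only [st, Prod.mk.injEq] at h
  exact Prod.ext (add_right_cancel h.1) h.2

lemma st_surj (a : V) (e : E) : st a (st (-a) e) = e := by
  simp [st]

lemma measurable_sh (a : V) : Measurable (sh a) := by
  unfold sh; fun_prop

lemma sh_patch {a : V} {F F' : Set E} (h : ∀ e, e ∈ F ↔ st a e ∈ F') (J y : E → ℝ) :
    sh a (patch F' J y) = patch F (sh a J) (sh a y) := by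
  funext e
  by_cases he : e ∈ F
  · rw [patch_mem he, sh_apply, patch_mem ((h e).1 he)]; rfl
  · rw [patch_not he, sh_apply, patch_not (fun hc => he ((h e).2 hc))]; rfl

/-- the block of side `N` at the position `k` -/
noncomputable def blk (N : ℕ) (k : V) : Finset E :=
  (Fintype.piFinset fun i => Finset.Ico ((N : ℤ) * k i) (N * k i + N)) ×ˢ Finset.univ

lemma mem_blk {N : ℕ} {k : V} {e : E} :
    e ∈ blk N k ↔ ∀ i, (N : ℤ) * k i ≤ e.1 i ∧ e.1 i < N * k i + N := by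
  unfold blk
  rw [Finset.mem_product, Fintype.mem_piFinset]
  simp only [Finset.mem_Ico, Finset.mem_univ, and_true]

/-- the translation vector of a block -/
def nk (N : ℕ) (k : V) : V := fun i => N * k i

lemma blk_shift (N : ℕ) (k : V) (e : E) : e ∈ blk N 0 ↔ st (nk N k) e ∈ blk N k := by
  rw [mem_blk, mem_blk]
  refine forall_congr' fun i => ?_
  unfold st nk
  simp only [Pi.zero_apply, mul_zero, Pi.add_apply]
  constructor <;> rintro ⟨h1, h2⟩ <;> constructor <;> linarith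

lemma blk_shift' (N : ℕ) (j k : V) (e : E) : e ∈ blk N j ↔ st (nk N k) e ∈ blk N (j + k) := by
  rw [mem_blk, mem_blk]
  refine forall_congr' fun i => ?_
  unfold st nk
  simp only [Pi.add_apply]
  constructor <;> rintro ⟨h1, h2⟩ <;> constructor <;> linarith

lemma blk_disj {N : ℕ} (hN : 1 ≤ N) :
    Pairwise fun j k : V => Disjoint ((blk N j : Finset E) : Set E) (blk N k : Finset E) := by
  intro j k hjk
  rw [Set.disjoint_left]
  intro e h1 h2
  rw [Finset.mem_coe, mem_blk] at h1 h2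
  apply hjk
  funext i
  have hN' : (1 : ℤ) ≤ N := by exact_mod_cast hN
  obtain ⟨a1, a2⟩ := h1 i
  obtain ⟨b1, b2⟩ := h2 i
  have c1 : (N : ℤ) * j i < N * (k i + 1) := by linarith
  have c2 : (N : ℤ) * k i < N * (j i + 1) := by linarith
  have d1 := lt_of_mul_lt_mul_left c1 (by linarith)
  have d2 := lt_of_mul_lt_mul_left c2 (by linarith)
  omega

/-- the positions near `k` -/
noncomputable def nb (m : ℕ) (k : V) : Finset V :=
  Fintype.piFinset fun i => Finset.Icc (k i - m) (k i + m)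

lemma mem_nb {m : ℕ} {k j : V} : j ∈ nb m k ↔ ∀ i, k i - m ≤ j i ∧ j i ≤ k i + m := by
  unfold nb
  rw [Fintype.mem_piFinset]
  simp only [Finset.mem_Icc]

lemma card_nb (m : ℕ) (k : V) : (nb m k).card = (2 * m + 1) ^ 2 := by
  unfold nb
  rw [Fintype.card_piFinset]
  have : ∀ i : Fin 2, (Finset.Icc (k i - m) (k i + m)).card = 2 * m + 1 := by
    intro i
    rw [Int.card_Icc]
    omega
  simp [this]

/-- the bonds near the block at `k` -/
def reg (N m : ℕ) (k : V) : Set E := ⋃ j ∈ nb m k, ((blk N j : Finset E) : Set E)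

lemma reg_shift (N m : ℕ) (k : V) (e : E) : e ∈ reg N m 0 ↔ st (nk N k) e ∈ reg N m k := by
  unfold reg
  simp only [Set.mem_iUnion, Finset.mem_coe, exists_prop]
  constructor
  · rintro ⟨j, hj, he⟩
    refine ⟨j + k, ?_, (blk_shift' N j k e).1 he⟩
    rw [mem_nb] at hj ⊢
    intro i
    have := hj i
    simp only [Pi.add_apply, Pi.zero_apply] at this ⊢
    omega
  · rintro ⟨j, hj, he⟩
    refine ⟨j - k, ?_, (blk_shift' N (j - k) k e).2 (by rwa [sub_add_cancel])⟩
    rw [mem_nb] at hj ⊢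
    intro i
    have := hj i
    simp only [Pi.sub_apply, Pi.zero_apply] at this ⊢
    omega

lemma reg_exhaust {N : ℕ} (hN : 1 ≤ N) (e : E) : ∀ᶠ m in atTop, e ∈ reg N m 0 := by
  have hN' : (0 : ℤ) < N := by exact_mod_cast hN
  filter_upwards [eventually_ge_atTop (Finset.univ.sup fun i => (e.1 i / (N : ℤ)).natAbs)]
    with m hm
  unfold reg
  simp only [Set.mem_iUnion, Finset.mem_coe, exists_prop]
  refine ⟨fun i => e.1 i / N, ?_, ?_⟩
  · rw [mem_nb]
    intro i
    have h1 : (e.1 i / (N : ℤ)).natAbs ≤ m :=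
      (Finset.le_sup (f := fun i => (e.1 i / (N : ℤ)).natAbs) (Finset.mem_univ i)).trans hm
    simp only [Pi.zero_apply]
    omega
  · rw [mem_blk]
    intro i
    have h1 := Int.emod_add_mul_ediv (e.1 i) N
    have h2 := Int.emod_nonneg (e.1 i) hN'.ne'
    have h3 := Int.emod_lt_of_pos (e.1 i) hN'
    constructor <;> linarith

/-- the bonds with both ends in the box `[0, m] ^ 2` -/
noncomputable def FB (m : ℕ) : Finset E :=
  ((Fintype.piFinset fun _ => Finset.Icc (0 : ℤ) m) ×ˢ Finset.univ).filter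
    fun e => e.1 e.2 + 1 ≤ m

lemma mem_FB {m : ℕ} {e : E} :
    e ∈ FB m ↔ (∀ i, 0 ≤ e.1 i ∧ e.1 i ≤ m) ∧ e.1 e.2 + 1 ≤ m := by
  unfold FB
  rw [Finset.mem_filter, Finset.mem_product, Fintype.mem_piFinset]
  simp only [Finset.mem_Icc, Finset.mem_univ, and_true]

/-- the point with the coordinate `s` in the direction `i` and `t` in the other direction -/
def pt (i : Fin 2) (s t : ℤ) : V := fun j => if j = i then s else t

open Classical in
/-- the bonds with exactly one end in the box `[0, m] ^ 2` -/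
noncomputable def DB (m : ℕ) : Finset E :=
  ((Finset.univ : Finset (Fin 2)) ×ˢ (Finset.Icc (0 : ℤ) m ×ˢ ({(m : ℤ), -1} : Finset ℤ))).image
    fun x => (pt x.1 x.2.2 x.2.1, x.1)

lemma card_DB (m : ℕ) : (DB m).card ≤ 4 * (m + 1) := by
  classical
  unfold DB
  refine Finset.card_image_le.trans ?_
  rw [Finset.card_product, Finset.card_product, Int.card_Icc, Finset.card_univ, Fintype.card_fin]
  have h1 : ({(m : ℤ), -1} : Finset ℤ).card ≤ 2 := Finset.card_le_two
  have h2 : ((m : ℤ) + 1 - 0).toNat = m + 1 := by omega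
  rw [h2]
  nlinarith

lemma mem_DB {m : ℕ} {e : E} (h : e ∈ DB m) : e.1 e.2 = m ∨ e.1 e.2 = -1 := by
  classical
  unfold DB at h
  rw [Finset.mem_image] at h
  obtain ⟨⟨i, t, s⟩, hx, rfl⟩ := h
  simp only [Finset.mem_product, Finset.mem_insert, Finset.mem_singleton] at hx
  simp only [pt, if_true]
  exact hx.2.2

/-- the bonds which join the box to its complement are in `DB` -/
lemma mem_DB' {m : ℕ} {e : E} (h : ∀ i, i ≠ e.2 → 0 ≤ e.1 i ∧ e.1 i ≤ m)
    (h' : e.1 e.2 = m ∨ e.1 e.2 = -1) : e ∈ DB m := by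
  classical
  unfold DB
  rw [Finset.mem_image]
  refine ⟨(e.2, e.1 (e.2 + 1), e.1 e.2), ?_, ?_⟩
  · simp only [Finset.mem_product, Finset.mem_univ, Finset.mem_insert, Finset.mem_singleton,
      Finset.mem_Icc, true_and]
    refine ⟨h _ ?_, h'⟩
    obtain ⟨v, i⟩ := e
    fin_cases i <;> simp
  · obtain ⟨v, i⟩ := e
    refine Prod.ext ?_ rfl
    funext j
    simp only [pt]
    fin_cases i <;> fin_cases j <;> simp

lemma blk_sub_FB {N n : ℕ} {k : V} (hk : ∀ i, 0 ≤ k i ∧ k i < n) :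
    blk N k ⊆ FB (n * N) := by
  intro e he
  rw [mem_blk] at he
  have hN0 : (0 : ℤ) ≤ N := Nat.cast_nonneg N
  have h1 : ∀ i, 0 ≤ e.1 i ∧ e.1 i + 1 ≤ ((n * N : ℕ) : ℤ) := by
    intro i
    obtain ⟨a, b⟩ := he i
    obtain ⟨c, d⟩ := hk i
    have h2 : (N : ℤ) * (k i + 1) ≤ N * n := mul_le_mul_of_nonneg_left (by omega) hN0
    push_cast
    constructor
    · nlinarith
    · nlinarith
  rw [mem_FB]
  exact ⟨fun i => ⟨(h1 i).1, by have := (h1 i).2; omega⟩, (h1 _).2⟩

lemma DB_not_blk {N n : ℕ} {k : V} (hk : ∀ i, 0 ≤ k i ∧ k i < n) {e : E}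
    (he : e ∈ DB (n * N)) : e ∉ blk N k := by
  intro hb
  have h1 := blk_sub_FB hk hb
  rw [mem_FB] at h1
  rcases mem_DB he with h | h
  · have := h1.2; omega
  · have := (h1.1 e.2).1; omega

/-- the positions of `n ^ 2` blocks -/
noncomputable def pos (n : ℕ) : Finset V := Fintype.piFinset fun _ => Finset.Ico (0 : ℤ) n

lemma mem_pos {n : ℕ} {k : V} : k ∈ pos n ↔ ∀ i, 0 ≤ k i ∧ k i < n := by
  unfold pos
  rw [Fintype.mem_piFinset]
  simp only [Finset.mem_Ico]

lemma card_pos (n : ℕ) : (pos n).card = n ^ 2 := by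
  unfold pos
  rw [Fintype.card_piFinset]
  simp

section coc

variable {Ω : Type*} [MeasurableSpace Ω] (μ : Measure ℝ) [IsProbabilityMeasure μ]
  (Q : Measure Ω) [IsProbabilityMeasure Q]

lemma sh_law (a : V) : MeasurePreserving (sh a) (infinitePi fun _ : E => μ)
    (infinitePi fun _ : E => μ) :=
  ⟨measurable_sh a, map_infinitePi_infinitePi_of_inj (P := fun _ => μ) (st_inj a)⟩

/-- translation of everything -/
def Tr (τ : V → Ω → Ω) (a : V) (p : (Ω × (E → ℝ)) × ((E → ℝ) × (E → ℝ))) :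
    (Ω × (E → ℝ)) × ((E → ℝ) × (E → ℝ)) :=
  ((τ a p.1.1, sh a p.1.2), (sh a p.2.1, sh a p.2.2))

lemma Tr_law {τ : V → Ω → Ω} (hτ : ∀ a, MeasurePreserving (τ a) Q Q) (a : V) :
    MeasurePreserving (Tr τ a) (MM μ Q E) (MM μ Q E) :=
  ((hτ a).prod (sh_law μ a)).prod ((sh_law μ a).prod (sh_law μ a))

lemma Tr_int {τ : V → Ω → Ω} (hτ : ∀ a, MeasurePreserving (τ a) Q Q) (a : V)
    {f : (Ω × (E → ℝ)) × ((E → ℝ) × (E → ℝ)) → ℝ} (hf : Measurable f) :
    ∫ p, f (Tr τ a p) ∂(MM μ Q E) = ∫ p, f p ∂(MM μ Q E) := by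
  rw [← (Tr_law μ Q hτ a).map_eq, integral_map (Tr_law μ Q hτ a).measurable.aemeasurable
    hf.aestronglyMeasurable, (Tr_law μ Q hτ a).map_eq]

/-- A family of differences: `δ F ω J y` is the difference of two energies which depend on the
couplings, when the couplings `J` in `F` are replaced by `y`. -/
structure Coc (τ : V → Ω → Ω) (δ : Finset E → Ω → (E → ℝ) → (E → ℝ) → ℝ) : Prop where
  tau : ∀ a, MeasurePreserving (τ a) Q Q
  meas : ∀ F, Measurable fun q : Ω × ((E → ℝ) × (E → ℝ)) => δ F q.1 q.2.1 q.2.2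
  coc : ∀ b F : Finset E, b ⊆ F → ∀ᵐ p ∂(MM μ Q E),
    δ F p.1.1 p.2.1 p.1.2 = δ b p.1.1 p.2.1 p.2.2 + δ F p.1.1 (patch b p.2.1 p.2.2) p.1.2
  shift : ∀ (a : V) (F F' : Finset E), (∀ e, e ∈ F ↔ st a e ∈ F') → ∀ᵐ p ∂(MM μ Q E),
    δ F' p.1.1 p.2.1 p.2.2 = δ F (τ a p.1.1) (sh a p.2.1) (sh a p.2.2)
  lip : ∀ F : Finset E, ∀ᵐ p ∂(MM μ Q E),
    |δ F p.1.1 p.2.1 p.2.2| ≤ 2 * ∑ e ∈ F, |p.2.1 e - p.2.2 e|
  bdry : ∀ m : ℕ, ∀ᵐ p ∂(MM μ Q E),
    |δ (FB m) p.1.1 p.2.1 p.2.2| ≤ 4 * ∑ e ∈ DB m, |p.2.1 e|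

end coc

end Pool.Agent.K3h93.EA
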