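import Pool.Agent.K3h93.EA.Det
import Pool.Agent.K3h93.EA.Zero

/-!
# Covariant families of ground states
-/

set_option autoImplicit false
set_option linter.unusedSectionVars false

open MeasureTheory Measure Filter Topology

namespace Pool.Agent.K3h93.EA

variable {Ω : Type*} [MeasurableSpace Ω] (μ : Measure ℝ) [IsProbabilityMeasure μ]
  (Q : Measure Ω) [IsProbabilityMeasure Q]

/-- a covariant family of ground states -/
structure Cov (τ : V → Ω → Ω) (S : Ω → (E → ℝ) → V → ℝ) : Prop where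
  tau : ∀ a, MeasurePreserving (τ a) Q Q
  meas : Measurable fun q : Ω × (E → ℝ) => S q.1 q.2
  ground : ∀ᵐ q ∂(Q.prod (infinitePi fun _ : E => μ)), GS Set.univ q.2 (S q.1 q.2)
  shift : ∀ a : V, ∀ᵐ q ∂(Q.prod (infinitePi fun _ : E => μ)),
    ∀ e, bp (S (τ a q.1) (sh a q.2)) e = bp (S q.1 q.2) (st a e)
  fin : ∀ F : Finset E, ∀ᵐ r ∂(Q.prod ((infinitePi fun _ : E => μ).prod
    (infinitePi fun _ : E => μ))),
      SimF Set.univ (S r.1 r.2.1) (S r.1 (patch (F : Set E) r.2.1 r.2.2))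

variable {μ Q}
variable {τ : V → Ω → Ω} {S : Ω → (E → ℝ) → V → ℝ}

/-- `p ↦ (ω, (J, y))` -/
lemma py_law : MeasurePreserving
    (fun p : (Ω × (E → ℝ)) × ((E → ℝ) × (E → ℝ)) => (p.1.1, p.2)) (MM μ Q E)
    (Q.prod ((infinitePi fun _ : E => μ).prod (infinitePi fun _ : E => μ))) := by
  have h1 : MeasurePreserving (Prod.fst : Ω × (E → ℝ) → Ω)
      (Q.prod (infinitePi fun _ : E => μ)) Q := measurePreserving_fst
  exact h1.prod (MeasurePreserving.id _)

lemma p1_law : MeasurePreserving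
    (fun r : Ω × ((E → ℝ) × (E → ℝ)) => (r.1, r.2.1))
    (Q.prod ((infinitePi fun _ : E => μ).prod (infinitePi fun _ : E => μ)))
    (Q.prod (infinitePi fun _ : E => μ)) := by
  have h1 : MeasurePreserving (Prod.fst : (E → ℝ) × (E → ℝ) → (E → ℝ))
      ((infinitePi fun _ : E => μ).prod (infinitePi fun _ : E => μ))
      (infinitePi fun _ : E => μ) := measurePreserving_fst
  exact (MeasurePreserving.id Q).prod h1

lemma psw_law (F : Set E) : MeasurePreserving
    (fun r : Ω × ((E → ℝ) × (E → ℝ)) => (r.1, sw F r.2))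
    (Q.prod ((infinitePi fun _ : E => μ).prod (infinitePi fun _ : E => μ)))
    (Q.prod ((infinitePi fun _ : E => μ).prod (infinitePi fun _ : E => μ))) :=
  (MeasurePreserving.id Q).prod (sw_law μ F)

lemma Cov.ground1 (hS : Cov μ Q τ S) : ∀ᵐ r ∂(Q.prod ((infinitePi fun _ : E => μ).prod
    (infinitePi fun _ : E => μ))), GS Set.univ r.2.1 (S r.1 r.2.1) :=
  p1_law.quasiMeasurePreserving.ae hS.ground

lemma Cov.ground2 (hS : Cov μ Q τ S) (F : Set E) : ∀ᵐ r ∂(Q.prod ((infinitePi fun _ : E => μ).prod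
    (infinitePi fun _ : E => μ))),
      GS Set.univ (patch F r.2.1 r.2.2) (S r.1 (patch F r.2.1 r.2.2)) :=
  (psw_law F).quasiMeasurePreserving.ae hS.ground1

lemma bp_meas {α : Type*} [MeasurableSpace α] {f : α → V → ℝ} (hf : Measurable f) (e : E) :
    Measurable fun x => bp (f x) e := by
  unfold bp
  exact ((measurable_pi_apply _).comp hf).mul ((measurable_pi_apply _).comp hf)

/-- the energy difference has a measurable version -/
lemma Cov.exists_D (hS : Cov μ Q τ S) (F : Finset E) : ∃ D : Ω → (E → ℝ) → (E → ℝ) → ℝ,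
    (Measurable fun r : Ω × ((E → ℝ) × (E → ℝ)) => D r.1 r.2.1 r.2.2) ∧
    ∀ᵐ r ∂(Q.prod ((infinitePi fun _ : E => μ).prod (infinitePi fun _ : E => μ))),
      D r.1 r.2.1 r.2.2 = DD r.2.1 (patch (F : Set E) r.2.1 r.2.2) (S r.1 r.2.1)
        (S r.1 (patch (F : Set E) r.2.1 r.2.2)) := by
  classical
  set f : ℕ → Ω × ((E → ℝ) × (E → ℝ)) → ℝ := fun n r =>
    ∑ e ∈ bM n, (r.2.1 e * bp (S r.1 r.2.1) e -
      patch (F : Set E) r.2.1 r.2.2 e * bp (S r.1 (patch (F : Set E) r.2.1 r.2.2)) e) with hf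
  have hm1 : Measurable fun r : Ω × ((E → ℝ) × (E → ℝ)) => S r.1 r.2.1 :=
    hS.meas.comp (f := fun r : Ω × ((E → ℝ) × (E → ℝ)) => (r.1, r.2.1)) (by fun_prop)
  have hm0 : Measurable fun r : Ω × ((E → ℝ) × (E → ℝ)) => patch (F : Set E) r.2.1 r.2.2 :=
    (measurable_patch _).comp measurable_snd
  have hm2 : Measurable fun r : Ω × ((E → ℝ) × (E → ℝ)) =>
      S r.1 (patch (F : Set E) r.2.1 r.2.2) :=
    hS.meas.comp (measurable_fst.prodMk hm0)
  have hfm : ∀ n, Measurable (f n) := by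
    intro n
    refine Finset.measurable_sum _ fun e _ => ?_
    have a1 : Measurable fun r : Ω × ((E → ℝ) × (E → ℝ)) => r.2.1 e := by fun_prop
    have a2 : Measurable fun r : Ω × ((E → ℝ) × (E → ℝ)) =>
        patch (F : Set E) r.2.1 r.2.2 e := (measurable_pi_apply e).comp hm0
    exact (a1.mul (bp_meas hm1 e)).sub (a2.mul (bp_meas hm2 e))
  have hlim : ∀ᵐ r ∂(Q.prod ((infinitePi fun _ : E => μ).prod (infinitePi fun _ : E => μ))),
      Tendsto (fun n => f n r) atTop (𝓝 (DD r.2.1 (patch (F : Set E) r.2.1 r.2.2) (S r.1 r.2.1)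
        (S r.1 (patch (F : Set E) r.2.1 r.2.2)))) := by
    filter_upwards [hS.fin F] with r hr
    have hfs : (Function.support fun e => r.2.1 e * bp (S r.1 r.2.1) e -
        patch (F : Set E) r.2.1 r.2.2 e *
          bp (S r.1 (patch (F : Set E) r.2.1 r.2.2)) e).Finite := by
      have hF : ∀ e, e ∉ F → patch (F : Set E) r.2.1 r.2.2 e = r.2.1 e := fun e he =>
        patch_not (fun h => he (Finset.mem_coe.1 h)) _ _
      rcases hr with h | h
      · exact supp_DD hF h.1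
      · have := supp_DD hF h.1
        simpa only [bp_neg] using this
    refine tendsto_const_nhds.congr' ?_
    filter_upwards [bM_finset hfs.toFinset] with n hn
    unfold DD
    rw [finsum_eq_sum_of_support_subset]
    intro e he
    exact Finset.mem_coe.2 (hn (hfs.mem_toFinset.2 he))
  have hae := aemeasurable_of_tendsto_metrizable_ae atTop (fun n => (hfm n).aemeasurable) hlim
  refine ⟨fun ω J y => hae.mk _ (ω, (J, y)), hae.measurable_mk, ?_⟩
  filter_upwards [hae.ae_eq_mk] with r hr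
  exact hr.symm

/-- the energy differences of two covariant families are a cocycle as in `Coc` -/
lemma coc_of {S' : Ω → (E → ℝ) → V → ℝ} (hS : Cov μ Q τ S) (hS' : Cov μ Q τ S')
    {D D' : Finset E → Ω → (E → ℝ) → (E → ℝ) → ℝ}
    (hD : ∀ F, (Measurable fun r : Ω × ((E → ℝ) × (E → ℝ)) => D F r.1 r.2.1 r.2.2) ∧
    ∀ᵐ r ∂(Q.prod ((infinitePi fun _ : E => μ).prod (infinitePi fun _ : E => μ))),
      D F r.1 r.2.1 r.2.2 = DD r.2.1 (patch (F : Set E) r.2.1 r.2.2) (S r.1 r.2.1)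
        (S r.1 (patch (F : Set E) r.2.1 r.2.2)))
    (hD' : ∀ F, (Measurable fun r : Ω × ((E → ℝ) × (E → ℝ)) => D' F r.1 r.2.1 r.2.2) ∧
    ∀ᵐ r ∂(Q.prod ((infinitePi fun _ : E => μ).prod (infinitePi fun _ : E => μ))),
      D' F r.1 r.2.1 r.2.2 = DD r.2.1 (patch (F : Set E) r.2.1 r.2.2) (S' r.1 r.2.1)
        (S' r.1 (patch (F : Set E) r.2.1 r.2.2))) :
    Coc μ Q τ (fun F ω J y => D F ω J y - D' F ω J y) := by
  have hpy := (py_law (μ := μ) (Q := Q)).quasiMeasurePreserving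
  have hpz := ((py_law (μ := μ) (Q := Q)).comp (rZ_law μ Q)).quasiMeasurePreserving
  have patF : ∀ (F : Finset E) (J y : E → ℝ) (e : E), e ∉ F →
      patch (F : Set E) J y e = J e := fun F J y e he =>
    patch_not (fun h => he (Finset.mem_coe.1 h)) _ _
  -- the cocycle identity for one family
  have hcoc : ∀ {T : Ω → (E → ℝ) → V → ℝ} {K : Finset E → Ω → (E → ℝ) → (E → ℝ) → ℝ},
      Cov μ Q τ T → (∀ F, (Measurable fun r : Ω × ((E → ℝ) × (E → ℝ)) => K F r.1 r.2.1 r.2.2) ∧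
      ∀ᵐ r ∂(Q.prod ((infinitePi fun _ : E => μ).prod (infinitePi fun _ : E => μ))),
        K F r.1 r.2.1 r.2.2 = DD r.2.1 (patch (F : Set E) r.2.1 r.2.2) (T r.1 r.2.1)
          (T r.1 (patch (F : Set E) r.2.1 r.2.2))) →
      ∀ b F : Finset E, b ⊆ F → ∀ᵐ p ∂(MM μ Q E), K F p.1.1 p.2.1 p.1.2 =
        K b p.1.1 p.2.1 p.2.2 + K F p.1.1 (patch (b : Set E) p.2.1 p.2.2) p.1.2 := by
    intro T K hT hK b F hb
    have hpaz := (((py_law (μ := μ) (Q := Q)).comp (rZ_law μ Q)).comp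
      (aS_law μ Q (b : Set E))).quasiMeasurePreserving
    filter_upwards [hpz.ae (hK F).2, hpy.ae (hK b).2, hpaz.ae (hK F).2, hpy.ae (hT.fin b),
      hpaz.ae (hT.fin F)] with p h1 h2 h3 h4 h5
    have e1 : K F p.1.1 p.2.1 p.1.2 = DD p.2.1 (patch (F : Set E) p.2.1 p.1.2) (T p.1.1 p.2.1)
      (T p.1.1 (patch (F : Set E) p.2.1 p.1.2)) := h1
    have e2 : K b p.1.1 p.2.1 p.2.2 = DD p.2.1 (patch (b : Set E) p.2.1 p.2.2) (T p.1.1 p.2.1)
      (T p.1.1 (patch (b : Set E) p.2.1 p.2.2)) := h2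
    have e3 : K F p.1.1 (patch (b : Set E) p.2.1 p.2.2) p.1.2 =
      DD (patch (b : Set E) p.2.1 p.2.2)
        (patch (F : Set E) (patch (b : Set E) p.2.1 p.2.2) p.1.2)
        (T p.1.1 (patch (b : Set E) p.2.1 p.2.2))
        (T p.1.1 (patch (F : Set E) (patch (b : Set E) p.2.1 p.2.2) p.1.2)) := h3
    have e4 : SimF Set.univ (T p.1.1 p.2.1) (T p.1.1 (patch (b : Set E) p.2.1 p.2.2)) := h4
    have e5 : SimF Set.univ (T p.1.1 (patch (b : Set E) p.2.1 p.2.2))
        (T p.1.1 (patch (F : Set E) (patch (b : Set E) p.2.1 p.2.2) p.1.2)) := h5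
    have e6 : patch (F : Set E) (patch (b : Set E) p.2.1 p.2.2) p.1.2 =
        patch (F : Set E) p.2.1 p.1.2 := by
      funext e
      by_cases he : e ∈ (F : Set E)
      · rw [patch_mem he, patch_mem he]
      · rw [patch_not he, patch_not he]
        exact patF b _ _ e fun h => he (Finset.mem_coe.2 (hb h))
    rw [e6] at e3 e5
    rw [e1, e2, e3]
    have f1 : (Function.support fun e => p.2.1 e * bp (T p.1.1 p.2.1) e -
        patch (b : Set E) p.2.1 p.2.2 e *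
          bp (T p.1.1 (patch (b : Set E) p.2.1 p.2.2)) e).Finite := by
      rcases e4 with h | h
      · exact supp_DD (patF b _ _) h.1
      · have := supp_DD (patF b p.2.1 p.2.2) h.1
        simpa only [bp_neg] using this
    have f2 : (Function.support fun e => patch (b : Set E) p.2.1 p.2.2 e *
        bp (T p.1.1 (patch (b : Set E) p.2.1 p.2.2)) e -
        patch (F : Set E) p.2.1 p.1.2 e *
          bp (T p.1.1 (patch (F : Set E) p.2.1 p.1.2)) e).Finite := by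
      have g1 : ∀ e, e ∉ F → patch (F : Set E) p.2.1 p.1.2 e =
          patch (b : Set E) p.2.1 p.2.2 e := fun e he => by
        rw [patF F _ _ e he, patF b _ _ e fun h => he (hb h)]
      rcases e5 with h | h
      · exact supp_DD g1 h.1
      · have := supp_DD g1 h.1
        simpa only [bp_neg] using this
    unfold DD
    rw [← finsum_add_distrib f1 f2]
    refine finsum_congr fun e => ?_
    ring
  have hshift : ∀ {T : Ω → (E → ℝ) → V → ℝ} {K : Finset E → Ω → (E → ℝ) → (E → ℝ) → ℝ},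
      Cov μ Q τ T → (∀ F, (Measurable fun r : Ω × ((E → ℝ) × (E → ℝ)) => K F r.1 r.2.1 r.2.2) ∧
      ∀ᵐ r ∂(Q.prod ((infinitePi fun _ : E => μ).prod (infinitePi fun _ : E => μ))),
        K F r.1 r.2.1 r.2.2 = DD r.2.1 (patch (F : Set E) r.2.1 r.2.2) (T r.1 r.2.1)
          (T r.1 (patch (F : Set E) r.2.1 r.2.2))) →
      ∀ (a : V) (F F' : Finset E), (∀ e, e ∈ F ↔ st a e ∈ F') → ∀ᵐ p ∂(MM μ Q E),
        K F' p.1.1 p.2.1 p.2.2 = K F (τ a p.1.1) (sh a p.2.1) (sh a p.2.2) := by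
    intro T K hT hK a F F' hFF
    have hTr := ((py_law (μ := μ) (Q := Q)).comp (Tr_law μ Q hT.tau a)).quasiMeasurePreserving
    have hp1 := ((p1_law (μ := μ) (Q := Q)).comp (py_law (μ := μ) (Q := Q))).quasiMeasurePreserving
    have hp2 := ((p1_law (μ := μ) (Q := Q)).comp ((psw_law (μ := μ) (Q := Q)
      (F' : Set E)).comp (py_law (μ := μ) (Q := Q)))).quasiMeasurePreserving
    filter_upwards [hpy.ae (hK F').2, hTr.ae (hK F).2, hp1.ae (hT.shift a),
      hp2.ae (hT.shift a)] with p h1 h2 h3 h4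
    have e1 : K F' p.1.1 p.2.1 p.2.2 = DD p.2.1 (patch (F' : Set E) p.2.1 p.2.2) (T p.1.1 p.2.1)
      (T p.1.1 (patch (F' : Set E) p.2.1 p.2.2)) := h1
    have e2 : K F (τ a p.1.1) (sh a p.2.1) (sh a p.2.2) = DD (sh a p.2.1)
        (patch (F : Set E) (sh a p.2.1) (sh a p.2.2)) (T (τ a p.1.1) (sh a p.2.1))
        (T (τ a p.1.1) (patch (F : Set E) (sh a p.2.1) (sh a p.2.2))) := h2
    have e3 : ∀ e, bp (T (τ a p.1.1) (sh a p.2.1)) e = bp (T p.1.1 p.2.1) (st a e) := h3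
    have e4 : ∀ e, bp (T (τ a p.1.1) (sh a (patch (F' : Set E) p.2.1 p.2.2))) e =
        bp (T p.1.1 (patch (F' : Set E) p.2.1 p.2.2)) (st a e) := h4
    have e5 := sh_patch (a := a) (F := (F : Set E)) (F' := (F' : Set E)) (fun e => by
      rw [Finset.mem_coe, Finset.mem_coe]; exact hFF e) p.2.1 p.2.2
    rw [e1, e2, ← e5]
    unfold DD
    rw [← finsum_comp_equiv (Equiv.ofBijective (st a) ⟨st_inj a, fun e => ⟨_, st_surj a e⟩⟩)]
    refine finsum_congr fun e => ?_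
    rw [e3, e4]
    rfl
  refine ⟨hS.tau, fun F => (hD F).1.sub (hD' F).1, ?_, ?_, ?_, ?_⟩
  · intro b F hb
    filter_upwards [hcoc hS hD b F hb, hcoc hS' hD' b F hb] with p h1 h2
    rw [h1, h2]; ring
  · intro a F F' hFF
    filter_upwards [hshift hS hD a F F' hFF, hshift hS' hD' a F F' hFF] with p h1 h2
    rw [h1, h2]
  · intro F
    filter_upwards [hpy.ae (hD F).2, hpy.ae (hD' F).2, hpy.ae (hS.fin F), hpy.ae (hS'.fin F),
      hpy.ae hS.ground1, hpy.ae hS'.ground1, hpy.ae (hS.ground2 (F : Set E)),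
      hpy.ae (hS'.ground2 (F : Set E))] with p h1 h2 h3 h4 h5 h6 h7 h8
    have e1 := DD_abs (patF F p.2.1 p.2.2) h3 h5 h7
    have e2 := DD_abs (patF F p.2.1 p.2.2) h4 h6 h8
    have e3 : D F p.1.1 p.2.1 p.2.2 = _ := h1
    have e4 : D' F p.1.1 p.2.1 p.2.2 = _ := h2
    have e5 : ∑ e ∈ F, |p.2.1 e - patch (F : Set E) p.2.1 p.2.2 e| =
        ∑ e ∈ F, |p.2.1 e - p.2.2 e| :=
      Finset.sum_congr rfl fun e he => by rw [patch_mem (Finset.mem_coe.2 he)]
    rw [e5] at e1 e2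
    rw [e3, e4]
    refine (abs_sub _ _).trans ?_
    have e1' : |DD p.2.1 (patch (F : Set E) p.2.1 p.2.2) (S p.1.1 p.2.1)
        (S p.1.1 (patch (F : Set E) p.2.1 p.2.2))| ≤ ∑ e ∈ F, |p.2.1 e - p.2.2 e| := e1
    have e2' : |DD p.2.1 (patch (F : Set E) p.2.1 p.2.2) (S' p.1.1 p.2.1)
        (S' p.1.1 (patch (F : Set E) p.2.1 p.2.2))| ≤ ∑ e ∈ F, |p.2.1 e - p.2.2 e| := e2
    linarith
  · intro m
    filter_upwards [hpy.ae (hD (FB m)).2, hpy.ae (hD' (FB m)).2, hpy.ae (hS.fin (FB m)),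
      hpy.ae (hS'.fin (FB m)), hpy.ae hS.ground1, hpy.ae hS'.ground1,
      hpy.ae (hS.ground2 (FB m : Set E)), hpy.ae (hS'.ground2 (FB m : Set E))]
      with p h1 h2 h3 h4 h5 h6 h7 h8
    have e3 : D (FB m) p.1.1 p.2.1 p.2.2 = _ := h1
    have e4 : D' (FB m) p.1.1 p.2.1 p.2.2 = _ := h2
    rw [e3, e4]
    exact DD_diff (Set.subset_univ _) (Set.subset_univ _) (patF _ p.2.1 p.2.2)
      h3 h5 h7 h4 h6 h8

end Pool.Agent.K3h93.EA
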