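import Mathlib

/-!
# Independent families of random variables: exchange of coordinates and local approximation
-/

set_option autoImplicit false

open MeasureTheory Measure Filter Topology

namespace Pool.Agent.K3h93.EA

variable {ι : Type*}

open Classical in
/-- `y` on `F` and `J` outside of `F` -/
noncomputable def patch (F : Set ι) (J y : ι → ℝ) : ι → ℝ := fun e => if e ∈ F then y e else J e

lemma patch_mem {F : Set ι} {e : ι} (h : e ∈ F) (J y : ι → ℝ) : patch F J y e = y e := if_pos h

lemma patch_not {F : Set ι} {e : ι} (h : e ∉ F) (J y : ι → ℝ) : patch F J y e = J e := if_neg h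

lemma measurable_patch (F : Set ι) :
    Measurable fun p : (ι → ℝ) × (ι → ℝ) => patch F p.1 p.2 := by
  refine measurable_pi_lambda _ fun e => ?_
  by_cases h : e ∈ F
  · simp only [patch_mem h]
    fun_prop
  · simp only [patch_not h]
    fun_prop

/-- exchange of the coordinates in `F` -/
noncomputable def sw (F : Set ι) (p : (ι → ℝ) × (ι → ℝ)) : (ι → ℝ) × (ι → ℝ) :=
  (patch F p.1 p.2, patch F p.2 p.1)

lemma sw_mem_fst {F : Set ι} {e : ι} (h : e ∈ F) (p : (ι → ℝ) × (ι → ℝ)) :
    (sw F p).1 e = p.2 e := if_pos h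

lemma sw_not_fst {F : Set ι} {e : ι} (h : e ∉ F) (p : (ι → ℝ) × (ι → ℝ)) :
    (sw F p).1 e = p.1 e := if_neg h

lemma sw_mem_snd {F : Set ι} {e : ι} (h : e ∈ F) (p : (ι → ℝ) × (ι → ℝ)) :
    (sw F p).2 e = p.1 e := if_pos h

lemma sw_not_snd {F : Set ι} {e : ι} (h : e ∉ F) (p : (ι → ℝ) × (ι → ℝ)) :
    (sw F p).2 e = p.2 e := if_neg h

lemma measurable_sw (F : Set ι) : Measurable (sw F) :=
  (measurable_patch F).prodMk ((measurable_patch F).comp measurable_swap)

lemma sw_sw (F : Set ι) (p : (ι → ℝ) × (ι → ℝ)) : sw F (sw F p) = p := by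
  refine Prod.ext ?_ ?_
  · funext e
    by_cases h : e ∈ F
    · rw [sw_mem_fst h, sw_mem_snd h]
    · rw [sw_not_fst h, sw_not_fst h]
  · funext e
    by_cases h : e ∈ F
    · rw [sw_mem_snd h, sw_mem_fst h]
    · rw [sw_not_snd h, sw_not_snd h]

/-- the exchange as an equivalence -/
noncomputable def swE (F : Set ι) : ((ι → ℝ) × (ι → ℝ)) ≃ᵐ ((ι → ℝ) × (ι → ℝ)) where
  toFun := sw F
  invFun := sw F
  left_inv := sw_sw F
  right_inv := sw_sw F
  measurable_toFun := measurable_sw F
  measurable_invFun := measurable_sw F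

section law

variable (μ : Measure ℝ) [IsProbabilityMeasure μ]

lemma sum_law : ((infinitePi fun _ : ι => μ).prod (infinitePi fun _ : ι => μ)) =
    (infinitePi fun _ : ι ⊕ ι => μ).map
      (fun x => (((fun i => x (.inl i)), (fun i => x (.inr i))) : (ι → ℝ) × (ι → ℝ))) := by
  classical
  set P := infinitePi fun _ : ι => μ
  have h1 : (P.prod P).map (fun p => (Sum.elim p.1 p.2 : ι ⊕ ι → ℝ)) =
      infinitePi fun _ : ι ⊕ ι => μ := by
    refine eq_infinitePi (X := fun _ : ι ⊕ ι => ℝ) _ fun s t ht => ?_
    have hm : Measurable (fun p : (ι → ℝ) × (ι → ℝ) => (Sum.elim p.1 p.2 : ι ⊕ ι → ℝ)) := by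
      refine measurable_pi_lambda _ fun e => ?_
      cases e with
      | inl i => simp only [Sum.elim_inl]; fun_prop
      | inr i => simp only [Sum.elim_inr]; fun_prop
    rw [map_apply hm (.pi s.countable_toSet fun i _ => ht i)]
    have h2 : (fun p : (ι → ℝ) × (ι → ℝ) => (Sum.elim p.1 p.2 : ι ⊕ ι → ℝ)) ⁻¹'
        ((s : Set (ι ⊕ ι)).pi t) =
        ((s.preimage Sum.inl Sum.inl_injective.injOn : Finset ι) : Set ι).pi
          (fun i => t (.inl i)) ×ˢ
        ((s.preimage Sum.inr Sum.inr_injective.injOn : Finset ι) : Set ι).pi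
          (fun i => t (.inr i)) := by
      ext p
      simp only [Set.mem_preimage, Set.mem_pi, Finset.mem_coe, Set.mem_prod, Finset.mem_preimage]
      constructor
      · intro h
        exact ⟨fun i hi => h (.inl i) hi, fun i hi => h (.inr i) hi⟩
      · rintro ⟨h, h'⟩ (i | i) hi
        · exact h i hi
        · exact h' i hi
    rw [h2, prod_prod, infinitePi_pi _ (fun i _ => ht (.inl i)),
      infinitePi_pi _ (fun i _ => ht (.inr i))]
    have h3 : s = (s.preimage Sum.inl Sum.inl_injective.injOn).image Sum.inl ∪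
        (s.preimage Sum.inr Sum.inr_injective.injOn).image Sum.inr := by
      ext x
      cases x with
      | inl i => simp
      | inr i => simp
    conv_rhs => rw [h3]
    rw [Finset.prod_union, Finset.prod_image (fun a _ b _ h => Sum.inl_injective h),
      Finset.prod_image (fun a _ b _ h => Sum.inr_injective h)]
    rw [Finset.disjoint_left]
    intro x hx hx'
    simp only [Finset.mem_image, Finset.mem_preimage] at hx hx'
    obtain ⟨a, -, rfl⟩ := hx
    obtain ⟨b, -, h⟩ := hx'
    cases h
  have hm : Measurable (fun p : (ι → ℝ) × (ι → ℝ) => (Sum.elim p.1 p.2 : ι ⊕ ι → ℝ)) := by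
    refine measurable_pi_lambda _ fun e => ?_
    cases e with
    | inl i => simp only [Sum.elim_inl]; fun_prop
    | inr i => simp only [Sum.elim_inr]; fun_prop
  rw [← h1, map_map (by fun_prop) hm]
  conv_lhs => rw [← Measure.map_id (μ := P.prod P)]
  congr 1

/-- exchanging some coordinates of two independent copies -/
lemma sw_law (F : Set ι) : MeasurePreserving (sw F)
    ((infinitePi fun _ : ι => μ).prod (infinitePi fun _ : ι => μ))
    ((infinitePi fun _ : ι => μ).prod (infinitePi fun _ : ι => μ)) := by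
  classical
  refine ⟨measurable_sw F, ?_⟩
  rw [sum_law μ, map_map (measurable_sw F) (by fun_prop)]
  set f : ι ⊕ ι → ι ⊕ ι := fun x => Sum.elim (fun i => if i ∈ F then .inr i else .inl i)
    (fun i => if i ∈ F then .inl i else .inr i) x with hf
  have hinv : Function.Involutive f := by
    intro x
    rcases x with i | i
    · by_cases h : i ∈ F
      · simp [hf, h]
      · simp [hf, h]
    · by_cases h : i ∈ F
      · simp [hf, h]
      · simp [hf, h]
  have h1 := map_infinitePi_infinitePi_of_inj (P := fun _ : ι ⊕ ι => μ) hinv.injective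
  conv_rhs => rw [← h1]
  rw [map_map (by fun_prop) (by fun_prop)]
  congr 1
  funext x
  refine Prod.ext ?_ ?_
  · funext i
    by_cases h : i ∈ F
    · simp [sw, patch, hf, h]
    · simp [sw, patch, hf, h]
  · funext i
    by_cases h : i ∈ F
    · simp [sw, patch, hf, h]
    · simp [sw, patch, hf, h]

lemma sw_int (F : Set ι) (f : (ι → ℝ) × (ι → ℝ) → ℝ) :
    ∫ p, f (sw F p) ∂((infinitePi fun _ : ι => μ).prod (infinitePi fun _ : ι => μ)) =
      ∫ p, f p ∂((infinitePi fun _ : ι => μ).prod (infinitePi fun _ : ι => μ)) :=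
  MeasurePreserving.integral_comp' (f := swE F) (sw_law μ F) f

end law

end Pool.Agent.K3h93.EA
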