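import Pool.Agent.K3h93.EA.Approx

/-!
# Products of small independent perturbations
-/

set_option autoImplicit false

open MeasureTheory Measure Filter Topology

namespace Pool.Agent.K3h93.EA

variable {ι : Type*}

/-- `f` depends only on the coordinates in `b` -/
def Dep (b : Set ι) (f : (ι → ℝ) → ℝ) : Prop :=
  ∀ J J' : ι → ℝ, (∀ e ∈ b, J e = J' e) → f J = f J'

lemma Dep.mono {b c : Set ι} {f : (ι → ℝ) → ℝ} (h : Dep b f) (hbc : b ⊆ c) : Dep c f :=
  fun J J' hJ => h J J' fun e he => hJ e (hbc he)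

lemma Dep.patch_in {b F : Set ι} {f : (ι → ℝ) → ℝ} (h : Dep b f) (hb : b ⊆ F) (J y : ι → ℝ) :
    f (patch F J y) = f y := h _ _ fun _ he => patch_mem (hb he) _ _

lemma Dep.patch_out {b F : Set ι} {f : (ι → ℝ) → ℝ} (h : Dep b f) (hb : Disjoint b F)
    (J y : ι → ℝ) : f (patch F J y) = f J :=
  h _ _ fun _ he => patch_not (Set.disjoint_left.1 hb he) _ _

section law

variable (μ : Measure ℝ) [IsProbabilityMeasure μ]


lemma int_fst (f : (ι → ℝ) → ℝ) :
    ∫ p, f p.1 ∂((infinitePi fun _ : ι => μ).prod (infinitePi fun _ : ι => μ)) =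
      ∫ x, f x ∂(infinitePi fun _ : ι => μ) := by
  have h6 := integral_prod_mul (μ := infinitePi fun _ : ι => μ)
    (ν := infinitePi fun _ : ι => μ) f (fun _ => (1 : ℝ))
  simpa using h6

/-- independence -/
lemma indep_int {b : Set ι} {f g : (ι → ℝ) → ℝ} (hf : Dep bᶜ f) (hg : Dep b g) :
    ∫ x, f x * g x ∂(infinitePi fun _ : ι => μ) =
      (∫ x, f x ∂(infinitePi fun _ : ι => μ)) * ∫ x, g x ∂(infinitePi fun _ : ι => μ) := by
  rw [← int_fst μ (fun x => f x * g x), ← integral_prod_mul (μ := infinitePi fun _ : ι => μ)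
    (ν := infinitePi fun _ : ι => μ) f g, ← sw_int μ b (fun p => f p.1 * g p.1)]
  refine integral_congr_ae (Eventually.of_forall fun p => ?_)
  show f (patch b p.1 p.2) * g (patch b p.1 p.2) = f p.1 * g p.2
  rw [hf.patch_out disjoint_compl_left, hg.patch_in le_rfl]

end law

section Z

variable {κ : Type*}

/-- the product of the perturbations -/
def Zf (h : ℝ) (G : κ → (ι → ℝ) → ℝ) (K : Finset κ) (J : ι → ℝ) : ℝ :=
  ∏ k ∈ K, (1 + h * G k J)

variable {h : ℝ} {G : κ → (ι → ℝ) → ℝ}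

lemma Zf_empty (J : ι → ℝ) : Zf h G ∅ J = 1 := by simp [Zf]

lemma Zf_insert [DecidableEq κ] {K : Finset κ} {k : κ} (hk : k ∉ K) (J : ι → ℝ) :
    Zf h G (insert k K) J = (1 + h * G k J) * Zf h G K J := by
  unfold Zf
  rw [Finset.prod_insert hk]

lemma Zf_union [DecidableEq κ] {K L : Finset κ} (hd : Disjoint K L) (J : ι → ℝ) :
    Zf h G (K ∪ L) J = Zf h G K J * Zf h G L J := by
  unfold Zf
  rw [Finset.prod_union hd]

lemma Zf_dep {K : Finset κ} {b : κ → Set ι} {S : Set ι} (hG : ∀ k, Dep (b k) (G k))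
    (hS : ∀ k ∈ K, b k ⊆ S) : Dep S (Zf h G K) := by
  intro J J' hJ
  unfold Zf
  refine Finset.prod_congr rfl fun k hk => ?_
  rw [hG k J J' fun e he => hJ e (hS k hk he)]

lemma Zf_meas {K : Finset κ} (hG : ∀ k, Measurable (G k)) : Measurable (Zf h G K) := by
  unfold Zf
  exact Finset.measurable_prod _ fun k _ => (measurable_const.add (measurable_const.mul (hG k)))

lemma Zf_nonneg {K : Finset κ} (h0 : 0 ≤ h) (h1 : h ≤ 1) (hG : ∀ k J, |G k J| ≤ 1) (J : ι → ℝ) :
    0 ≤ Zf h G K J := by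
  unfold Zf
  refine Finset.prod_nonneg fun k _ => ?_
  have := (abs_le.1 (hG k J)).1
  nlinarith

lemma Zf_le {K : Finset κ} (h0 : 0 ≤ h) (hG : ∀ k J, |G k J| ≤ 1) (J : ι → ℝ) :
    |Zf h G K J| ≤ (1 + h) ^ K.card := by
  unfold Zf
  rw [Finset.abs_prod]
  refine (Finset.prod_le_prod (fun k _ => abs_nonneg _) fun k _ => ?_).trans
    (by rw [Finset.prod_const])
  refine (abs_add_le _ _).trans ?_
  rw [abs_one, abs_mul, abs_of_nonneg h0]
  nlinarith [hG k J]

lemma Zf_sub_one {K : Finset κ} (h0 : 0 ≤ h) (hG : ∀ k J, |G k J| ≤ 1) (J : ι → ℝ) :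
    |Zf h G K J - 1| ≤ (1 + h) ^ K.card - 1 := by
  classical
  induction K using Finset.induction_on with
  | empty => simp [Zf]
  | insert k K hk ih =>
    rw [Zf_insert hk, Finset.card_insert_of_notMem hk, pow_succ]
    have e1 : (1 + h * G k J) * Zf h G K J - 1 = (Zf h G K J - 1) + h * G k J * Zf h G K J := by
      ring
    rw [e1]
    refine (abs_add_le _ _).trans ?_
    have h2 : |h * G k J * Zf h G K J| ≤ h * (1 + h) ^ K.card := by
      rw [abs_mul, abs_mul, abs_of_nonneg h0]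
      have h3 := Zf_le (K := K) h0 hG J
      have h4 := hG k J
      have h5 := abs_nonneg (G k J)
      have h6 : h * |G k J| ≤ h := by nlinarith
      exact mul_le_mul h6 h3 (abs_nonneg _) h0
    nlinarith

variable (μ : Measure ℝ) [IsProbabilityMeasure μ]

lemma int_bdd {f : (ι → ℝ) → ℝ} (hf : Measurable f) {C : ℝ} (hC : ∀ x, |f x| ≤ C) :
    Integrable f (infinitePi fun _ : ι => μ) :=
  Integrable.of_bound hf.aestronglyMeasurable C
    (Eventually.of_forall fun x => by rw [Real.norm_eq_abs]; exact hC x)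

lemma Zf_mean {b : κ → Set ι} (hb : Pairwise fun j k => Disjoint (b j) (b k))
    (hG : ∀ k, Dep (b k) (G k)) (hm : ∀ k, Measurable (G k)) (hG1 : ∀ k J, |G k J| ≤ 1)
    (h0 : 0 ≤ h) (hz : ∀ k, ∫ x, G k x ∂(infinitePi fun _ : ι => μ) = 0) (K : Finset κ) :
    ∫ x, Zf h G K x ∂(infinitePi fun _ : ι => μ) = 1 := by
  classical
  induction K using Finset.induction_on with
  | empty => simp [Zf]
  | insert k K hk ih =>
    have hd : Dep (b k)ᶜ (Zf h G K) := Zf_dep hG fun j hj =>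
      Set.subset_compl_iff_disjoint_right.2 (hb (fun e => hk (e ▸ hj)))
    have e1 : ∀ x, Zf h G (insert k K) x = Zf h G K x + h * (Zf h G K x * G k x) := by
      intro x; rw [Zf_insert hk]; ring
    simp only [e1]
    have i1 : Integrable (Zf h G K) (infinitePi fun _ : ι => μ) :=
      int_bdd μ (Zf_meas hm) (fun x => Zf_le h0 hG1 x)
    have i2 : Integrable (fun x => Zf h G K x * G k x) (infinitePi fun _ : ι => μ) := by
      refine int_bdd μ ((Zf_meas hm).mul (hm k)) (C := (1 + h) ^ K.card) fun x => ?_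
      rw [abs_mul]
      have := Zf_le (K := K) h0 hG1 x
      nlinarith [hG1 k x, abs_nonneg (Zf h G K x), abs_nonneg (G k x)]
    rw [integral_add i1 (i2.const_mul h), integral_const_mul, ih, indep_int μ hd (hG k), hz k]
    ring

lemma Zf_sq {b : κ → Set ι} (hb : Pairwise fun j k => Disjoint (b j) (b k))
    (hG : ∀ k, Dep (b k) (G k)) (hm : ∀ k, Measurable (G k)) (hG1 : ∀ k J, |G k J| ≤ 1)
    (h0 : 0 ≤ h) (hz : ∀ k, ∫ x, G k x ∂(infinitePi fun _ : ι => μ) = 0) (K : Finset κ) :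
    ∫ x, Zf h G K x ^ 2 ∂(infinitePi fun _ : ι => μ) ≤ (1 + h ^ 2) ^ K.card := by
  classical
  induction K using Finset.induction_on with
  | empty => simp [Zf]
  | insert k K hk ih =>
    have hd : Dep (b k)ᶜ (fun x => Zf h G K x ^ 2) := by
      intro J J' hJ
      have := (Zf_dep (h := h) hG fun j hj =>
        Set.subset_compl_iff_disjoint_right.2 (hb (fun e => hk (e ▸ hj))) :
          Dep (b k)ᶜ (Zf h G K)) J J' hJ
      simp only [this]
    have e1 : ∀ x, Zf h G (insert k K) x ^ 2 = Zf h G K x ^ 2 + 2 * h * (Zf h G K x ^ 2 * G k x)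
        + h ^ 2 * (Zf h G K x ^ 2 * G k x ^ 2) := by
      intro x; rw [Zf_insert hk]; ring
    simp only [e1]
    have hb2 : ∀ x, Zf h G K x ^ 2 ≤ ((1 + h) ^ K.card) ^ 2 := fun x => by
      rw [← sq_abs]
      exact pow_le_pow_left₀ (abs_nonneg _) (Zf_le h0 hG1 x) 2
    have i1 : Integrable (fun x => Zf h G K x ^ 2) (infinitePi fun _ : ι => μ) :=
      int_bdd μ ((Zf_meas hm).pow_const 2) (C := ((1 + h) ^ K.card) ^ 2)
        (fun x => by rw [abs_of_nonneg (sq_nonneg _)]; exact hb2 x)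
    have i2 : Integrable (fun x => Zf h G K x ^ 2 * G k x) (infinitePi fun _ : ι => μ) := by
      refine int_bdd μ (((Zf_meas hm).pow_const 2).mul (hm k)) (C := ((1 + h) ^ K.card) ^ 2)
        fun x => ?_
      rw [abs_mul, abs_of_nonneg (sq_nonneg _)]
      nlinarith [hG1 k x, hb2 x, sq_nonneg (Zf h G K x), abs_nonneg (G k x)]
    have hg2 : ∀ x, G k x ^ 2 ≤ 1 := fun x => by
      rw [← sq_abs]
      have := hG1 k x
      nlinarith [abs_nonneg (G k x)]
    have i3 : Integrable (fun x => Zf h G K x ^ 2 * G k x ^ 2) (infinitePi fun _ : ι => μ) := by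
      refine int_bdd μ (((Zf_meas hm).pow_const 2).mul ((hm k).pow_const 2))
        (C := ((1 + h) ^ K.card) ^ 2) fun x => ?_
      rw [abs_of_nonneg (mul_nonneg (sq_nonneg _) (sq_nonneg _))]
      nlinarith [hg2 x, hb2 x, sq_nonneg (Zf h G K x), sq_nonneg (G k x)]
    have i12 : Integrable (fun x => Zf h G K x ^ 2 + 2 * h * (Zf h G K x ^ 2 * G k x))
        (infinitePi fun _ : ι => μ) := i1.add (i2.const_mul (2 * h))
    rw [integral_add i12 (i3.const_mul (h ^ 2)), integral_add i1 (i2.const_mul (2 * h)),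
      integral_const_mul, integral_const_mul, indep_int μ hd (hG k), hz k]
    have h3 : ∫ x, Zf h G K x ^ 2 * G k x ^ 2 ∂(infinitePi fun _ : ι => μ) ≤
        ∫ x, Zf h G K x ^ 2 ∂(infinitePi fun _ : ι => μ) := by
      refine integral_mono i3 i1 fun x => ?_
      have := hg2 x
      nlinarith [sq_nonneg (Zf h G K x)]
    rw [Finset.card_insert_of_notMem hk, pow_succ (1 + h ^ 2)]
    set A := ∫ x, Zf h G K x ^ 2 ∂(infinitePi fun _ : ι => μ)
    set B := ∫ x, Zf h G K x ^ 2 * G k x ^ 2 ∂(infinitePi fun _ : ι => μ)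
    have h4 : h ^ 2 * B ≤ h ^ 2 * A := mul_le_mul_of_nonneg_left h3 (sq_nonneg h)
    have h5 : A * (1 + h ^ 2) ≤ (1 + h ^ 2) ^ K.card * (1 + h ^ 2) :=
      mul_le_mul_of_nonneg_right ih (by positivity)
    have h6 : A + 2 * h * (A * 0) + h ^ 2 * B ≤ A * (1 + h ^ 2) := by
      rw [mul_zero, mul_zero, add_zero]
      linarith
    exact h6.trans h5

end Z

end Pool.Agent.K3h93.EA
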